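import Pool.Agent.LYD.Basic

set_option autoImplicit false

/-!
# LYD-A: differences meet every open set under most powers of `p`
-/

open MeasureTheory Filter Topology
open Pool.Agent.LYN
open scoped Classical

namespace Pool.Agent.LYD

noncomputable section

namespace A_

/-- one good `n` -/
lemma point {q K : ℕ} {U : Set Ci} {s : Finset ℤ} {c : ℤ → ℂ} (hT : Tst U s c) (z : Ci)
    (h : ∀ j < K, q ^ j • z ∉ U) :
    (c 0).re * K ≤ ∑ a ∈ s.erase 0, ‖c a‖ * ‖∑ j ∈ Finset.range K,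
      (fourier a : C(UnitAddCircle, ℂ)) (q ^ j • z)‖ := by
  have h1 : ∑ j ∈ Finset.range K,
      (∑ a ∈ s, c a * (fourier a : C(UnitAddCircle, ℂ)) (q ^ j • z)).re ≤ 0 :=
    Finset.sum_nonpos fun j hj => hT.2.2 _ (h j (Finset.mem_range.1 hj))
  have h2 : ∑ j ∈ Finset.range K,
      (∑ a ∈ s, c a * (fourier a : C(UnitAddCircle, ℂ)) (q ^ j • z)).re
      = (c 0).re * K + (∑ a ∈ s.erase 0, c a * ∑ j ∈ Finset.range K,
        (fourier a : C(UnitAddCircle, ℂ)) (q ^ j • z)).re := by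
    rw [← Complex.re_sum, Finset.sum_comm]
    simp_rw [← Finset.mul_sum]
    rw [← Finset.add_sum_erase s _ hT.1, Complex.add_re]
    congr 1
    simp
  rw [h2] at h1
  have h3 : -(∑ a ∈ s.erase 0, ‖c a‖ * ‖∑ j ∈ Finset.range K,
      (fourier a : C(UnitAddCircle, ℂ)) (q ^ j • z)‖) ≤ (∑ a ∈ s.erase 0, c a * ∑ j ∈ Finset.range K,
        (fourier a : C(UnitAddCircle, ℂ)) (q ^ j • z)).re := by
    have h4 := Complex.abs_re_le_norm (∑ a ∈ s.erase 0, c a * ∑ j ∈ Finset.range K,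
        (fourier a : C(UnitAddCircle, ℂ)) (q ^ j • z))
    have h5 : ‖∑ a ∈ s.erase 0, c a * ∑ j ∈ Finset.range K,
        (fourier a : C(UnitAddCircle, ℂ)) (q ^ j • z)‖ ≤ ∑ a ∈ s.erase 0, ‖c a‖ *
        ‖∑ j ∈ Finset.range K, (fourier a : C(UnitAddCircle, ℂ)) (q ^ j • z)‖ := by
      refine (norm_sum_le _ _).trans (le_of_eq ?_)
      exact Finset.sum_congr rfl fun a _ => norm_mul _ _
    have h6 := (abs_le.1 (h4.trans h5)).1
    exact h6
  linarith

end A_

open A_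

theorem p_A (h_SEL : T_SEL) (h_A4 : T_A4) (h_BMP : T_BMP) : T_A := by
  intro p q g Q P D d hd U hU hUne δ hδ
  obtain ⟨i, hi, k0, hsel⟩ := h_SEL p q g Q P D d hd
  obtain ⟨C, hC, h4⟩ := h_A4 p q g Q P D i hi
  obtain ⟨s, c, hT⟩ := h_BMP U hU hUne
  have hc0 : 0 < (c 0).re := hT.2.1
  set c1 : ℝ := ∑ a ∈ s.erase 0, ‖c a‖ with hc1
  have hc1n : 0 ≤ c1 := Finset.sum_nonneg fun _ _ => norm_nonneg _
  set A : ℕ := ∑ a ∈ s, a.natAbs with hA
  have hAa : ∀ a ∈ s, a.natAbs ≤ A := fun a ha =>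
    Finset.single_le_sum (f := fun a : ℤ => a.natAbs) (fun _ _ => Nat.zero_le _) ha
  obtain ⟨K1, hK1⟩ := exists_nat_ge (((C : ℝ) + 1) * (2 * c1 / (δ * (c 0).re)) ^ 2)
  set K : ℕ := K1 + 1 with hK
  have hKr : ((C : ℝ) + 1) * (2 * c1 / (δ * (c 0).re)) ^ 2 ≤ K := by
    rw [hK]; push_cast; linarith
  have hKpos : (0 : ℝ) < K := by rw [hK]; positivity
  have hkey : c1 * Real.sqrt (((C : ℝ) + 1) * K) ≤ δ / 2 * ((c 0).re * K) := by
    have h1 : Real.sqrt (((C : ℝ) + 1) * K) ^ 2 = ((C : ℝ) + 1) * K :=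
      Real.sq_sqrt (by positivity)
    have h2 : (c1 * Real.sqrt (((C : ℝ) + 1) * K)) ^ 2 ≤ (δ / 2 * ((c 0).re * K)) ^ 2 := by
      rw [mul_pow, h1]
      have h3 : c1 ^ 2 * (((C : ℝ) + 1) * K)
          = (((C : ℝ) + 1) * (2 * c1 / (δ * (c 0).re)) ^ 2) * ((δ / 2 * (c 0).re) ^ 2 * K) := by
        field_simp
      rw [h3]
      calc (((C : ℝ) + 1) * (2 * c1 / (δ * (c 0).re)) ^ 2) * ((δ / 2 * (c 0).re) ^ 2 * K)
          ≤ K * ((δ / 2 * (c 0).re) ^ 2 * K) := mul_le_mul_of_nonneg_right hKr (by positivity)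
        _ = _ := by ring
    exact (abs_le_of_sq_le_sq' h2 (by positivity)).2
  set m : ℕ := K + A + k0 with hm
  obtain ⟨N1, hN1⟩ := exists_nat_ge (2 * (m : ℝ) / δ)
  refine ⟨Q i ^ m + N1, ?_⟩
  intro x N hN
  set y : ℕ := max x m with hy
  have hmy : m ≤ y := le_max_right _ _
  have hxy : x ≤ y := le_max_left _ _
  have hNQ : (Q i : ℝ) ^ m ≤ N := by
    have : Q i ^ m ≤ N := by omega
    exact_mod_cast this
  have hNm : (m : ℝ) ≤ δ / 2 * N := by
    have h1 : (N1 : ℝ) ≤ N := by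
      have : N1 ≤ N := by omega
      exact_mod_cast this
    have h2 : 2 * (m : ℝ) / δ ≤ N := hN1.trans h1
    rw [div_le_iff₀ hδ] at h2
    linarith
  -- the inner sums
  set e : ℕ → Ci := fun n => p ^ n • d (i * n + m) with he
  set Sg : ℤ → ℕ → ℝ := fun a n => ‖∑ j ∈ Finset.range K,
      (fourier a : C(UnitAddCircle, ℂ)) (q ^ j • p ^ n • d (i * n + m))‖ with hSg
  have hbound : ∀ a ∈ s.erase 0, ∑ n ∈ Finset.Ico y (y + N), Sg a n
      ≤ Real.sqrt (((C : ℝ) + 1) * K) * N := by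
    intro a ha
    rw [Finset.mem_erase] at ha
    have h5 := h4 d m k0 hd.2.2 (by omega) (fun n hn => ⟨(hsel m n hn).1, (hsel m n hn).2 (by omega)⟩)
      a K ha.1 (by have := hAa a ha.2; omega) y N hmy
    have h6 : (∑ n ∈ Finset.Ico y (y + N), Sg a n) ^ 2
        ≤ (Real.sqrt (((C : ℝ) + 1) * K) * N) ^ 2 := by
      have h7 := sq_sum_le_card_mul_sum_sq (s := Finset.Ico y (y + N)) (f := fun n => Sg a n)
      rw [Nat.card_Ico, Nat.add_sub_cancel_left] at h7
      refine h7.trans ?_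
      have h8 : ∑ n ∈ Finset.Ico y (y + N), Sg a n ^ 2 ≤ (((C : ℝ) + 1) * N) * K := by
        refine h5.trans ?_
        refine mul_le_mul_of_nonneg_right ?_ hKpos.le
        linarith
      rw [mul_pow, Real.sq_sqrt (by positivity)]
      calc (N : ℝ) * ∑ n ∈ Finset.Ico y (y + N), Sg a n ^ 2
          ≤ N * ((((C : ℝ) + 1) * N) * K) := mul_le_mul_of_nonneg_left h8 (Nat.cast_nonneg _)
        _ = _ := by ring
    exact (abs_le_of_sq_le_sq' h6 (by positivity)).2
  set cnt : ℕ := ((Finset.Ico y (y + N)).filter fun n => ∀ k, p ^ n • d k ∉ U).card with hcnt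
  have hmain : (c 0).re * K * cnt ≤ c1 * (Real.sqrt (((C : ℝ) + 1) * K) * N) := by
    have h7 : ∀ n ∈ (Finset.Ico y (y + N)).filter (fun n => ∀ k, p ^ n • d k ∉ U),
        (c 0).re * K ≤ ∑ a ∈ s.erase 0, ‖c a‖ * Sg a n := by
      intro n hn
      rw [Finset.mem_filter, Finset.mem_Ico] at hn
      refine point hT (p ^ n • d (i * n + m)) ?_
      intro j hj
      have h8 : q ^ j • p ^ n • d (i * n + m) = p ^ n • d (i * n + m - j) := by
        have h9 := coh_pow hd.2.2 j (i * n + m - j)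
        have h10 : i * n + m - j + j = i * n + m := by
          apply Nat.sub_add_cancel
          omega
        rw [h10] at h9
        rw [← h9, smul_comm]
      rw [h8]
      exact hn.2 _
    calc (c 0).re * K * cnt
        = ∑ _n ∈ (Finset.Ico y (y + N)).filter (fun n => ∀ k, p ^ n • d k ∉ U), (c 0).re * K := by
          rw [Finset.sum_const, nsmul_eq_mul, mul_comm]
      _ ≤ ∑ n ∈ (Finset.Ico y (y + N)).filter (fun n => ∀ k, p ^ n • d k ∉ U),
          ∑ a ∈ s.erase 0, ‖c a‖ * Sg a n := Finset.sum_le_sum h7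
      _ ≤ ∑ n ∈ Finset.Ico y (y + N), ∑ a ∈ s.erase 0, ‖c a‖ * Sg a n := by
          refine Finset.sum_le_sum_of_subset_of_nonneg (Finset.filter_subset _ _) ?_
          intro n _ _
          exact Finset.sum_nonneg fun a _ => mul_nonneg (norm_nonneg _) (norm_nonneg _)
      _ = ∑ a ∈ s.erase 0, ‖c a‖ * ∑ n ∈ Finset.Ico y (y + N), Sg a n := by
          rw [Finset.sum_comm]
          exact Finset.sum_congr rfl fun a _ => (Finset.mul_sum _ _ _).symm
      _ ≤ ∑ a ∈ s.erase 0, ‖c a‖ * (Real.sqrt (((C : ℝ) + 1) * K) * N) :=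
          Finset.sum_le_sum fun a ha => mul_le_mul_of_nonneg_left (hbound a ha) (norm_nonneg _)
      _ = c1 * (Real.sqrt (((C : ℝ) + 1) * K) * N) := by rw [← Finset.sum_mul]
  have hcntle : (cnt : ℝ) ≤ δ / 2 * N := by
    have h8 : (c 0).re * K * cnt ≤ (c 0).re * K * (δ / 2 * N) := by
      refine hmain.trans ?_
      calc c1 * (Real.sqrt (((C : ℝ) + 1) * K) * N)
          = (c1 * Real.sqrt (((C : ℝ) + 1) * K)) * N := by ring
        _ ≤ (δ / 2 * ((c 0).re * K)) * N := mul_le_mul_of_nonneg_right hkey (Nat.cast_nonneg _)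
        _ = _ := by ring
    exact le_of_mul_le_mul_left h8 (by positivity)
  have hsub : (Finset.Ico x (x + N)).filter (fun n => ∀ k, p ^ n • d k ∉ U) ⊆
      Finset.range m ∪ (Finset.Ico y (y + N)).filter (fun n => ∀ k, p ^ n • d k ∉ U) := by
    intro n hn
    rw [Finset.mem_filter, Finset.mem_Ico] at hn
    rw [Finset.mem_union, Finset.mem_range, Finset.mem_filter, Finset.mem_Ico]
    by_cases hnm : n < m
    · exact Or.inl hnm
    · refine Or.inr ⟨⟨?_, ?_⟩, hn.2⟩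
      · rw [hy]; exact max_le hn.1.1 (not_lt.1 hnm)
      · exact lt_of_lt_of_le hn.1.2 (by omega)
  have hcard : (((Finset.Ico x (x + N)).filter fun n => ∀ k, p ^ n • d k ∉ U).card : ℝ)
      ≤ m + cnt := by
    have h9 := (Finset.card_le_card hsub).trans (Finset.card_union_le _ _)
    rw [Finset.card_range] at h9
    exact_mod_cast h9
  linarith

end

end Pool.Agent.LYD
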