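import Pool.Agent.LYD.Basic

set_option autoImplicit false

/-!
# LYD-A4: the square sum over the differences
-/

open MeasureTheory Filter Topology
open Pool.Agent.LYN
open scoped Classical

namespace Pool.Agent.LYD

noncomputable section

namespace A4_

/-- a divisor of a power of `Q i` is coprime to `q ^ h - 1` -/
lemma cop {q Qi D m h : ℕ} (hD : D ∣ Qi ^ m) (hQ : Qi ∣ q) (hh : 1 ≤ h) :
    IsCoprime (D : ℤ) ((q : ℤ) ^ h - 1) := by
  have h1 : IsCoprime ((q : ℤ) ^ h) ((q : ℤ) ^ h - 1) := ⟨1, -1, by ring⟩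
  have h2 : IsCoprime (Qi : ℤ) ((q : ℤ) ^ h - 1) := by
    refine h1.of_isCoprime_of_dvd_left ?_
    exact (Int.natCast_dvd_natCast.2 hQ).trans (dvd_pow_self _ (by omega))
  refine (h2.pow_left (m := m)).of_isCoprime_of_dvd_left ?_
  exact_mod_cast hD

/-- the sum grouped by the values -/
lemma group (I : Finset ℕ) (D : ℕ) (σ : ℕ → ℕ) (hσ : ∀ n ∈ I, σ n < D) (G : ℕ → ℝ)
    (hG : ∀ s, 0 ≤ G s) (A B : ℝ) (hD : 0 < D)
    (hcnt : ∀ s < D, (D : ℝ) * (I.filter fun n => σ n = s).card ≤ A)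
    (hsum : ∑ s ∈ Finset.range D, G s ≤ D * B) (hA : 0 ≤ A) : ∑ n ∈ I, G (σ n) ≤ A * B := by
  have h1 : ∑ n ∈ I, G (σ n) =
      ∑ s ∈ Finset.range D, ((I.filter fun n => σ n = s).card : ℝ) * G s := by
    rw [← Finset.sum_fiberwise_of_maps_to (s := I) (t := Finset.range D) (g := σ)
      (fun n hn => Finset.mem_range.2 (hσ n hn))]
    refine Finset.sum_congr rfl fun s _ => ?_
    rw [← nsmul_eq_mul, ← Finset.sum_const]
    refine Finset.sum_congr rfl fun n hn => ?_
    rw [(Finset.mem_filter.1 hn).2]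
  have hD' : (0 : ℝ) < D := by exact_mod_cast hD
  have h2 : (D : ℝ) * ∑ n ∈ I, G (σ n) ≤ D * (A * B) := by
    rw [h1, Finset.mul_sum]
    calc ∑ s ∈ Finset.range D, (D : ℝ) * (((I.filter fun n => σ n = s).card : ℝ) * G s)
        ≤ ∑ s ∈ Finset.range D, A * G s := by
          refine Finset.sum_le_sum fun s hs => ?_
          rw [← mul_assoc]
          exact mul_le_mul_of_nonneg_right (hcnt s (Finset.mem_range.1 hs)) (hG s)
      _ = A * ∑ s ∈ Finset.range D, G s := by rw [Finset.mul_sum]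
      _ ≤ A * (D * B) := mul_le_mul_of_nonneg_left hsum hA
      _ = D * (A * B) := by ring
  exact le_of_mul_le_mul_left h2 hD'

end A4_

theorem p_A4 (h_MLT : T_MLT) (h_ORT : T_ORT) (h_NDV : T_NDV) : T_A4 := by
  intro p q g Q P hDat i hi
  obtain ⟨C, hC, hM⟩ := h_MLT p q g Q P hDat i hi
  refine ⟨C, hC, fun d m k0 hcoh hk0 hd a K ha hK x N hx => ?_⟩
  obtain ⟨D, hD1, hDQ, hord, hcnt⟩ := hM d m hcoh fun n hn => (hd n hn).1
  have hq : q = Q i * co Q g i := hDat.q_eq hi
  have hQ1 := hDat.Q_pos hi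
  -- the differences of the frequencies are not divisible by `D`
  have hnd : ∀ j j' : ℕ, j < j' → j' < K → ¬ (D : ℤ) ∣ a * (q : ℤ) ^ j' - a * (q : ℤ) ^ j := by
    intro j j' hjj hj' hdiv
    have e1 : a * (q : ℤ) ^ j' - a * (q : ℤ) ^ j =
        (a * (q : ℤ) ^ j) * ((q : ℤ) ^ (j' - j) - 1) := by
      have : (q : ℤ) ^ j' = (q : ℤ) ^ j * (q : ℤ) ^ (j' - j) := by
        rw [← pow_add]; congr 1; omega
      rw [this]; ring
    rw [e1] at hdiv
    have h1 : (D : ℤ) ∣ a * (q : ℤ) ^ j :=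
      (A4_.cop hDQ (hDat.Q_dvd hi) (by omega : 1 ≤ j' - j)).dvd_of_dvd_mul_right hdiv
    have h2 : (D : ℤ) ∣ a * ((Q i : ℤ) * (co Q g i : ℤ)) ^ j := by
      have : ((Q i : ℤ) * (co Q g i : ℤ)) = (q : ℤ) := by rw [hq]; push_cast; rfl
      rw [this]; exact h1
    have h3 := h_NDV (Q i) (co Q g i) j D m a hQ1 ha (hDat.co_cop hi) hDQ h2
    have h4 : D ∣ Q i ^ (m - k0) := h3.trans (pow_dvd_pow _ (by omega))
    have h5 := (hd m le_rfl).2
    apply h5
    rw [← addOrderOf_dvd_iff_nsmul_eq_zero, hord m le_rfl]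
    exact h4
  -- the values
  have hval : ∀ n, m ≤ n → ∃ s < D, p ^ n • d (i * n + m) = (((s : ℝ) / D : ℝ) : Ci) := by
    intro n hn
    have h1 : D • (p ^ n • d (i * n + m)) = 0 := by
      rw [← hord n hn]; exact addOrderOf_nsmul_eq_zero _
    obtain ⟨s, hs, he⟩ := (AddCircle.nsmul_eq_zero_iff (p := (1 : ℝ)) hD1).1 h1
    exact ⟨s, hs, by rw [← he, mul_one]⟩
  let σ : ℕ → ℕ := fun n => if h : m ≤ n then (hval n h).choose else 0
  have hσ1 : ∀ n, m ≤ n → σ n < D := fun n hn => by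
    simp only [σ, dif_pos hn]; exact (hval n hn).choose_spec.1
  have hσ2 : ∀ n, m ≤ n → p ^ n • d (i * n + m) = (((σ n : ℝ) / D : ℝ) : Ci) := fun n hn => by
    have := (hval n hn).choose_spec.2
    simpa only [σ, dif_pos hn] using this
  let G : ℕ → ℝ := fun s => ‖∑ j ∈ Finset.range K, ee (((a * (q : ℤ) ^ j : ℤ) : ℝ) * s / D)‖ ^ 2
  have hI : ∀ n ∈ Finset.Ico x (x + N), m ≤ n := fun n hn => hx.trans (Finset.mem_Ico.1 hn).1
  have hterm : ∀ n ∈ Finset.Ico x (x + N), ‖∑ j ∈ Finset.range K,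
      (fourier a : C(UnitAddCircle, ℂ)) (q ^ j • p ^ n • d (i * n + m))‖ ^ 2 = G (σ n) := by
    intro n hn
    simp only [G]
    congr 2
    refine Finset.sum_congr rfl fun j _ => ?_
    rw [hσ2 n (hI n hn)]
    have e1 : q ^ j • (((σ n : ℝ) / D : ℝ) : Ci) = (((q : ℝ) ^ j * ((σ n : ℝ) / D) : ℝ) : Ci) := by
      rw [← AddCircle.coe_nsmul]
      congr 1
      rw [nsmul_eq_mul]
      push_cast
      rfl
    rw [e1]
    have e2 := fourier_coe a ((q : ℝ) ^ j * ((σ n : ℝ) / D))
    refine e2.trans ?_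
    congr 1
    push_cast
    ring
  rw [Finset.sum_congr rfl hterm]
  have hORT := h_ORT D (Finset.range K) (fun _ => 1) (fun j => a * (q : ℤ) ^ j) 1 hD1
    (fun n _ => by simp) (by
      intro n hn
      rw [Finset.card_le_one]
      have key : ∀ n' ∈ (Finset.range K).filter (fun n' =>
          (D : ℤ) ∣ a * (q : ℤ) ^ n - a * (q : ℤ) ^ n'), n' = n := by
        intro n' hn'
        rw [Finset.mem_filter, Finset.mem_range] at hn'
        rw [Finset.mem_range] at hn
        rcases lt_trichotomy n' n with h | h | h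
        · exact absurd hn'.2 (hnd n' n h hn)
        · exact h
        · refine absurd ?_ (hnd n n' h hn'.1)
          have := hn'.2
          rw [← dvd_neg, neg_sub] at this
          exact this
      intro u hu v hv
      rw [key u hu, key v hv])
  have hDle : (D : ℝ) ≤ (Q i : ℝ) ^ m := by
    have : D ≤ Q i ^ m := Nat.le_of_dvd (pow_pos (by omega) m) hDQ
    exact_mod_cast this
  have hmain := A4_.group (Finset.Ico x (x + N)) D σ (fun n hn => hσ1 n (hI n hn)) G
    (fun s => by positivity) ((C : ℝ) * N + D) K (by omega) (by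
      intro s _
      have h1 := hcnt x N hx ((((s : ℝ) / D : ℝ) : Ci))
      have h2 : ((Finset.Ico x (x + N)).filter fun n => σ n = s).card ≤
          ((Finset.Ico x (x + N)).filter fun n =>
            p ^ n • d (i * n + m) = (((s : ℝ) / D : ℝ) : Ci)).card := by
        refine Finset.card_le_card fun n hn => ?_
        rw [Finset.mem_filter] at hn ⊢
        refine ⟨hn.1, ?_⟩
        rw [hσ2 n (hI n hn.1), hn.2]
      have h3 : D * ((Finset.Ico x (x + N)).filter fun n => σ n = s).card ≤ C * N + D :=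
        (Nat.mul_le_mul_left D h2).trans h1
      exact_mod_cast h3) (by
      refine le_trans (le_of_eq ?_) (hORT.trans (le_of_eq ?_))
      · refine Finset.sum_congr rfl fun s _ => ?_
        simp only [G, one_mul]
      · rw [Finset.card_range]; push_cast; ring) (by positivity)
  refine hmain.trans ?_
  exact mul_le_mul_of_nonneg_right (by linarith) (by positivity)

end

end Pool.Agent.LYD
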