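import Pool.Agent.LYD.Basic

set_option autoImplicit false

open MeasureTheory Filter Topology
open Pool.Agent.LYN
open scoped Classical

namespace Pool.Agent.LYD

noncomputable section

/-- integral of a character -/
lemma BMP_int (n : ℤ) :
    ∫ x : UnitAddCircle, (fourier n : C(UnitAddCircle, ℂ)) x ∂AddCircle.haarAddCircle =
      if n = 0 then 1 else 0 := by
  have h := congrFun (fourierCoeff_fourier (T := 1) n) 0
  unfold fourierCoeff at h
  simp only [neg_zero, fourier_zero, one_smul] at h
  rw [h]
  by_cases hn : n = 0
  · rw [if_pos hn, hn, Pi.single_eq_same]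
  · rw [if_neg hn, Pi.single_eq_of_ne (Ne.symm hn)]

lemma BMP_mean (s : Finset ℤ) (c : ℤ → ℂ) (hs : (0 : ℤ) ∈ s) :
    ∫ x : UnitAddCircle, (∑ a ∈ s, c a * (fourier a : C(UnitAddCircle, ℂ)) x)
      ∂AddCircle.haarAddCircle = c 0 := by
  rw [integral_finsetSum]
  · have h : ∀ a ∈ s, ∫ x : UnitAddCircle, c a * (fourier a : C(UnitAddCircle, ℂ)) x
        ∂AddCircle.haarAddCircle = if a = 0 then c a else 0 := by
      intro a _
      rw [integral_const_mul, BMP_int]
      split_ifs <;> simp
    rw [Finset.sum_congr rfl h, Finset.sum_ite_eq' s 0 c, if_pos hs]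
  · intro a _
    exact (Continuous.integrable_of_hasCompactSupport (by fun_prop)
      (HasCompactSupport.of_compactSpace _))

theorem p_BMP : T_BMP := by
  intro U hU hne
  by_cases hc : (Uᶜ : Set Ci).Nonempty
  · obtain ⟨x0, hx0⟩ := hne
    let h : Ci → ℝ := fun x => Metric.infDist x Uᶜ
    have hcont : Continuous h := Metric.continuous_infDist_pt _
    have hnn : 0 ≤ h := fun x => Metric.infDist_nonneg
    have hx0' : h x0 ≠ 0 := by
      have h1 := (hU.isClosed_compl.notMem_iff_infDist_pos hc (x := x0)).1 (by simpa using hx0)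
      exact h1.ne'
    have hpos : 0 < ∫ x, h x ∂AddCircle.haarAddCircle :=
      hcont.integral_pos_of_hasCompactSupport_nonneg_nonzero
        (HasCompactSupport.of_compactSpace _) hnn hx0'
    set β : ℝ := (∫ x, h x ∂AddCircle.haarAddCircle) / 2 with hβ
    have hβ0 : 0 < β := by
      rw [hβ]
      linarith
    let f : C(Ci, ℂ) := ⟨fun x => ((h x - β : ℝ) : ℂ), by fun_prop⟩
    have hf : f ∈ (Submodule.span ℂ (Set.range (fourier (T := 1)))).topologicalClosure := by
      rw [span_fourier_closure_eq_top]
      trivial
    have hf2 : f ∈ closure ((Submodule.span ℂ (Set.range (fourier (T := 1)))) : Set C(Ci, ℂ)) := hf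
    rw [Metric.mem_closure_iff] at hf2
    obtain ⟨G, hG, hfG⟩ := hf2 (β / 2) (by linarith)
    have hG2 : G ∈ Submodule.span ℂ (Set.range (fourier (T := 1))) := hG
    rw [Finsupp.mem_span_range_iff_exists_finsupp] at hG2
    obtain ⟨c, hcG⟩ := hG2
    have hval : ∀ x : Ci, G x = ∑ a ∈ insert 0 c.support, c a * (fourier a : C(UnitAddCircle, ℂ)) x := by
      intro x
      rw [← hcG, Finsupp.sum]
      rw [ContinuousMap.coe_sum, Finset.sum_apply]
      rw [← Finset.sum_subset (Finset.subset_insert 0 c.support)]
      · refine Finset.sum_congr rfl fun a _ => ?_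
        rfl
      · intro a _ ha
        rw [Finsupp.notMem_support_iff.1 ha, zero_mul]
    have hdist : ∀ x : Ci, ‖G x - f x‖ ≤ β / 2 := by
      intro x
      have h1 : ‖(G - f) x‖ ≤ ‖G - f‖ := ContinuousMap.norm_coe_le_norm _ _
      rw [dist_comm, dist_eq_norm] at hfG
      exact h1.trans hfG.le
    have hre : ∀ x : Ci, |(G x).re - (h x - β)| ≤ β / 2 := by
      intro x
      have h1 : (G x).re - (h x - β) = (G x - f x).re := by
        rw [Complex.sub_re]
        rfl
      rw [h1]
      exact (Complex.abs_re_le_norm _).trans (hdist x)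
    refine ⟨insert 0 c.support, c, Finset.mem_insert_self _ _, ?_, ?_⟩
    · have h1 := BMP_mean (insert 0 c.support) c (Finset.mem_insert_self _ _)
      have h2 : ∫ x : UnitAddCircle, G x ∂AddCircle.haarAddCircle = c 0 := by
        rw [← h1]
        exact integral_congr_ae (Filter.Eventually.of_forall hval)
      have hGi : Integrable (fun x : UnitAddCircle => G x) AddCircle.haarAddCircle :=
        (map_continuous G).integrable_of_hasCompactSupport (HasCompactSupport.of_compactSpace _)
      have h3 : (c 0).re = ∫ x : UnitAddCircle, (G x).re ∂AddCircle.haarAddCircle := by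
        rw [← h2]
        exact (integral_re hGi).symm
      have hhi : Integrable h (AddCircle.haarAddCircle : Measure UnitAddCircle) :=
        hcont.integrable_of_hasCompactSupport (HasCompactSupport.of_compactSpace _)
      have h4 : ∫ x : UnitAddCircle, (h x - (β + β / 2)) ∂AddCircle.haarAddCircle ≤
          ∫ x : UnitAddCircle, (G x).re ∂AddCircle.haarAddCircle := by
        refine integral_mono (hhi.sub (integrable_const _)) hGi.re ?_
        intro x
        have := (abs_le.1 (hre x)).1
        change h x - (β + β / 2) ≤ (G x).re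
        linarith
      rw [integral_sub hhi (integrable_const _), integral_const] at h4
      simp only [probReal_univ, smul_eq_mul, one_mul] at h4
      rw [h3]
      linarith
    · intro x hx
      rw [← hval x]
      have h1 : h x = 0 := Metric.infDist_zero_of_mem hx
      have h2 := (abs_le.1 (hre x)).2
      rw [h1] at h2
      linarith
  · rw [Set.not_nonempty_iff_eq_empty, Set.compl_empty_iff] at hc
    refine ⟨{0}, fun _ => 1, Finset.mem_singleton_self _, by simp, ?_⟩
    intro x hx
    exact absurd (hc ▸ Set.mem_univ x) hx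

end

end Pool.Agent.LYD
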