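import Pool.Agent.LYD.Basic

set_option autoImplicit false

/-!
# LYD: the chain of refinements (target `T_CHN`)
-/

open MeasureTheory Filter Topology
open Pool.Agent.LYN
open scoped Classical

namespace Pool.Agent.LYD

noncomputable section

namespace CHN_

/-- congruence modulo `q ^ (r + k)` from the pasts -/
lemma mod_eq {q r k u u' : ℕ} (h1 : u' % q ^ r = u % q ^ r)
    (h2 : (q : ℤ) ^ k ∣ dif q r u u') : u' % q ^ (r + k) = u % q ^ (r + k) := by
  have h3 : (u' / q ^ r) % q ^ k = (u / q ^ r) % q ^ k := by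
    have h4 : (((q ^ k : ℕ) : ℤ)) ∣ ((u / q ^ r : ℕ) : ℤ) - ((u' / q ^ r : ℕ) : ℤ) := by
      rw [Nat.cast_pow]
      exact h2
    exact (Nat.modEq_iff_dvd (n := q ^ k) (a := u' / q ^ r) (b := u / q ^ r)).2 h4
  rw [pow_add, Nat.mod_mul, Nat.mod_mul, h1, h3]

lemma last {p q g : ℕ} {Q P : ℕ → ℕ} (D : Dat p q g Q P) (k r u u' : ℕ)
    (h : rel Q q r k g u u') : u' % q ^ (r + k) = u % q ^ (r + k) := by
  obtain ⟨h1, h2⟩ := h
  refine mod_eq h1 ?_
  have h3 : (∏ l ∈ Finset.range g, Q l) ^ k ∣ (dif q r u u').natAbs := by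
    refine D.prod_dvd (fun l hl => Finset.mem_range.1 hl) k _ fun l hl => ?_
    have h4 := h2 l (Finset.mem_range.1 hl)
    have h5 := Int.natAbs_dvd_natAbs.2 h4
    rwa [Int.natAbs_pow, Int.natAbs_natCast] at h5
  rw [← D.prod] at h3
  have h6 := Int.natCast_dvd.2 h3
  rwa [Nat.cast_pow] at h6

end CHN_

open CHN_

theorem p_CHN : T_CHN := by
  intro p q g Q P D k r u η S hη hu hle
  by_contra hcon
  push Not at hcon
  set c : ℕ → ℝ := fun i => ((S.filter fun u' => rel Q q r (sc g q k (g - i)) i u u').card : ℝ)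
    with hc
  have h0 : c 0 = ncl q S r u := by
    simp only [hc, ncl]
    congr 2
    ext u'
    simp only [Finset.mem_filter, rel]
    simp
  have hpos : (0 : ℝ) < ncl q S r u := by
    have := ncl_pos (q := q) hu r
    exact_mod_cast this
  have hstep : ∀ i < g, η * c i < c (i + 1) := by
    intro i hi
    refine lt_of_lt_of_le (hcon i hi) ?_
    simp only [hc]
    refine Nat.cast_le.2 (Finset.card_le_card fun u' hu' => ?_)
    rw [Finset.mem_filter] at hu' ⊢
    obtain ⟨hS, ⟨h1, h2⟩, h3⟩ := hu'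
    refine ⟨hS, h1, fun l hl => ?_⟩
    have e : g - (i + 1) = g - 1 - i := by omega
    rw [e]
    rcases Nat.lt_succ_iff_lt_or_eq.1 hl with hl' | hl'
    · refine dvd_trans (pow_dvd_pow _ (sc_mono g q k ?_)) (h2 l hl')
      omega
    · rw [hl']
      exact h3
  have hind : ∀ i, i ≤ g → η ^ i * c 0 ≤ c i ∧ (0 < i → η ^ i * c 0 < c i) := by
    intro i
    induction i with
    | zero => intro _; exact ⟨by simp, fun h => absurd h (lt_irrefl 0)⟩
    | succ i ih =>
      intro hi
      have h1 := (ih (by omega)).1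
      have h2 := hstep i (by omega)
      have h3 : η ^ (i + 1) * c 0 < c (i + 1) := by
        have h4 : η ^ (i + 1) * c 0 = η * (η ^ i * c 0) := by ring
        rw [h4]
        exact lt_of_le_of_lt (mul_le_mul_of_nonneg_left h1 hη.le) h2
      exact ⟨h3.le, fun _ => h3⟩
  have hg := (hind g le_rfl).2 D.g_pos
  have hlast : c g ≤ ncl q S (r + k) u := by
    simp only [hc, ncl]
    refine Nat.cast_le.2 (Finset.card_le_card fun u' hu' => ?_)
    rw [Finset.mem_filter] at hu' ⊢
    refine ⟨hu'.1, ?_⟩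
    have h1 := hu'.2
    rw [Nat.sub_self] at h1
    exact last D k r u u' h1
  rw [h0] at hg
  linarith

end

end Pool.Agent.LYD
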