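import Pool.Agent.LYD.Basic

set_option autoImplicit false

/-!
# LYD-CLS: exponential sums over a class
-/

open MeasureTheory Filter Topology
open Pool.Agent.LYN
open scoped Classical

namespace Pool.Agent.LYD

noncomputable section

namespace CLS_

/-- the number of `n'` with the same phase -/
lemma count (h_SPC : T_SPC) {Qi Pi W i m N C0 : ℕ} {a : ℤ} (ha : a ≠ 0)
    (hPQ : Nat.Coprime Pi Qi) (hN : Qi ^ m ≤ N)
    (hC0 : ∀ (a : ℤ) (D k h : ℕ), a ≠ 0 → 1 ≤ h → D ∣ Qi ^ k →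
      (D : ℤ) ∣ a * ((Pi : ℤ) ^ h - ((W ^ i : ℕ) : ℤ) ^ h) → D ≤ C0 * a.natAbs * h)
    (c : ℕ → ℤ) (hc : ∀ n, m ≤ n → (Qi : ℤ) ^ m ∣ c n * (W : ℤ) ^ (i * n + m) - (Pi : ℤ) ^ n)
    (n : ℕ) :
    Qi ^ m * ((Finset.Ico m N).filter fun n' => ((Qi ^ m : ℕ) : ℤ) ∣ a * c n - a * c n').card ≤
      (C0 * a.natAbs + 1) * N := by
  have h := h_SPC ((Finset.Ico m N).filter fun n' => ((Qi ^ m : ℕ) : ℤ) ∣ a * c n - a * c n')
    m (N - m) (Qi ^ m) (C0 * a.natAbs) ?_ ?_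
  · calc Qi ^ m * ((Finset.Ico m N).filter fun n' => ((Qi ^ m : ℕ) : ℤ) ∣ a * c n - a * c n').card
        ≤ C0 * a.natAbs * (N - m) + Qi ^ m := h
      _ ≤ C0 * a.natAbs * N + N := by
          have : N - m ≤ N := Nat.sub_le _ _
          gcongr
      _ = (C0 * a.natAbs + 1) * N := by ring
  · intro n' hn'
    rw [Finset.mem_filter, Finset.mem_Ico] at hn'
    omega
  · intro n1 hn1 n2 hn2 hlt
    rw [Finset.mem_filter, Finset.mem_Ico] at hn1 hn2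
    obtain ⟨h, rfl⟩ := Nat.exists_eq_add_of_lt hlt
    have hsub : n1 + h + 1 - n1 = h + 1 := by omega
    rw [hsub]
    refine hC0 a (Qi ^ m) m (h + 1) ha (by omega) (dvd_refl _) ?_
    have hcop : IsCoprime (((Qi ^ m : ℕ) : ℤ)) ((Pi : ℤ) ^ n1) := by
      have := Nat.Coprime.isCoprime (Nat.Coprime.pow m n1 hPQ.symm)
      push_cast at this ⊢
      exact this
    refine hcop.dvd_of_dvd_mul_left ?_
    obtain ⟨x1, hx1⟩ := hc n1 hn1.1.1
    obtain ⟨x2, hx2⟩ := hc (n1 + h + 1) hn2.1.1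
    obtain ⟨y1, hy1⟩ := hn1.2
    obtain ⟨y2, hy2⟩ := hn2.2
    push_cast at hy1 hy2 ⊢
    have e1 : (Pi : ℤ) ^ (n1 + h + 1) = (Pi : ℤ) ^ n1 * (Pi : ℤ) ^ (h + 1) := by
      rw [← pow_add, add_assoc]
    have e2 : (W : ℤ) ^ (i * (n1 + h + 1) + m) =
        (W : ℤ) ^ (i * n1 + m) * ((W : ℤ) ^ i) ^ (h + 1) := by
      rw [← pow_mul, ← pow_add]
      congr 1
      ring
    rw [e1, e2] at hx2
    refine ⟨a * x1 * ((W : ℤ) ^ i) ^ (h + 1) - a * x2 -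
      (y2 - y1) * (W : ℤ) ^ (i * n1 + m) * ((W : ℤ) ^ i) ^ (h + 1), ?_⟩
    linear_combination (-a) * hx2 + a * ((W : ℤ) ^ i) ^ (h + 1) * hx1 -
      ((W : ℤ) ^ (i * n1 + m) * ((W : ℤ) ^ i) ^ (h + 1)) * (hy2 - hy1)

/-- sums over a set mapped to `range D` with few elements in every fibre -/
lemma fib (F : Finset ℕ) (D : ℕ) (σ : ℕ → ℕ) (G : ℕ → ℝ) (K : ℝ) (hσ : ∀ u ∈ F, σ u < D)
    (hG : ∀ x, 0 ≤ G x) (hK : 0 ≤ K)
    (hF : ∀ u1 ∈ F, ((F.filter fun u => σ u = σ u1).card : ℝ) ≤ K) :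
    ∑ u ∈ F, G (σ u) ≤ K * ∑ x ∈ Finset.range D, G x := by
  rw [← Finset.sum_fiberwise_of_maps_to (s := F) (t := Finset.range D) (g := σ)
    (fun u hu => Finset.mem_range.2 (hσ u hu)), Finset.mul_sum]
  refine Finset.sum_le_sum fun x _ => ?_
  have h1 : ∑ u ∈ F.filter (fun u => σ u = x), G (σ u) =
      ((F.filter fun u => σ u = x).card : ℝ) * G x := by
    rw [← nsmul_eq_mul, ← Finset.sum_const]
    refine Finset.sum_congr rfl fun u hu => ?_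
    rw [(Finset.mem_filter.1 hu).2]
  rw [h1]
  rcases Finset.eq_empty_or_nonempty (F.filter fun u => σ u = x) with h | ⟨u1, hu1⟩
  · rw [h, Finset.card_empty, Nat.cast_zero, zero_mul]
    exact mul_nonneg hK (hG x)
  · rw [Finset.mem_filter] at hu1
    have := hF u1 hu1.1
    rw [hu1.2] at this
    exact mul_le_mul_of_nonneg_right this (hG x)

/-- `ee (b z / D)` depends only on `z` modulo `D` -/
lemma ee_mod (b z : ℤ) (D : ℕ) (hD : 1 ≤ D) :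
    ee ((b : ℝ) * z / D) = ee ((b : ℝ) * ((z % (D : ℤ)).toNat : ℕ) / D) := by
  have hD' : (D : ℝ) ≠ 0 := by positivity
  have h0 : 0 ≤ z % (D : ℤ) := Int.emod_nonneg _ (by exact_mod_cast (by omega : D ≠ 0))
  have h1 : (((z % (D : ℤ)).toNat : ℕ) : ℝ) = ((z % (D : ℤ) : ℤ) : ℝ) := by
    rw [← Int.cast_natCast, Int.toNat_of_nonneg h0]
  have h2 : (z : ℝ) = ((z % (D : ℤ) : ℤ) : ℝ) + D * ((z / (D : ℤ) : ℤ) : ℝ) := by
    have := Int.emod_add_mul_ediv z (D : ℤ)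
    exact_mod_cast this.symm
  rw [h1, ← ee_add_int ((b : ℝ) * ((z % (D : ℤ) : ℤ) : ℝ) / D) (b * (z / (D : ℤ)))]
  congr 1
  rw [h2]
  push_cast
  field_simp

end CLS_

/-- LYD-CLS -/
theorem p_CLS (h_PHS : T_PHS) (h_ORT : T_ORT) (h_LTE : T_LTE) (h_SPC : T_SPC) : T_CLS := by
  intro p q g Q P hD i hi a ha
  have hcopW : Nat.Coprime (co Q g i ^ i) (Q i) := Nat.Coprime.pow_left _ (hD.co_cop hi)
  obtain ⟨C0, hC0, hLTE⟩ := h_LTE (Q i) (P i) (co Q g i ^ i) (hD.Q_pos hi) (hD.P_pos hi)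
    (Nat.one_le_pow _ _ (hD.co_pos hi)) (hD.ne hi) (hD.copP i hi) hcopW
  refine ⟨C0 * a.natAbs + 1, by omega, ?_⟩
  intro m N hN S s t η hη hS w hw
  rcases Finset.eq_empty_or_nonempty S with rfl | ⟨u0, hu0⟩
  · simp
  set D : ℕ := Q i ^ m with hDdef
  have hDpos : 1 ≤ D := Nat.one_le_pow _ _ (hD.Q_pos hi)
  have hDr : (0 : ℝ) < D := by exact_mod_cast hDpos
  have hq : (0 : ℝ) < q := by have := hD.hq; positivity
  -- the numbers `c n`
  have hch : ∀ n : ℕ, ∃ c : ℤ, m ≤ n →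
      (((Q i : ℤ) ^ m ∣ c * (co Q g i : ℤ) ^ (i * n + m) - (P i : ℤ) ^ n) ∧
      ∀ Δ : ℤ, (∀ l < i, (Q l : ℤ) ^ (i * n + m) ∣ Δ) →
        ∃ z : ℤ, (p : ℝ) ^ n * Δ / (q : ℝ) ^ (i * n + m) = (c : ℝ) * Δ / (Q i : ℝ) ^ m + z) := by
    intro n
    by_cases h : m ≤ n
    · obtain ⟨c, hc⟩ := h_PHS p q g Q P hD i hi m n h
      exact ⟨c, fun _ => hc⟩
    · exact ⟨0, fun h' => absurd h' h⟩
  choose c hc using hch
  set β : ℕ → ℂ := fun n => ee ((a : ℝ) * (p : ℝ) ^ n * (t + s u0) / (q : ℝ) ^ (i * n + m)) with hβ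
  set σ : ℕ → ℕ := fun u => ((s u - s u0) % (D : ℤ)).toNat with hσdef
  set G : ℕ → ℝ := fun x => ‖∑ n ∈ Finset.Ico m N, ((w n : ℂ) * β n) *
    ee (((a * c n : ℤ) : ℝ) * x / D)‖ ^ 2 with hG
  have hσlt : ∀ u, σ u < D := by
    intro u
    have h0 : 0 ≤ (s u - s u0) % (D : ℤ) :=
      Int.emod_nonneg _ (by exact_mod_cast (by omega : D ≠ 0))
    have h1 : (s u - s u0) % (D : ℤ) < D := Int.emod_lt_of_pos _ (by exact_mod_cast hDpos)
    show ((s u - s u0) % (D : ℤ)).toNat < D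
    omega
  -- every term depends only on `σ u`
  have hterm : ∀ u ∈ S, ‖∑ n ∈ Finset.Ico m N, (w n : ℂ) *
      ee ((a : ℝ) * (p : ℝ) ^ n * (t + s u) / (q : ℝ) ^ (i * n + m))‖ ^ 2 = G (σ u) := by
    intro u hu
    show _ = ‖_‖ ^ 2
    congr 2
    refine Finset.sum_congr rfl fun n hn => ?_
    rw [Finset.mem_Ico] at hn
    rw [mul_assoc (w n : ℂ) (β n)]
    congr 1
    show _ = ee ((a : ℝ) * (p : ℝ) ^ n * (t + s u0) / (q : ℝ) ^ (i * n + m)) * _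
    obtain ⟨z, hz⟩ := (hc n hn.1).2 (s u - s u0) fun l hl =>
      (pow_dvd_pow _ (by nlinarith [Nat.mul_le_mul_left i hn.2.le])).trans (hS u hu u0 hu0 l hl)
    have h1 : (a : ℝ) * (p : ℝ) ^ n * (t + s u) / (q : ℝ) ^ (i * n + m) =
        (a : ℝ) * (p : ℝ) ^ n * (t + s u0) / (q : ℝ) ^ (i * n + m) +
          ((((a * c n : ℤ) : ℝ) * ((s u - s u0 : ℤ) : ℝ) / D) + ((a * z : ℤ) : ℝ)) := by
      have h2 : (a : ℝ) * (p : ℝ) ^ n * (t + s u) / (q : ℝ) ^ (i * n + m) =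
          (a : ℝ) * (p : ℝ) ^ n * (t + s u0) / (q : ℝ) ^ (i * n + m) +
            a * ((p : ℝ) ^ n * ((s u - s u0 : ℤ) : ℝ) / (q : ℝ) ^ (i * n + m)) := by
        push_cast
        ring
      rw [h2, hz, hDdef]
      push_cast
      ring
    rw [h1, ee_add, ee_add_int, CLS_.ee_mod _ _ _ hDpos]
  -- the fibres are small
  set F := S.filter (fun u => ((S.filter fun u' => (Q i : ℤ) ^ m ∣ s u - s u').card : ℝ) ≤
    η * S.card) with hF
  have hfib : ∀ u1 ∈ F, ((F.filter fun u => σ u = σ u1).card : ℝ) ≤ η * S.card := by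
    intro u1 hu1
    rw [hF, Finset.mem_filter] at hu1
    refine le_trans ?_ hu1.2
    rw [Nat.cast_le]
    refine Finset.card_le_card fun u hu => ?_
    rw [Finset.mem_filter] at hu ⊢
    refine ⟨(Finset.mem_filter.1 (hF ▸ hu.1)).1, ?_⟩
    have h1 : ((s u - s u0) % (D : ℤ)).toNat = ((s u1 - s u0) % (D : ℤ)).toNat := hu.2
    have h0 : ∀ z : ℤ, 0 ≤ z % (D : ℤ) := fun z =>
      Int.emod_nonneg _ (by exact_mod_cast (by omega : D ≠ 0))
    have h2 : (s u - s u0) % (D : ℤ) = (s u1 - s u0) % (D : ℤ) := by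
      have h3 := h0 (s u - s u0)
      have h4 := h0 (s u1 - s u0)
      omega
    have h5 : (D : ℤ) ∣ (s u1 - s u0) - (s u - s u0) := Int.ModEq.dvd h2
    have h6 : (s u1 - s u0) - (s u - s u0) = s u1 - s u := by ring
    rw [h6, hDdef] at h5
    push_cast at h5
    exact h5
  have hsum : ∑ u ∈ F, ‖∑ n ∈ Finset.Ico m N, (w n : ℂ) *
      ee ((a : ℝ) * (p : ℝ) ^ n * (t + s u) / (q : ℝ) ^ (i * n + m))‖ ^ 2 = ∑ u ∈ F, G (σ u) :=
    Finset.sum_congr rfl fun u hu => hterm u (Finset.mem_filter.1 (hF ▸ hu)).1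
  have hηS : 0 ≤ η * S.card := by positivity
  rw [hsum]
  refine (CLS_.fib F D σ G (η * S.card) (fun u _ => hσlt u) (fun x => by positivity) hηS
    hfib).trans ?_
  -- orthogonality
  have hort := h_ORT D (Finset.Ico m N) (fun n => (w n : ℂ) * β n) (fun n => a * c n)
    ((C0 * a.natAbs + 1) * N / D) hDpos ?_ ?_
  · have h1 : ∑ x ∈ Finset.range D, G x ≤
        (D : ℝ) * (Finset.Ico m N).card * ((C0 * a.natAbs + 1) * N / D : ℕ) := hort
    have h2 : ((Finset.Ico m N).card : ℝ) ≤ N := by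
      rw [Nat.card_Ico, Nat.cast_le]
      exact Nat.sub_le _ _
    have h3 : (((C0 * a.natAbs + 1) * N / D : ℕ) : ℝ) ≤ ((C0 * a.natAbs + 1 : ℕ) : ℝ) * N / D := by
      have := @Nat.cast_div_le ℝ _ _ _ ((C0 * a.natAbs + 1) * N) D
      push_cast at this ⊢
      exact this
    have h4 : ∑ x ∈ Finset.range D, G x ≤ ((C0 * a.natAbs + 1 : ℕ) : ℝ) * (N : ℝ) ^ 2 := by
      calc ∑ x ∈ Finset.range D, G x
          ≤ (D : ℝ) * (Finset.Ico m N).card * ((C0 * a.natAbs + 1) * N / D : ℕ) := h1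
        _ ≤ (D : ℝ) * N * (((C0 * a.natAbs + 1 : ℕ) : ℝ) * N / D) := by gcongr
        _ = ((C0 * a.natAbs + 1 : ℕ) : ℝ) * (N : ℝ) ^ 2 := by field_simp
    calc η * S.card * ∑ x ∈ Finset.range D, G x
        ≤ η * S.card * (((C0 * a.natAbs + 1 : ℕ) : ℝ) * (N : ℝ) ^ 2) := by gcongr
      _ = η * ((C0 * a.natAbs + 1 : ℕ) : ℝ) * S.card * (N : ℝ) ^ 2 := by ring
  · intro n _
    rw [norm_mul, hβ, norm_ee, mul_one, Complex.norm_real, Real.norm_eq_abs,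
      abs_of_nonneg (hw n).1]
    exact (hw n).2
  · intro n _
    rw [Nat.le_div_iff_mul_le hDpos, mul_comm]
    exact CLS_.count h_SPC ha (hD.copP i hi) hN hLTE c (fun n hn => (hc n hn).1) n

end

end Pool.Agent.LYD
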