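import Pool.Agent.LYD.Basic

set_option autoImplicit false

/-!
# LYD-CNT: many splitting pairs (helper48)
-/

open MeasureTheory Filter Topology
open Pool.Agent.LYN
open scoped Classical

namespace Pool.Agent.LYD

noncomputable section

namespace CNT_

/-- double counting -/
lemma swap (S T : Finset ℕ) (G : ℕ → ℕ → Prop) :
    ∑ b ∈ T, ((S.filter fun u => G b u).card : ℝ) =
      ∑ u ∈ S, ((T.filter fun b => G b u).card : ℝ) := by
  simp only [Finset.card_filter]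
  push_cast
  exact Finset.sum_comm

lemma lower (S T : Finset ℕ) (G : ℕ → ℕ → Prop) (B : ℕ) :
    ((S.card : ℝ) - (S.filter fun u => (T.filter fun b => G b u).card < B).card) * B ≤
      ∑ u ∈ S, ((T.filter fun b => G b u).card : ℝ) := by
  have h1 : ((S.card : ℝ) - (S.filter fun u => (T.filter fun b => G b u).card < B).card) * B =
      ∑ u ∈ S, (if (T.filter fun b => G b u).card < B then (0 : ℝ) else B) := by
    rw [← Finset.sum_filter_add_sum_filter_not S (fun u => (T.filter fun b => G b u).card < B)]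
    rw [Finset.sum_congr rfl (g := fun _ => (0 : ℝ)) (fun u hu => if_pos (Finset.mem_filter.1 hu).2),
      Finset.sum_congr rfl (g := fun _ => (B : ℝ)) (fun u hu => if_neg (Finset.mem_filter.1 hu).2)]
    rw [Finset.sum_const_zero, Finset.sum_const, zero_add, nsmul_eq_mul]
    have h2 := Finset.card_filter_add_card_filter_not
      (s := S) (fun u => (T.filter fun b => G b u).card < B)
    have h3 : (S.card : ℝ) = (S.filter fun u => (T.filter fun b => G b u).card < B).card +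
        (S.filter fun u => ¬ (T.filter fun b => G b u).card < B).card := by
      exact_mod_cast h2.symm
    rw [h3]
    ring
  rw [h1]
  refine Finset.sum_le_sum fun u _ => ?_
  split_ifs with h
  · exact Nat.cast_nonneg _
  · exact_mod_cast not_lt.1 h

end CNT_

open CNT_ in
theorem p_CNT (h_TEL : T_TEL) : T_CNT := by
  intro q k θ hq hθ hθ1 hqk L J
  obtain ⟨B0, hB0⟩ := pow_unbounded_of_one_lt (8 * (q : ℝ) ^ (L + J)) (by norm_num : (1 : ℝ) < 4)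
  refine ⟨B0 + 1, by omega, ?_⟩
  set B := B0 + 1 with hBdef
  have hB : 8 * (q : ℝ) ^ (L + J) ≤ 4 ^ B :=
    hB0.le.trans (pow_le_pow_right₀ (by norm_num) (by omega))
  intro S hS hcard
  have hq0 : (0 : ℝ) < q := by
    have : 0 < q := by omega
    exact_mod_cast this
  have htel := h_TEL q k L J B S θ hq hθ hθ1 hS
  set X : ℝ := ((S.filter fun u => ((Finset.range (4 * B)).filter fun b =>
      (ncl q S (L + k * (b + 1)) u : ℝ) ≤ θ * ncl q S (L + k * b) u).card < B).card : ℝ) with hX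
  have hX0 : 0 ≤ X := Nat.cast_nonneg _
  have hcard' : (q : ℝ) ^ (L + k * (4 * B) + J) ≤ 2 * (S.card : ℝ) ^ 2 := by exact_mod_cast hcard
  -- square of the bound on `X`
  have h1 : X ^ 2 * ((θ ^ (4 * B)) ^ 2 * ((1 / (q : ℝ) ^ k) ^ B) ^ 2) ≤
      (2 ^ (4 * B)) ^ 2 * ((q : ℝ) ^ (L + J)) ^ 2 := by
    have h0 : 0 ≤ X * (θ ^ (4 * B) * (1 / (q : ℝ) ^ k) ^ B) := by positivity
    calc X ^ 2 * ((θ ^ (4 * B)) ^ 2 * ((1 / (q : ℝ) ^ k) ^ B) ^ 2)
        = (X * (θ ^ (4 * B) * (1 / (q : ℝ) ^ k) ^ B)) ^ 2 := by ring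
      _ ≤ (2 ^ (4 * B) * (q : ℝ) ^ (L + J)) ^ 2 := pow_le_pow_left₀ h0 htel 2
      _ = _ := by ring
  have h2 : (4 : ℝ) ^ B * (2 ^ (4 * B)) ^ 2 ≤ ((q : ℝ) ^ k) ^ (2 * B) * (θ ^ (4 * B)) ^ 2 := by
    have h3 : 2 * (2 : ℝ) ^ 4 ≤ (q : ℝ) ^ k * θ ^ 4 := by
      have := mul_le_mul_of_nonneg_right hqk (pow_nonneg hθ.le 4)
      have h4 : 2 * (2 / θ) ^ 4 * θ ^ 4 = 2 * (2 : ℝ) ^ 4 := by
        field_simp
      rwa [h4] at this
    have h5 := pow_le_pow_left₀ (by positivity) h3 (2 * B)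
    calc (4 : ℝ) ^ B * (2 ^ (4 * B)) ^ 2 = (2 * (2 : ℝ) ^ 4) ^ (2 * B) := by
          have e4 : (4 : ℝ) = 2 ^ 2 := by norm_num
          rw [mul_pow, e4, ← pow_mul, ← pow_mul, ← pow_mul]
          congr 2
          ring
      _ ≤ ((q : ℝ) ^ k * θ ^ 4) ^ (2 * B) := h5
      _ = _ := by rw [mul_pow, ← pow_mul θ, ← pow_mul θ]; ring_nf
  have hX2 : X ^ 2 ≤ (S.card : ℝ) ^ 2 / 4 := by
    have hqk0 : (0 : ℝ) < (q : ℝ) ^ k := by positivity
    have hθB : 0 < (θ ^ (4 * B)) ^ 2 := by positivity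
    -- multiply by `4^B * (q^k)^(2B) * θ^(8B)`
    have h6 : X ^ 2 * (θ ^ (4 * B)) ^ 2 ≤
        (2 ^ (4 * B)) ^ 2 * ((q : ℝ) ^ (L + J)) ^ 2 * ((q : ℝ) ^ k) ^ (2 * B) := by
      have h7 := mul_le_mul_of_nonneg_right h1 (pow_nonneg hqk0.le (2 * B))
      have h8 : ((1 / (q : ℝ) ^ k) ^ B) ^ 2 * ((q : ℝ) ^ k) ^ (2 * B) = 1 := by
        rw [← pow_mul, mul_comm B 2, ← mul_pow, one_div, inv_mul_cancel₀ hqk0.ne', one_pow]
      calc X ^ 2 * (θ ^ (4 * B)) ^ 2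
          = X ^ 2 * ((θ ^ (4 * B)) ^ 2 * (((1 / (q : ℝ) ^ k) ^ B) ^ 2 * ((q : ℝ) ^ k) ^ (2 * B))) := by
            rw [h8, mul_one]
        _ = X ^ 2 * ((θ ^ (4 * B)) ^ 2 * ((1 / (q : ℝ) ^ k) ^ B) ^ 2) * ((q : ℝ) ^ k) ^ (2 * B) := by
            ring
        _ ≤ _ := h7
    have h9 : (4 : ℝ) ^ B * (X ^ 2 * (θ ^ (4 * B)) ^ 2) ≤
        ((q : ℝ) ^ k) ^ (2 * B) * (θ ^ (4 * B)) ^ 2 * (((q : ℝ) ^ (L + J)) ^ 2 *
          ((q : ℝ) ^ k) ^ (2 * B)) := by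
      calc (4 : ℝ) ^ B * (X ^ 2 * (θ ^ (4 * B)) ^ 2)
          ≤ (4 : ℝ) ^ B * ((2 ^ (4 * B)) ^ 2 * ((q : ℝ) ^ (L + J)) ^ 2 * ((q : ℝ) ^ k) ^ (2 * B)) :=
            mul_le_mul_of_nonneg_left h6 (by positivity)
        _ = ((4 : ℝ) ^ B * (2 ^ (4 * B)) ^ 2) * (((q : ℝ) ^ (L + J)) ^ 2 *
              ((q : ℝ) ^ k) ^ (2 * B)) := by ring
        _ ≤ _ := mul_le_mul_of_nonneg_right h2 (by positivity)
    have h10 : (4 : ℝ) ^ B * X ^ 2 ≤ ((q : ℝ) ^ k) ^ (2 * B) * (((q : ℝ) ^ (L + J)) ^ 2 *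
          ((q : ℝ) ^ k) ^ (2 * B)) := by
      refine le_of_mul_le_mul_right ?_ hθB
      calc (4 : ℝ) ^ B * X ^ 2 * (θ ^ (4 * B)) ^ 2 = (4 : ℝ) ^ B * (X ^ 2 * (θ ^ (4 * B)) ^ 2) := by
            ring
        _ ≤ _ := h9
        _ = _ := by ring
    have h11 : ((q : ℝ) ^ k) ^ (2 * B) * (((q : ℝ) ^ (L + J)) ^ 2 * ((q : ℝ) ^ k) ^ (2 * B)) =
        (q : ℝ) ^ (L + k * (4 * B) + J) * (q : ℝ) ^ (L + J) := by
      simp only [← pow_mul, ← pow_add]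
      congr 1
      ring
    rw [h11] at h10
    have h12 : (4 : ℝ) ^ B * X ^ 2 ≤ (2 * (S.card : ℝ) ^ 2) * ((4 : ℝ) ^ B / 8) := by
      refine h10.trans (mul_le_mul hcard' ?_ (by positivity) (by positivity))
      linarith
    have h13 : (0 : ℝ) < 4 ^ B := by positivity
    refine le_of_mul_le_mul_left ?_ h13
    calc (4 : ℝ) ^ B * X ^ 2 ≤ (2 * (S.card : ℝ) ^ 2) * ((4 : ℝ) ^ B / 8) := h12
      _ = (4 : ℝ) ^ B * ((S.card : ℝ) ^ 2 / 4) := by ring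
  have hXS : X ≤ (S.card : ℝ) / 2 := by
    refine le_of_sq_le_sq ?_ (by positivity)
    calc X ^ 2 ≤ (S.card : ℝ) ^ 2 / 4 := hX2
      _ = ((S.card : ℝ) / 2) ^ 2 := by ring
  rw [swap S (Finset.range (4 * B))
    (fun b u => (ncl q S (L + k * (b + 1)) u : ℝ) ≤ θ * ncl q S (L + k * b) u)]
  refine le_trans ?_ (lower S (Finset.range (4 * B))
    (fun b u => (ncl q S (L + k * (b + 1)) u : ℝ) ≤ θ * ncl q S (L + k * b) u) B)
  have hB0' : (0 : ℝ) ≤ B := Nat.cast_nonneg _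
  have h14 : (S.card : ℝ) / 2 ≤ (S.card : ℝ) - X := by linarith
  calc (S.card : ℝ) * B / 2 = (S.card : ℝ) / 2 * B := by ring
    _ ≤ ((S.card : ℝ) - X) * B := mul_le_mul_of_nonneg_right h14 hB0'

end

end Pool.Agent.LYD
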