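import Pool.Agent.LYD.Basic

set_option autoImplicit false

/-!
# LYD-COH: coherent sequences of differences
-/

open MeasureTheory Filter Topology
open Pool.Agent.LYN
open scoped Classical

namespace Pool.Agent.LYD

theorem p_COH (h_INJ : T_INJ) : T_COH := by
  intro q F hq hF hinf himg
  have hsub : ∀ x ∈ F, q • x ∈ F := fun x hx => himg ▸ Set.mem_image_of_mem _ hx
  have hni : ¬ Set.InjOn (fun x : Ci => q • x) F := fun h => hinf (h_INJ q F hq hF hsub h)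
  unfold Set.InjOn at hni
  push Not at hni
  obtain ⟨x, hx, y, hy, hxy, hne⟩ := hni
  have hpre : ∀ z : F, ∃ w : F, q • (w : Ci) = z := by
    rintro ⟨z, hz⟩
    rw [← himg] at hz
    obtain ⟨w, hw, hwz⟩ := hz
    exact ⟨⟨w, hw⟩, hwz⟩
  choose pr hpr using hpre
  let xs : F → ℕ → F := fun z k => pr^[k] z
  have hxs : ∀ (z : F) (k : ℕ), q • (xs z (k + 1) : Ci) = xs z k := by
    intro z k
    show q • ((pr^[k + 1] z : F) : Ci) = (pr^[k] z : F)
    rw [Function.iterate_succ_apply', hpr]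
  let d : ℕ → Ci := fun k => match k with
    | 0 => 0
    | k + 1 => (xs ⟨x, hx⟩ k : Ci) - xs ⟨y, hy⟩ k
  refine ⟨d, ⟨rfl, ?_, ?_⟩, ?_⟩
  · show x - y ≠ 0
    exact sub_ne_zero.2 hne
  · rintro (_ | k)
    · show q • (x - y) = 0
      rw [smul_sub]
      exact sub_eq_zero.2 hxy
    · show q • ((xs ⟨x, hx⟩ (k + 1) : Ci) - xs ⟨y, hy⟩ (k + 1)) = _
      rw [smul_sub, hxs, hxs]
  · rintro (_ | k)
    · exact ⟨x, hx, x, hx, (sub_self x).symm⟩
    · exact ⟨_, (xs ⟨x, hx⟩ k).2, _, (xs ⟨y, hy⟩ k).2, rfl⟩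

end Pool.Agent.LYD
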