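import Pool.Agent.LYD.Basic

set_option autoImplicit false

/-!
# LYD-DFL: the filter of sets of density one along a sequence
-/

open MeasureTheory Filter Topology
open Pool.Agent.LYN
open scoped Classical

namespace Pool.Agent.LYD

noncomputable section

lemma DFL_univ (N : ℕ → ℕ) : DZ N Set.univ := by
  unfold DZ
  simp

lemma DFL_mono {N : ℕ → ℕ} {A B : Set ℕ} (hA : DZ N A) (h : A ⊆ B) : DZ N B := by
  unfold DZ at hA ⊢
  refine squeeze_zero (fun i => by positivity) (fun i => ?_) hA
  refine div_le_div_of_nonneg_right ?_ (by positivity)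
  refine Nat.cast_le.2 (Finset.card_le_card ?_)
  intro j hj
  rw [Finset.mem_filter] at hj ⊢
  exact ⟨hj.1, fun h2 => hj.2 (h h2)⟩

/-- comparison of the counts is enough, whatever the decidability instances are -/
lemma DFL_sub (A B : Set ℕ) (i₁ : DecidablePred fun j => j ∉ A) (i₂ : DecidablePred fun j => j ∉ B)
    (i₃ : DecidablePred fun j => j ∉ A ∩ B) (n : ℕ) :
    (@Finset.filter ℕ (fun j => j ∉ A ∩ B) i₃ (Finset.range n)).card ≤
      (@Finset.filter ℕ (fun j => j ∉ A) i₁ (Finset.range n)).card +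
        (@Finset.filter ℕ (fun j => j ∉ B) i₂ (Finset.range n)).card := by
  refine (Finset.card_le_card ?_).trans (Finset.card_union_le _ _)
  intro j hj
  rw [Finset.mem_filter] at hj
  rw [Finset.mem_union, Finset.mem_filter, Finset.mem_filter]
  by_cases h1 : j ∈ A
  · exact Or.inr ⟨hj.1, fun h2 => hj.2 ⟨h1, h2⟩⟩
  · exact Or.inl ⟨hj.1, h1⟩

lemma DFL_inter {N : ℕ → ℕ} {A B : Set ℕ} (hA : DZ N A) (hB : DZ N B) : DZ N (A ∩ B) := by
  unfold DZ at hA hB ⊢
  have h := hA.add hB
  rw [add_zero] at h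
  refine squeeze_zero (fun i => by positivity) (fun i => ?_) h
  rw [← add_div]
  refine div_le_div_of_nonneg_right ?_ (by positivity)
  exact_mod_cast DFL_sub A B _ _ _ (N i)

lemma DFL_all (A : Set ℕ) (hA : A = ∅) (i₁ : DecidablePred fun j => j ∉ A) (n : ℕ) :
    (@Finset.filter ℕ (fun j => j ∉ A) i₁ (Finset.range n)).card = n := by
  rw [Finset.filter_true_of_mem (fun j _ => by rw [hA]; exact Set.notMem_empty j),
    Finset.card_range]

lemma DFL_cng (A : Set ℕ) (P : ℕ → Prop) (h : ∀ j, j ∉ A ↔ P j)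
    (i₁ : DecidablePred fun j => j ∉ A) (i₂ : DecidablePred P) (n : ℕ) :
    (@Finset.filter ℕ (fun j => j ∉ A) i₁ (Finset.range n)).card =
      (@Finset.filter ℕ P i₂ (Finset.range n)).card := by
  refine congrArg Finset.card ?_
  ext j
  rw [Finset.mem_filter, Finset.mem_filter, h]

/-- the filter -/
def DFL_D (N : ℕ → ℕ) : Filter ℕ where
  sets := {A | DZ N A}
  univ_sets := DFL_univ N
  sets_of_superset := fun hA h => DFL_mono hA h
  inter_sets := fun hA hB => DFL_inter hA hB

lemma DFL_mem (N : ℕ → ℕ) (A : Set ℕ) : A ∈ DFL_D N ↔ DZ N A := Iff.rfl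

/-- the counts of `A` and of the shifted set differ by at most one -/
lemma DFL_cnt (A : Set ℕ) (n : ℕ) :
    ((Finset.range n).filter fun j => j ∉ A).card ≤
      ((Finset.range n).filter fun j => j ∉ (fun j : ℕ => j + 1) ⁻¹' A).card + 1 ∧
    ((Finset.range n).filter fun j => j ∉ (fun j : ℕ => j + 1) ⁻¹' A).card ≤
      ((Finset.range n).filter fun j => j ∉ A).card + 1 := by
  constructor
  · have h : ((Finset.range n).filter fun j => j ∉ A) ⊆
        insert 0 (((Finset.range n).filter fun j => j ∉ (fun j : ℕ => j + 1) ⁻¹' A).image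
          fun j => j + 1) := by
      intro j hj
      rw [Finset.mem_filter, Finset.mem_range] at hj
      rw [Finset.mem_insert, Finset.mem_image]
      rcases Nat.eq_zero_or_pos j with h0 | h0
      · exact Or.inl h0
      · refine Or.inr ⟨j - 1, ?_, by omega⟩
        rw [Finset.mem_filter, Finset.mem_range, Set.mem_preimage]
        refine ⟨by omega, ?_⟩
        have h1 : j - 1 + 1 = j := by omega
        rw [h1]
        exact hj.2
    refine (Finset.card_le_card h).trans ((Finset.card_insert_le _ _).trans ?_)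
    exact Nat.add_le_add_right Finset.card_image_le 1
  · have h : (((Finset.range n).filter fun j => j ∉ (fun j : ℕ => j + 1) ⁻¹' A).image
          fun j => j + 1) ⊆ insert n ((Finset.range n).filter fun j => j ∉ A) := by
      intro j hj
      rw [Finset.mem_image] at hj
      obtain ⟨i, hi, rfl⟩ := hj
      rw [Finset.mem_filter, Finset.mem_range, Set.mem_preimage] at hi
      rw [Finset.mem_insert, Finset.mem_filter, Finset.mem_range]
      by_cases h0 : i + 1 = n
      · exact Or.inl h0
      · exact Or.inr ⟨by omega, hi.2⟩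
    have h2 := (Finset.card_le_card h).trans (Finset.card_insert_le _ _)
    rwa [Finset.card_image_of_injective _ (fun a b hab => Nat.succ.inj hab)] at h2

lemma DFL_one {N : ℕ → ℕ} (hN : Tendsto N atTop atTop) :
    Tendsto (fun i => (1 : ℝ) / N i) atTop (𝓝 0) :=
  tendsto_one_div_atTop_nhds_zero_nat.comp hN

lemma DFL_shift {N : ℕ → ℕ} (hN : Tendsto N atTop atTop) (A : Set ℕ) :
    DZ N ((fun j : ℕ => j + 1) ⁻¹' A) ↔ DZ N A := by
  have h1 := DFL_one hN
  constructor
  · intro hA
    unfold DZ at hA ⊢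
    have h := hA.add h1
    rw [add_zero] at h
    refine squeeze_zero (fun i => by positivity) (fun i => ?_) h
    rw [← add_div]
    refine div_le_div_of_nonneg_right ?_ (by positivity)
    exact_mod_cast (DFL_cnt A (N i)).1
  · intro hA
    unfold DZ at hA ⊢
    have h := hA.add h1
    rw [add_zero] at h
    refine squeeze_zero (fun i => by positivity) (fun i => ?_) h
    rw [← add_div]
    refine div_le_div_of_nonneg_right ?_ (by positivity)
    exact_mod_cast (DFL_cnt A (N i)).2

lemma DFL_neBot {N : ℕ → ℕ} (hN : Tendsto N atTop atTop) : (DFL_D N).NeBot := by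
  rw [neBot_iff]
  intro h
  have h1 : (∅ : Set ℕ) ∈ DFL_D N := by rw [h]; exact mem_bot
  rw [DFL_mem] at h1
  unfold DZ at h1
  have h2 : Tendsto (fun i => ((N i : ℕ) : ℝ) / N i) atTop (𝓝 0) := by
    refine h1.congr fun i => ?_
    rw [DFL_all (∅ : Set ℕ) rfl _ (N i)]
  have h6 : Tendsto (fun i => ((N i : ℕ) : ℝ) / N i) atTop (𝓝 1) := by
    refine tendsto_const_nhds.congr' ?_
    filter_upwards [hN.eventually_ge_atTop 1] with i hi
    have h4 : (N i : ℝ) ≠ 0 := by
      have : N i ≠ 0 := by omega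
      exact_mod_cast this
    exact (div_self h4).symm
  exact one_ne_zero (tendsto_nhds_unique h6 h2)

lemma DFL_meas (N : ℕ → ℕ) (q : ℕ) (K : Set Ci) (hK : IsClosed K) :
    MeasurableSet {x : Ci | ∀ᶠ j in DFL_D N, q ^ j • x ∉ K} := by
  have h1 : {x : Ci | ∀ᶠ j in DFL_D N, q ^ j • x ∉ K} =
      {x : Ci | Tendsto (fun i => (((Finset.range (N i)).filter
        fun j => q ^ j • x ∈ K).card : ℝ) / N i) atTop (𝓝 ((fun _ : Ci => (0 : ℝ)) x))} := by
    ext x
    have h2 : (∀ᶠ j in DFL_D N, q ^ j • x ∉ K) ↔ DZ N {j : ℕ | q ^ j • x ∉ K} := Iff.rfl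
    refine h2.trans ?_
    unfold DZ
    refine tendsto_congr fun i => ?_
    rw [DFL_cng {j : ℕ | q ^ j • x ∉ K} (fun j => q ^ j • x ∈ K) (fun j => not_not) _ _ (N i)]
  rw [h1]
  refine measurableSet_tendsto_fun (fun i => ?_) measurable_const
  refine Measurable.div_const ?_ _
  have h4 : (fun x : Ci => (((Finset.range (N i)).filter fun j => q ^ j • x ∈ K).card : ℝ)) =
      fun x : Ci => ∑ j ∈ Finset.range (N i), if q ^ j • x ∈ K then (1 : ℝ) else 0 := by
    funext x
    rw [Finset.sum_boole]
  rw [h4]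
  refine Finset.measurable_sum _ fun j _ => ?_
  refine Measurable.ite ?_ measurable_const measurable_const
  have h5 : Continuous fun x : Ci => q ^ j • x := continuous_const_smul _
  exact (hK.preimage h5).measurableSet

theorem p_DFL : T_DFL := by
  intro N hN
  refine ⟨DFL_D N, DFL_neBot hN, fun A => Iff.rfl, ?_, fun q K hK => DFL_meas N q K hK⟩
  ext A
  rw [mem_map, DFL_mem, DFL_mem]
  exact DFL_shift hN A

end

end Pool.Agent.LYD
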