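import Pool.Agent.LYD.Basic

set_option autoImplicit false

open MeasureTheory Filter Topology
open Pool.Agent.LYN
open scoped Classical

namespace Pool.Agent.LYD

noncomputable section

lemma DIF_rep (R : ℕ) (F : Set Ci) (hR : 1 ≤ R) (x : Ci) (hx : x ∈ F) :
    ∃ (u : ℕ) (a : ℝ), u ∈ vis R F ∧ (u : ℝ) ≤ a * R ∧ a * R < (u : ℝ) + 1 ∧ (a : Ci) = x := by
  have hR' : (0 : ℝ) < R := by exact_mod_cast hR
  obtain ⟨b, hb⟩ : ∃ b : ℝ, (b : Ci) = x := QuotientAddGroup.mk_surjective x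
  have hfr : ((Int.fract b : ℝ) : Ci) = x := by
    rw [← hb]
    have h1 : (Int.fract b : ℝ) = b - (⌊b⌋ : ℤ) := rfl
    rw [h1]
    have h2 : ((b - (⌊b⌋ : ℤ) : ℝ) : Ci) = (b : Ci) - (((⌊b⌋ : ℤ) : ℝ) : Ci) := rfl
    rw [h2]
    have h3 : ((((⌊b⌋ : ℤ) : ℝ)) : Ci) = 0 := by
      rw [AddCircle.coe_eq_zero_iff]
      exact ⟨⌊b⌋, by simp⟩
    rw [h3, sub_zero]
  have h0 : 0 ≤ Int.fract b := Int.fract_nonneg b
  have h1 : Int.fract b < 1 := Int.fract_lt_one b
  set a := Int.fract b with ha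
  have hu0 : 0 ≤ a * R := by positivity
  have hu1 : ((⌊a * R⌋₊ : ℕ) : ℝ) ≤ a * R := Nat.floor_le hu0
  have hu2 : a * R < ((⌊a * R⌋₊ : ℕ) : ℝ) + 1 := Nat.lt_floor_add_one _
  refine ⟨⌊a * R⌋₊, a, ?_, hu1, hu2, hfr⟩
  unfold vis
  rw [Finset.mem_filter, Finset.mem_range]
  constructor
  · have : ((⌊a * R⌋₊ : ℕ) : ℝ) < R := by
      refine lt_of_le_of_lt hu1 ?_
      nlinarith
    exact_mod_cast this
  · refine ⟨a, ?_, ?_, ?_⟩
    · rw [div_le_iff₀ hR']
      exact hu1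
    · rw [lt_div_iff₀ hR']
      exact hu2
    · rw [hfr]
      exact hx

theorem p_DIF : T_DIF := by
  intro R F hR H
  have hR' : (0 : ℝ) < R := by exact_mod_cast hR
  let f : ℕ × ℕ × ℕ → ℕ := fun z => (((z.1 : ℤ) - z.2.1 - z.2.2) % (R : ℤ)).toNat
  have hsub : Finset.range R ⊆ (vis R F ×ˢ (vis R F ×ˢ Finset.range 2)).image f := by
    intro h hh
    rw [Finset.mem_range] at hh
    obtain ⟨x, hx, y, hy, t, ht1, ht2, hxy⟩ := H h hh
    obtain ⟨u, a, hu, hu1, hu2, hax⟩ := DIF_rep R F hR x hx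
    obtain ⟨v, b, hv, hv1, hv2, hby⟩ := DIF_rep R F hR y hy
    rw [div_lt_iff₀ hR'] at ht1
    rw [lt_div_iff₀ hR'] at ht2
    have h1 : ((a - b - t : ℝ) : Ci) = 0 := by
      have h2 : ((a - b - t : ℝ) : Ci) = (a : Ci) - (b : Ci) - (t : Ci) := rfl
      rw [h2, hax, hby, hxy, sub_self]
    rw [AddCircle.coe_eq_zero_iff] at h1
    obtain ⟨n, hn⟩ := h1
    rw [zsmul_eq_mul, mul_one] at hn
    have hn2 : (n : ℝ) * R = a * R - b * R - t * R := by
      rw [hn]
      ring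
    have hlo : ((u : ℤ) - v - h - 2 : ℤ) < n * R := by
      have : (((u : ℤ) - v - h - 2 : ℤ) : ℝ) < ((n * R : ℤ) : ℝ) := by
        push_cast
        linarith
      exact_mod_cast this
    have hhi : (n * R : ℤ) < (u : ℤ) - v - h + 1 := by
      have : ((n * R : ℤ) : ℝ) < (((u : ℤ) - v - h + 1 : ℤ) : ℝ) := by
        push_cast
        linarith
      exact_mod_cast this
    have hcase : ∃ e : ℕ, e < 2 ∧ (u : ℤ) - v - e = h + R * n := by
      have hcm : (n * R : ℤ) = R * n := mul_comm _ _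
      rcases (by omega : (n * R : ℤ) = (u : ℤ) - v - h - 1 ∨ (n * R : ℤ) = (u : ℤ) - v - h)
        with h3 | h3
      · refine ⟨1, by norm_num, ?_⟩
        rw [← hcm, h3]
        push_cast
        ring
      · refine ⟨0, by norm_num, ?_⟩
        rw [← hcm, h3]
        push_cast
        ring
    obtain ⟨e, he, hee⟩ := hcase
    rw [Finset.mem_image]
    refine ⟨(u, v, e), ?_, ?_⟩
    · rw [Finset.mem_product, Finset.mem_product, Finset.mem_range]
      exact ⟨hu, hv, he⟩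
    · change (((u : ℤ) - v - e) % (R : ℤ)).toNat = h
      rw [hee, Int.add_mul_emod_self_left, Int.emod_eq_of_lt (by positivity) (by exact_mod_cast hh)]
      simp
  have h1 := Finset.card_le_card hsub
  have h2 : ((vis R F ×ˢ (vis R F ×ˢ Finset.range 2)).image f).card ≤
      (vis R F ×ˢ (vis R F ×ˢ Finset.range 2)).card := Finset.card_image_le
  rw [Finset.card_range] at h1
  rw [Finset.card_product, Finset.card_product, Finset.card_range] at h2
  calc R ≤ _ := h1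
    _ ≤ _ := h2
    _ = 2 * (vis R F).card ^ 2 := by ring

end

end Pool.Agent.LYD
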