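import Pool.Agent.LYD.Basic

set_option autoImplicit false

/-!
# LYD: greedy covering (T_GRD)
-/

open MeasureTheory Filter Topology
open Pool.Agent.LYN
open scoped Classical

namespace Pool.Agent.LYD

theorem p_GRD : T_GRD := by
  intro W B δ Nm hδ hB x N
  induction N using Nat.strong_induction_on generalizing x with
  | _ N ih =>
    have hNm : (0 : ℝ) ≤ Nm := Nat.cast_nonneg _
    rcases Nat.eq_zero_or_pos N with h0 | hpos
    · subst h0
      have h1 : 0 ≤ δ * (((0 : ℕ) : ℝ) + Nm) := by
        push_cast
        rw [zero_add]
        exact mul_nonneg hδ hNm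
      simpa using h1
    by_cases hx : B x
    · obtain ⟨M, rfl⟩ : ∃ M, N = M + 1 := ⟨N - 1, by omega⟩
      have h1 := ih M (Nat.lt_succ_self M) (x + 1)
      have h2 : Finset.Ico x (x + (M + 1)) = insert x (Finset.Ico (x + 1) (x + 1 + M)) := by
        ext y
        simp only [Finset.mem_Ico, Finset.mem_insert]
        omega
      have h3 : x ∉ Finset.Ico (x + 1) (x + 1 + M) := by
        simp
      have h4 : ((Finset.Ico x (x + (M + 1))).filter W).card ≤
          ((Finset.Ico (x + 1) (x + 1 + M)).filter W).card + 1 := by
        rw [h2, Finset.filter_insert]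
        split_ifs
        · exact Finset.card_insert_le _ _
        · exact Nat.le_succ _
      have h5 : ((Finset.Ico x (x + (M + 1))).filter B).card =
          ((Finset.Ico (x + 1) (x + 1 + M)).filter B).card + 1 := by
        rw [h2, Finset.filter_insert, if_pos hx, Finset.card_insert_of_notMem]
        intro h
        exact h3 (Finset.mem_of_mem_filter x h)
      have h6 : (((Finset.Ico x (x + (M + 1))).filter W).card : ℝ) ≤
          ((Finset.Ico (x + 1) (x + 1 + M)).filter W).card + 1 := by exact_mod_cast h4
      rw [h5]
      push_cast
      have h7 : δ * ((M : ℝ) + Nm) ≤ δ * ((M : ℝ) + 1 + Nm) :=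
        mul_le_mul_of_nonneg_left (by linarith) hδ
      linarith
    · obtain ⟨L, hL1, hL2, hL3⟩ := hB x hx
      by_cases hLN : L ≤ N
      · have h1 := ih (N - L) (by omega) (x + L)
        have h2 : x + L + (N - L) = x + N := by omega
        rw [h2] at h1
        have h3 : Finset.Ico x (x + N) = Finset.Ico x (x + L) ∪ Finset.Ico (x + L) (x + N) := by
          ext y
          simp only [Finset.mem_Ico, Finset.mem_union]
          omega
        have h4 : ((Finset.Ico x (x + N)).filter W).card ≤
            ((Finset.Ico x (x + L)).filter W).card +
              ((Finset.Ico (x + L) (x + N)).filter W).card := by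
          rw [h3, Finset.filter_union]
          exact Finset.card_union_le _ _
        have h5 : ((Finset.Ico (x + L) (x + N)).filter B).card ≤
            ((Finset.Ico x (x + N)).filter B).card := by
          apply Finset.card_le_card
          apply Finset.filter_subset_filter
          apply Finset.Ico_subset_Ico_left
          omega
        have h6 : (((Finset.Ico x (x + N)).filter W).card : ℝ) ≤
            ((Finset.Ico x (x + L)).filter W).card +
              ((Finset.Ico (x + L) (x + N)).filter W).card := by exact_mod_cast h4
        have h7 : (((Finset.Ico (x + L) (x + N)).filter B).card : ℝ) ≤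
            ((Finset.Ico x (x + N)).filter B).card := by exact_mod_cast h5
        have h8 : ((N - L : ℕ) : ℝ) = (N : ℝ) - L := Nat.cast_sub hLN
        rw [h8] at h1
        have h9 : δ * L + δ * ((N : ℝ) - L + Nm) = δ * (N + Nm) := by ring
        linarith
      · push Not at hLN
        have h1 : ((Finset.Ico x (x + N)).filter W).card ≤
            ((Finset.Ico x (x + L)).filter W).card := by
          apply Finset.card_le_card
          apply Finset.filter_subset_filter
          apply Finset.Ico_subset_Ico_right
          omega
        have h2 : (((Finset.Ico x (x + N)).filter W).card : ℝ) ≤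
            ((Finset.Ico x (x + L)).filter W).card := by exact_mod_cast h1
        have h3 : (L : ℝ) ≤ Nm := by exact_mod_cast hL2
        have h4 : δ * L ≤ δ * (N + Nm) :=
          mul_le_mul_of_nonneg_left (by linarith [(Nat.cast_nonneg N : (0 : ℝ) ≤ N)]) hδ
        have h5 : (0 : ℝ) ≤ ((Finset.Ico x (x + N)).filter B).card := Nat.cast_nonneg _
        linarith

end Pool.Agent.LYD
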