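import Pool.Agent.LYD.Basic

set_option autoImplicit false

/-!
# LYD-INJ: a closed set on which multiplication by `q` is injective is finite
-/

open MeasureTheory Filter Topology
open Pool.Agent.LYN
open scoped Classical

namespace Pool.Agent.LYD

noncomputable section

/-- multiplication by `q` expands small elements exactly -/
lemma INJ_norm {q : ℕ} (hq : 2 ≤ q) {z : Ci} (hz : ‖z‖ < 1 / (2 * q)) : ‖q • z‖ = q * ‖z‖ := by
  induction z using QuotientAddGroup.induction_on with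
  | H t =>
    have hq0 : (0 : ℝ) < q := by exact_mod_cast (by omega : 0 < q)
    -- representative
    set s : ℝ := t - round t with hs
    have h1 : ((t : ℝ) : Ci) = ((s : ℝ) : Ci) := by
      have : ((round t : ℤ) : ℝ) = (round t : ℤ) • (1 : ℝ) := by simp
      rw [hs, AddCircle.coe_sub, this, AddCircle.coe_zsmul, AddCircle.coe_period]
      simp
    have h2 : ‖((t : ℝ) : Ci)‖ = |s| := by
      rw [UnitAddCircle.norm_eq]
    change ‖((t : ℝ) : Ci)‖ < _ at hz
    change ‖q • ((t : ℝ) : Ci)‖ = q * ‖((t : ℝ) : Ci)‖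
    rw [h2] at hz ⊢
    rw [h1, ← AddCircle.coe_nsmul]
    have h3 : |(q • s : ℝ)| ≤ |(1 : ℝ)| / 2 := by
      rw [nsmul_eq_mul, abs_mul, abs_of_pos hq0, abs_one]
      have : (q : ℝ) * |s| ≤ q * (1 / (2 * q)) := by
        exact mul_le_mul_of_nonneg_left hz.le hq0.le
      calc (q : ℝ) * |s| ≤ q * (1 / (2 * q)) := this
        _ = 1 / 2 := by field_simp
    rw [(AddCircle.norm_coe_eq_abs_iff (p := (1 : ℝ)) one_ne_zero).2 h3, nsmul_eq_mul, abs_mul,
      abs_of_pos hq0]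

lemma INJ_eps {q : ℕ} (F : Set Ci) (hq : 2 ≤ q) (hF : IsClosed F)
    (hinj : Set.InjOn (fun x : Ci => q • x) F) :
    ∃ ε : ℝ, 0 < ε ∧ ∀ x ∈ F, ∀ y ∈ F, ‖q • (x - y)‖ < ε → ‖x - y‖ < 1 / (2 * q) := by
  have hq0 : (0 : ℝ) < q := by exact_mod_cast (by omega : 0 < q)
  set C : Set (Ci × Ci) := (F ×ˢ F) ∩ {z | 1 / (2 * (q : ℝ)) ≤ ‖z.1 - z.2‖} with hC
  have hCc : IsCompact C := by
    have h1 : IsCompact (F ×ˢ F) := hF.isCompact.prod hF.isCompact
    refine h1.inter_right ?_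
    exact isClosed_le continuous_const ((continuous_fst.sub continuous_snd).norm)
  have hf : Continuous fun z : Ci × Ci => ‖q • (z.1 - z.2)‖ := by
    exact ((continuous_fst.sub continuous_snd).nsmul q).norm
  rcases C.eq_empty_or_nonempty with he | hne
  · refine ⟨1, one_pos, fun x hx y hy _ => ?_⟩
    by_contra hcon
    have : ((x, y) : Ci × Ci) ∈ C := ⟨⟨hx, hy⟩, not_lt.1 hcon⟩
    rw [he] at this
    exact this
  · obtain ⟨z, hz, hmin⟩ := hCc.exists_isMinOn hne hf.continuousOn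
    refine ⟨‖q • (z.1 - z.2)‖, ?_, fun x hx y hy hlt => ?_⟩
    · rw [norm_pos_iff]
      intro h0
      rw [smul_sub, sub_eq_zero] at h0
      have h1 := hinj hz.1.1 hz.1.2 h0
      have h2 : 1 / (2 * (q : ℝ)) ≤ ‖z.1 - z.2‖ := hz.2
      rw [h1, sub_self, norm_zero] at h2
      have : (0 : ℝ) < 1 / (2 * q) := by positivity
      linarith
    · by_contra hcon
      have h1 : ((x, y) : Ci × Ci) ∈ C := ⟨⟨hx, hy⟩, not_lt.1 hcon⟩
      have h2 := hmin h1
      have h2 : ‖q • (z.1 - z.2)‖ ≤ ‖q • (x - y)‖ := h2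
      linarith

theorem p_INJ : T_INJ := by
  intro q F hq hF hinv hinj
  have hq0 : (0 : ℝ) < q := by exact_mod_cast (by omega : 0 < q)
  have hq1 : (1 : ℝ) < q := by exact_mod_cast (by omega : 1 < q)
  obtain ⟨ε, hε, hε2⟩ := INJ_eps F hq hF hinj
  -- going down
  have hdown : ∀ n : ℕ, ∀ x ∈ F, ∀ y ∈ F, ‖q ^ n • (x - y)‖ < ε → ‖x - y‖ < ε / (q : ℝ) ^ n := by
    intro n
    induction n with
    | zero => intro x _ y _ h; simpa using h
    | succ n ih =>
      intro x hx y hy h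
      have h1 : q ^ (n + 1) • (x - y) = q ^ n • (q • x - q • y) := by
        rw [← smul_sub, smul_smul, pow_succ]
      rw [h1] at h
      have h2 := ih _ (hinv x hx) _ (hinv y hy) h
      rw [← smul_sub] at h2
      have h3 : ε / (q : ℝ) ^ n ≤ ε := div_le_self hε.le (one_le_pow₀ hq1.le)
      have h4 := hε2 x hx y hy (lt_of_lt_of_le h2 h3)
      rw [INJ_norm hq h4] at h2
      rw [pow_succ, ← div_div, lt_div_iff₀ hq0, mul_comm]
      exact h2
  by_contra hinf
  have hinf : F.Infinite := hinf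
  obtain ⟨t, -, htf, htc⟩ := hF.isCompact.finite_cover_balls (half_pos hε)
  obtain ⟨S, hSF, hSc⟩ := hinf.exists_subset_card_eq (htf.toFinset.card + 1)
  -- minimal distance
  have hδ : ∃ δ : ℝ, 0 < δ ∧ ∀ x ∈ S, ∀ y ∈ S, x ≠ y → δ ≤ ‖x - y‖ := by
    rcases S.offDiag.eq_empty_or_nonempty with he | hne
    · refine ⟨1, one_pos, fun x hx y hy hxy => ?_⟩
      have : (x, y) ∈ S.offDiag := Finset.mem_offDiag.2 ⟨hx, hy, hxy⟩
      rw [he] at this
      simp at this
    · obtain ⟨z, hz, hmin⟩ := S.offDiag.exists_min_image (fun z => ‖z.1 - z.2‖) hne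
      refine ⟨‖z.1 - z.2‖, ?_, fun x hx y hy hxy => ?_⟩
      · rw [norm_pos_iff, sub_ne_zero]
        exact (Finset.mem_offDiag.1 hz).2.2
      · exact hmin (x, y) (Finset.mem_offDiag.2 ⟨hx, hy, hxy⟩)
  obtain ⟨δ, hδ0, hδ⟩ := hδ
  obtain ⟨n, hn⟩ : ∃ n : ℕ, ε / (q : ℝ) ^ n < δ := by
    obtain ⟨n, hn⟩ := pow_unbounded_of_one_lt (ε / δ) hq1
    refine ⟨n, ?_⟩
    have h1 : (0 : ℝ) < (q : ℝ) ^ n := by positivity
    rw [div_lt_iff₀ h1]
    rw [div_lt_iff₀ hδ0] at hn
    linarith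
  have hqn : ∀ m : ℕ, ∀ x ∈ F, q ^ m • x ∈ F := by
    intro m
    induction m with
    | zero => intro x hx; simpa using hx
    | succ m ih =>
      intro x hx
      rw [pow_succ, ← smul_smul]
      exact ih _ (hinv x hx)
  have hcen : ∀ x : Ci, ∃ c : Ci, x ∈ F → c ∈ t ∧ dist (q ^ n • x) c < ε / 2 := by
    intro x
    by_cases hx : x ∈ F
    · have h1 := htc (hqn n x hx)
      simp only [Set.mem_iUnion, Metric.mem_ball] at h1
      obtain ⟨c, hc, hd⟩ := h1
      exact ⟨c, fun _ => ⟨hc, hd⟩⟩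
    · exact ⟨0, fun h => absurd h hx⟩
  choose c hc using hcen
  have hmaps : ∀ x ∈ S, c x ∈ htf.toFinset := by
    intro x hx
    rw [Set.Finite.mem_toFinset]
    exact (hc x (hSF hx)).1
  obtain ⟨x, hx, y, hy, hxy, hcxy⟩ := Finset.exists_ne_map_eq_of_card_lt_of_maps_to
    (by rw [hSc]; exact Nat.lt_succ_self _) hmaps
  have h1 := (hc x (hSF hx)).2
  have h2 := (hc y (hSF hy)).2
  rw [← hcxy] at h2
  have h3 : dist (q ^ n • x) (q ^ n • y) < ε := by
    have := dist_triangle_right (q ^ n • x) (q ^ n • y) (c x)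
    linarith
  rw [dist_eq_norm, ← smul_sub] at h3
  have h4 := hdown n x (hSF hx) y (hSF hy) h3
  have h5 := hδ x hx y hy hxy
  linarith

end

end Pool.Agent.LYD
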