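import Pool.Agent.LYD.Basic

set_option autoImplicit false

/-!
# LYD-KAP: the weighted sum over the classes (helper91)
-/

open MeasureTheory Filter Topology
open Pool.Agent.LYN
open scoped Classical

namespace Pool.Agent.LYD

noncomputable section

namespace KAP_

lemma ncl_mod {q : ℕ} (S : Finset ℕ) {r R : ℕ} (h : r ≤ R) (v : ℕ) :
    ncl q S r (v % q ^ R) = ncl q S r v := by
  unfold ncl
  rw [Nat.mod_mod_of_dvd _ (pow_dvd_pow q h)]

/-- the weight -/
def kap (q k L : ℕ) (S : Finset ℕ) (θ : ℝ) (b v : ℕ) : ℝ :=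
  if θ * ncl q S (L + k * b) v < ncl q S (L + k * (b + 1)) v then θ else 1 / (q : ℝ) ^ k

lemma kap_nonneg {q k L : ℕ} {S : Finset ℕ} {θ : ℝ} (hθ : 0 < θ) (b v : ℕ) :
    0 ≤ kap q k L S θ b v := by
  unfold kap
  split_ifs
  · exact hθ.le
  · positivity

lemma kap_mod {q k L : ℕ} (S : Finset ℕ) (θ : ℝ) {b' b : ℕ} (h : b' < b) (v : ℕ) :
    kap q k L S θ b' (v % q ^ (L + k * b)) = kap q k L S θ b' v := by
  have h1 : L + k * b' ≤ L + k * b := Nat.add_le_add_left (Nat.mul_le_mul_left k h.le) L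
  have h2 : L + k * (b' + 1) ≤ L + k * b := Nat.add_le_add_left (Nat.mul_le_mul_left k h) L
  unfold kap
  rw [ncl_mod S h1, ncl_mod S h2]

/-- the classes above a class -/
def fib (q k L : ℕ) (S : Finset ℕ) (b f : ℕ) : Finset ℕ :=
  (S.image fun u => u % q ^ (L + k * (b + 1))).filter fun v => v % q ^ (L + k * b) = f

lemma fib_card {q k L : ℕ} (hq : 2 ≤ q) (S : Finset ℕ) (b f : ℕ) :
    (fib q k L S b f).card ≤ q ^ k := by
  have hpos : ∀ r : ℕ, 0 < q ^ r := fun r => Nat.pow_pos (by omega)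
  have h : (fib q k L S b f).card ≤ (Finset.range (q ^ k)).card := by
    refine Finset.card_le_card_of_injOn (fun v => v / q ^ (L + k * b)) ?_ ?_
    · intro v hv
      have hv' : v ∈ fib q k L S b f := hv
      unfold fib at hv'
      rw [Finset.mem_filter, Finset.mem_image] at hv'
      obtain ⟨⟨u, -, rfl⟩, -⟩ := hv'
      simp only [Finset.coe_range, Set.mem_Iio]
      refine Nat.div_lt_of_lt_mul ?_
      have e : q ^ (L + k * b) * q ^ k = q ^ (L + k * (b + 1)) := by
        rw [← pow_add]; congr 1; ring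
      rw [e]
      exact Nat.mod_lt _ (hpos _)
    · intro v hv v' hv' hvv
      have hv1 : v ∈ fib q k L S b f := hv
      have hv2 : v' ∈ fib q k L S b f := hv'
      unfold fib at hv1 hv2
      rw [Finset.mem_filter] at hv1 hv2
      have e1 := Nat.div_add_mod v (q ^ (L + k * b))
      have e2 := Nat.div_add_mod v' (q ^ (L + k * b))
      simp only at hvv
      rw [hv1.2, hvv] at e1
      rw [hv2.2] at e2
      exact e1.symm.trans e2
  simpa using h

/-- classes with large weight -/
def goo (q k L : ℕ) (S : Finset ℕ) (θ : ℝ) (b f : ℕ) : Finset ℕ :=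
  (fib q k L S b f).filter fun v =>
    θ * ncl q S (L + k * b) v < ncl q S (L + k * (b + 1)) v

lemma goo_card {q k L : ℕ} (S : Finset ℕ) (θ : ℝ) (b f : ℕ)
    (hf : f ∈ S.image fun u => u % q ^ (L + k * b)) :
    θ * (goo q k L S θ b f).card ≤ 1 := by
  obtain ⟨u0, hu0, rfl⟩ := Finset.mem_image.1 hf
  set f : ℕ := u0 % q ^ (L + k * b) with hfdef
  have hN : 1 ≤ ncl q S (L + k * b) f := by
    rw [hfdef, ncl_mod S le_rfl]
    exact ncl_pos hu0 _
  have hmem : ∀ v ∈ goo q k L S θ b f, v % q ^ (L + k * b) = f ∧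
      v % q ^ (L + k * (b + 1)) = v ∧
      θ * ncl q S (L + k * b) v < ncl q S (L + k * (b + 1)) v := by
    intro v hv
    unfold goo at hv
    rw [Finset.mem_filter] at hv
    obtain ⟨hv1, hv2⟩ := hv
    unfold fib at hv1
    rw [Finset.mem_filter, Finset.mem_image] at hv1
    obtain ⟨⟨u, -, hu⟩, hv3⟩ := hv1
    refine ⟨hv3, ?_, hv2⟩
    rw [← hu, Nat.mod_mod]
  have hdis : ∀ v ∈ goo q k L S θ b f, ∀ v' ∈ goo q k L S θ b f, v ≠ v' →
      Disjoint (S.filter fun u' => u' % q ^ (L + k * (b + 1)) = v % q ^ (L + k * (b + 1)))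
        (S.filter fun u' => u' % q ^ (L + k * (b + 1)) = v' % q ^ (L + k * (b + 1))) := by
    intro v hv v' hv' hne
    rw [Finset.disjoint_left]
    intro u hu hu'
    rw [Finset.mem_filter] at hu hu'
    apply hne
    rw [← (hmem v hv).2.1, ← (hmem v' hv').2.1, ← hu.2, ← hu'.2]
  have hcard := Finset.card_biUnion hdis
  have hsub : ((goo q k L S θ b f).biUnion fun v =>
      S.filter fun u' => u' % q ^ (L + k * (b + 1)) = v % q ^ (L + k * (b + 1))) ⊆
      S.filter fun u' => u' % q ^ (L + k * b) = f % q ^ (L + k * b) := by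
    intro u hu
    rw [Finset.mem_biUnion] at hu
    obtain ⟨v, hv, hu⟩ := hu
    rw [Finset.mem_filter] at hu ⊢
    refine ⟨hu.1, ?_⟩
    have h1 : L + k * b ≤ L + k * (b + 1) :=
      Nat.add_le_add_left (Nat.mul_le_mul_left k (Nat.le_succ b)) L
    have h2 : u % q ^ (L + k * b) = v % q ^ (L + k * b) := by
      rw [← Nat.mod_mod_of_dvd u (pow_dvd_pow q h1), hu.2,
        Nat.mod_mod_of_dvd v (pow_dvd_pow q h1)]
    rw [h2, (hmem v hv).1, hfdef, Nat.mod_mod]
  have hle := Finset.card_le_card hsub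
  rw [hcard] at hle
  have hle2 : ∑ v ∈ goo q k L S θ b f, (ncl q S (L + k * (b + 1)) v : ℝ) ≤
      ncl q S (L + k * b) f := by
    unfold ncl
    exact_mod_cast hle
  have hlow : ∑ v ∈ goo q k L S θ b f, θ * (ncl q S (L + k * b) f : ℝ) ≤
      ∑ v ∈ goo q k L S θ b f, (ncl q S (L + k * (b + 1)) v : ℝ) := by
    refine Finset.sum_le_sum fun v hv => ?_
    have h3 := (hmem v hv).2.2
    have h4 : ncl q S (L + k * b) v = ncl q S (L + k * b) f := by
      rw [← (hmem v hv).1, ncl_mod S le_rfl]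
    rw [h4] at h3
    exact h3.le
  rw [Finset.sum_const, nsmul_eq_mul] at hlow
  have hNr : (1 : ℝ) ≤ ncl q S (L + k * b) f := by exact_mod_cast hN
  have h5 : (θ * (goo q k L S θ b f).card) * (ncl q S (L + k * b) f : ℝ) ≤
      1 * (ncl q S (L + k * b) f : ℝ) := by
    calc (θ * (goo q k L S θ b f).card) * (ncl q S (L + k * b) f : ℝ)
        = ((goo q k L S θ b f).card : ℝ) * (θ * (ncl q S (L + k * b) f : ℝ)) := by ring
      _ ≤ ncl q S (L + k * b) f := le_trans hlow hle2
      _ = 1 * (ncl q S (L + k * b) f : ℝ) := by ring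
  exact le_of_mul_le_mul_right h5 (by linarith)

lemma inner {q k L : ℕ} (hq : 2 ≤ q) (S : Finset ℕ) (θ : ℝ) (b f : ℕ)
    (hf : f ∈ S.image fun u => u % q ^ (L + k * b)) :
    ∑ v ∈ fib q k L S b f, kap q k L S θ b v ≤ 2 := by
  have hqr : (0 : ℝ) < (q : ℝ) ^ k := by
    have : (0 : ℝ) < q := by exact_mod_cast (by omega : 0 < q)
    positivity
  have h1 : ∀ v ∈ fib q k L S b f, kap q k L S θ b v ≤
      (if θ * ncl q S (L + k * b) v < ncl q S (L + k * (b + 1)) v then θ else 0) +
        1 / (q : ℝ) ^ k := by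
    intro v _
    unfold kap
    have : (0 : ℝ) ≤ 1 / (q : ℝ) ^ k := by positivity
    split_ifs <;> linarith
  refine le_trans (Finset.sum_le_sum h1) ?_
  rw [Finset.sum_add_distrib, Finset.sum_const, nsmul_eq_mul, ← Finset.sum_filter,
    Finset.sum_const, nsmul_eq_mul]
  have h2 := goo_card S θ b f hf
  have h3 : ((fib q k L S b f).card : ℝ) ≤ (q : ℝ) ^ k := by
    exact_mod_cast fib_card (k := k) (L := L) hq S b f
  have h4 : ((fib q k L S b f).card : ℝ) * (1 / (q : ℝ) ^ k) ≤ 1 := by
    rw [mul_one_div, div_le_one hqr]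
    exact h3
  unfold goo at h2
  linarith

end KAP_

open KAP_ in
/-- The weighted sum over the classes. -/
theorem p_KAP : T_KAP := by
  intro q k L S θ hq hθ b
  change ∑ v ∈ S.image (fun u => u % q ^ (L + k * b)), ∏ b' ∈ Finset.range b,
    kap q k L S θ b' v ≤ 2 ^ b * (q : ℝ) ^ L
  induction b with
  | zero =>
    simp only [Finset.range_zero, Finset.prod_empty, Finset.sum_const, nsmul_eq_mul, mul_one,
      pow_zero, one_mul]
    have h : (S.image fun u => u % q ^ (L + k * 0)).card ≤ (Finset.range (q ^ L)).card := by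
      refine Finset.card_le_card ?_
      intro v hv
      obtain ⟨u, -, rfl⟩ := Finset.mem_image.1 hv
      rw [Finset.mem_range]
      have : L + k * 0 = L := by ring
      rw [this]
      exact Nat.mod_lt _ (Nat.pow_pos (by omega))
    rw [Finset.card_range] at h
    exact_mod_cast h
  | succ b ih =>
    have hmaps : ∀ v ∈ S.image (fun u => u % q ^ (L + k * (b + 1))),
        v % q ^ (L + k * b) ∈ S.image fun u => u % q ^ (L + k * b) := by
      intro v hv
      obtain ⟨u, hu, rfl⟩ := Finset.mem_image.1 hv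
      refine Finset.mem_image.2 ⟨u, hu, ?_⟩
      have h1 : L + k * b ≤ L + k * (b + 1) :=
        Nat.add_le_add_left (Nat.mul_le_mul_left k (Nat.le_succ b)) L
      exact (Nat.mod_mod_of_dvd u (pow_dvd_pow q h1)).symm
    rw [← Finset.sum_fiberwise_of_maps_to hmaps]
    have hstep : ∀ f ∈ S.image (fun u => u % q ^ (L + k * b)),
        ∑ v ∈ (S.image (fun u => u % q ^ (L + k * (b + 1)))).filter
          (fun v => v % q ^ (L + k * b) = f), ∏ b' ∈ Finset.range (b + 1), kap q k L S θ b' v ≤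
        2 * ∏ b' ∈ Finset.range b, kap q k L S θ b' f := by
      intro f hf
      have h1 : ∑ v ∈ (S.image (fun u => u % q ^ (L + k * (b + 1)))).filter
          (fun v => v % q ^ (L + k * b) = f), ∏ b' ∈ Finset.range (b + 1), kap q k L S θ b' v =
          (∏ b' ∈ Finset.range b, kap q k L S θ b' f) *
            ∑ v ∈ fib q k L S b f, kap q k L S θ b v := by
        rw [Finset.mul_sum]
        unfold fib
        refine Finset.sum_congr rfl fun v hv => ?_
        rw [Finset.mem_filter] at hv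
        rw [Finset.prod_range_succ]
        congr 1
        refine Finset.prod_congr rfl fun b' hb' => ?_
        rw [Finset.mem_range] at hb'
        rw [← hv.2, kap_mod S θ hb']
      rw [h1, mul_comm]
      refine mul_le_mul_of_nonneg_right (inner hq S θ b f hf) ?_
      exact Finset.prod_nonneg fun b' _ => kap_nonneg hθ b' f
    refine le_trans (Finset.sum_le_sum hstep) ?_
    rw [← Finset.mul_sum]
    calc 2 * ∑ f ∈ S.image (fun u => u % q ^ (L + k * b)),
          ∏ b' ∈ Finset.range b, kap q k L S θ b' f ≤ 2 * (2 ^ b * (q : ℝ) ^ L) :=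
            mul_le_mul_of_nonneg_left ih (by norm_num)
      _ = 2 ^ (b + 1) * (q : ℝ) ^ L := by ring

end

end Pool.Agent.LYD
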