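import Pool.Agent.LYD.Basic

set_option autoImplicit false

/-!
# LYD-KEY
-/

open MeasureTheory Filter Topology
open Pool.Agent.LYN
open scoped Classical

namespace Pool.Agent.LYD

noncomputable section

lemma KEY_iter (p n : ℕ) (x : Ci) : (fun y : Ci => p • y)^[n] x = p ^ n • x := by
  induction n with
  | zero => simp
  | succ n ih =>
    rw [Function.iterate_succ_apply', ih]
    show p • p ^ n • x = p ^ (n + 1) • x
    rw [← mul_smul, pow_succ']

lemma KEY_mem (D : Filter ℕ) (q p : ℕ) (x : Ci) (U : Set Ci)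
    (h : (fun y : Ci => p • y) '' Phi D q x = Phi D q (p • x)) :
    Phi D q (p • x) ∩ U = ∅ ↔ ∀ y ∈ Phi D q x, p • y ∉ U := by
  rw [← h]
  constructor
  · intro h1 y hy hyU
    have : p • y ∈ ((fun y : Ci => p • y) '' Phi D q x) ∩ U := ⟨⟨y, hy, rfl⟩, hyU⟩
    rw [h1] at this
    exact this
  · intro h1
    rw [Set.eq_empty_iff_forall_notMem]
    rintro z ⟨⟨y, hy, rfl⟩, hzU⟩
    exact h1 y hy hzU

theorem p_KEY (h_MAIN : T_MAIN) (h_REC : T_REC) (h_PHI : T_PHI) (h_MSF : T_MSF) : T_KEY := by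
  intro p q hp hq hind D hD hshift hms μ hμ hpres
  have hbasis := TopologicalSpace.isBasis_countableBasis Ci
  have key : ∀ᵐ x ∂μ, ∀ U ∈ TopologicalSpace.countableBasis Ci,
      Phi D q x ∩ U = ∅ → (Phi D q x).Finite := by
    rw [ae_ball_iff (TopologicalSpace.countable_countableBasis Ci)]
    intro U hU
    have hUo : IsOpen U := TopologicalSpace.isOpen_of_mem_countableBasis hU
    have hUn : U.Nonempty := TopologicalSpace.nonempty_of_mem_countableBasis hU
    have hG : MeasurableSet {x : Ci | Phi D q x ∩ U = ∅} := h_MSF D q hD hms U hUo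
    have hrec := h_REC μ (fun x : Ci => p • x) {x : Ci | Phi D q x ∩ U = ∅} hμ hpres hG
    filter_upwards [hrec] with x hx hxG
    by_contra hinf
    apply hx hxG
    obtain ⟨hcl, -, himg, hqinv, -⟩ := h_PHI D q x hD
    have hmain := h_MAIN p q hp hq hind (Phi D q x) hcl hinf (hqinv hshift) U hUo hUn
    rw [Metric.tendsto_atTop]
    intro ε hε
    obtain ⟨N0, hN0⟩ := hmain (ε / 2) (by linarith)
    refine ⟨N0 + 1, fun N hN => ?_⟩
    have hN1 : (0 : ℝ) < N := by
      have : 1 ≤ N := by omega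
      exact_mod_cast this
    have h1 := hN0 0 N (by omega)
    have hset : ((Finset.Ico 0 (0 + N)).filter fun n => ∀ y ∈ Phi D q x, p ^ n • y ∉ U) =
        (Finset.range N).filter
          (fun n => (fun x : Ci => p • x)^[n] x ∈ {x : Ci | Phi D q x ∩ U = ∅}) := by
      ext n
      rw [Finset.mem_filter, Finset.mem_filter, Finset.mem_Ico, Finset.mem_range, KEY_iter,
        Set.mem_ofPred_eq, KEY_mem D q (p ^ n) x U (himg (p ^ n))]
      simp
    rw [hset] at h1
    rw [Real.dist_eq, sub_zero, abs_of_nonneg (by positivity)]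
    rw [div_lt_iff₀ hN1]
    refine lt_of_le_of_lt h1 ?_
    nlinarith
  filter_upwards [key] with x hx
  by_cases hfin : (Phi D q x).Finite
  · exact Or.inl hfin
  · right
    intro U hU hUn
    obtain ⟨y, hy⟩ := hUn
    obtain ⟨V, hV, hyV, hVU⟩ := hbasis.exists_subset_of_mem_open hy hU
    have hne : Phi D q x ∩ V ≠ ∅ := fun h => hfin (hx V hV h)
    exact (Set.nonempty_iff_ne_empty.2 hne).mono (Set.inter_subset_inter_right _ hVU)

end

end Pool.Agent.LYD
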