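import Pool.Agent.LYD.Basic

set_option autoImplicit false

/-!
# LYD, target LTE: lifting the exponent
-/

namespace Pool.Agent.LYD

namespace LTE_

/-- lifting the exponent for numbers which are congruent modulo `Q ^ 2` -/
theorem val {X Y : ℤ} {Q l : ℕ} (hXY : (Q : ℤ) ^ 2 ∣ X - Y) (hl : l.Prime) (hlQ : l ∣ Q)
    (hX : ¬ (l : ℤ) ∣ X) (h : ℕ) :
    emultiplicity (l : ℤ) (X ^ h - Y ^ h) =
      emultiplicity (l : ℤ) (X - Y) + emultiplicity (l : ℤ) h := by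
  have h1 : (l : ℤ) ^ 2 ∣ X - Y :=
    (pow_dvd_pow_of_dvd (Int.natCast_dvd_natCast.2 hlQ) 2).trans hXY
  have h2 : (l : ℤ) ∣ X - Y := (dvd_pow_self _ two_ne_zero).trans h1
  rcases hl.eq_two_or_odd' with rfl | hodd
  · have h4 : (4 : ℤ) ∣ X - Y := by
      have : ((2 : ℕ) : ℤ) ^ 2 = 4 := by norm_num
      rwa [this] at h1
    have := Int.two_pow_sub_pow' (x := X) (y := Y) h h4 (by exact_mod_cast hX)
    exact_mod_cast this
  · have := Int.emultiplicity_pow_sub_pow hl hodd (x := X) (y := Y) h2 hX h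
    rw [this]
    congr 1
    exact Int.natCast_emultiplicity l h |>.symm

/-- Euler -/
theorem euler {w Q : ℕ} (hco : Nat.Coprime w Q) :
    (Q : ℤ) ^ 2 ∣ (w : ℤ) ^ Nat.totient (Q ^ 2) - 1 := by
  have h1 : w ^ Nat.totient (Q ^ 2) ≡ 1 [MOD Q ^ 2] :=
    Nat.ModEq.pow_totient (Nat.Coprime.pow_right 2 hco)
  have h2 := (Nat.modEq_iff_dvd.1 h1.symm)
  push_cast at h2
  exact h2

end LTE_

theorem p_LTE : T_LTE := by
  intro Q x y hQ hx hy hxy hxQ hyQ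
  obtain ⟨φ, hφ⟩ : ∃ φ, φ = Nat.totient (Q ^ 2) := ⟨_, rfl⟩
  have hφ0 : 0 < φ := by rw [hφ]; exact Nat.totient_pos.2 (by positivity)
  have hX1 : (Q : ℤ) ^ 2 ∣ (x : ℤ) ^ φ - 1 := by rw [hφ]; exact LTE_.euler hxQ
  have hY1 : (Q : ℤ) ^ 2 ∣ (y : ℤ) ^ φ - 1 := by rw [hφ]; exact LTE_.euler hyQ
  have hXY : (Q : ℤ) ^ 2 ∣ (x : ℤ) ^ φ - (y : ℤ) ^ φ := by
    have := dvd_sub hX1 hY1
    rwa [sub_sub_sub_cancel_right] at this
  have hne : (x : ℤ) ^ φ - (y : ℤ) ^ φ ≠ 0 := by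
    intro h
    have h1 : (x : ℤ) ^ φ = (y : ℤ) ^ φ := sub_eq_zero.1 h
    have h2 : x ^ φ = y ^ φ := by exact_mod_cast h1
    exact hxy (Nat.pow_left_injective hφ0.ne' h2)
  refine ⟨((x : ℤ) ^ φ - (y : ℤ) ^ φ).natAbs, Int.natAbs_pos.2 hne, ?_⟩
  intro a D k h ha hh hDQ hd
  have hd2 : (D : ℤ) ∣ a * (((x : ℤ) ^ φ) ^ h - ((y : ℤ) ^ φ) ^ h) := by
    refine hd.trans (mul_dvd_mul_left a ?_)
    rw [← pow_mul, ← pow_mul, mul_comm φ h, pow_mul, pow_mul]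
    exact sub_dvd_pow_sub_pow ((x : ℤ) ^ h) ((y : ℤ) ^ h) φ
  have key : D ∣ (a * (((x : ℤ) ^ φ - (y : ℤ) ^ φ) * h)).natAbs := by
    rw [Nat.dvd_iff_prime_pow_dvd_dvd]
    intro l j hl hj
    rcases Nat.eq_zero_or_pos j with rfl | hj0
    · simp
    have hlD : l ∣ D := (dvd_pow_self l hj0.ne').trans hj
    have hlQ : l ∣ Q := hl.dvd_of_dvd_pow (hlD.trans hDQ)
    have hlX : ¬ (l : ℤ) ∣ (x : ℤ) ^ φ := by
      intro h3
      have h4 : (l : ℤ) ∣ (x : ℤ) := Int.Prime.dvd_pow' hl h3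
      have h5 : l ∣ x := Int.natCast_dvd_natCast.1 h4
      have h6 : l ∣ Nat.gcd x Q := Nat.dvd_gcd h5 hlQ
      rw [hxQ] at h6
      exact hl.one_lt.ne' (Nat.dvd_one.1 h6)
    rw [← Int.natCast_dvd, Nat.cast_pow, pow_dvd_iff_le_emultiplicity]
    have h1 : (l : ℤ) ^ j ∣ a * (((x : ℤ) ^ φ) ^ h - ((y : ℤ) ^ φ) ^ h) := by
      refine dvd_trans ?_ hd2
      exact_mod_cast hj
    rw [pow_dvd_iff_le_emultiplicity, emultiplicity_mul (Nat.prime_iff_prime_int.1 hl),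
      LTE_.val hXY hl hlQ hlX] at h1
    rwa [emultiplicity_mul (Nat.prime_iff_prime_int.1 hl),
      emultiplicity_mul (Nat.prime_iff_prime_int.1 hl)]
  have hnat : (a * (((x : ℤ) ^ φ - (y : ℤ) ^ φ) * h)).natAbs =
      ((x : ℤ) ^ φ - (y : ℤ) ^ φ).natAbs * a.natAbs * h := by
    rw [Int.natAbs_mul, Int.natAbs_mul, Int.natAbs_natCast]
    ring
  rw [hnat] at key
  exact Nat.le_of_dvd (Nat.mul_pos (Nat.mul_pos (Int.natAbs_pos.2 hne) (Int.natAbs_pos.2 ha))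
    (by omega)) key

end Pool.Agent.LYD
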