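import Pool.Agent.LYD.Basic

set_option autoImplicit false

/-!
# LYD-MAIN: the theorem on closed sets, from the case of the decomposition `Dat` (helper12, for helper32)
-/

open MeasureTheory Filter Topology
open Pool.Agent.LYN
open scoped Classical

namespace Pool.Agent.LYD

noncomputable section

namespace MAIN_

/-- the image of `F` under multiplication by `m` -/
def im (m : ℕ) (F : Set Ci) : Set Ci := (fun x : Ci => m • x) '' F

lemma fib_finite {m : ℕ} (hm : 0 < m) (b : Ci) : ((fun x : Ci => m • x) ⁻¹' {b}).Finite := by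
  rcases Set.eq_empty_or_nonempty ((fun x : Ci => m • x) ⁻¹' {b}) with h | ⟨x0, hx0⟩
  · rw [h]; exact Set.finite_empty
  · have h1 : (fun x : Ci => m • x) ⁻¹' {b} ⊆
        (fun u : Ci => x0 + u) '' {u : Ci | m • u = 0} := by
      intro x hx
      refine ⟨x - x0, ?_, by simp⟩
      have hx' : m • x = b := hx
      have hx0' : m • x0 = b := hx0
      show m • (x - x0) = 0
      rw [smul_sub, hx', hx0', sub_self]
    exact ((AddCircle.finite_torsion (1 : ℝ) hm).image _).subset h1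

lemma im_infinite {m : ℕ} (hm : 0 < m) {F : Set Ci} (hF : F.Infinite) : (im m F).Infinite := by
  intro h
  apply hF
  have h2 : ((fun x : Ci => m • x) ⁻¹' (im m F)).Finite :=
    h.preimage' fun b _ => fib_finite hm b
  exact h2.subset (Set.subset_preimage_image _ _)

lemma im_closed (m : ℕ) {F : Set Ci} (hF : IsClosed F) : IsClosed (im m F) :=
  (hF.isCompact.image (continuous_id.const_smul m)).isClosed

lemma im_inv (m q : ℕ) {F : Set Ci} (hF : (fun x : Ci => q • x) '' F = F) :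
    (fun x : Ci => q • x) '' (im m F) = im m F := by
  unfold im
  conv_rhs => rw [← hF]
  rw [Set.image_image, Set.image_image]
  exact Set.image_congr fun x _ => smul_comm q m x

lemma div_lt {b x N n : ℕ} (hb : 1 ≤ b) (h : n < x + N) : n / b < x / b + (N / b + 2) := by
  rw [Nat.div_lt_iff_lt_mul (by omega)]
  have h1 := Nat.lt_div_mul_add (a := x) (b := b) (by omega)
  have h2 := Nat.lt_div_mul_add (a := N) (b := b) (by omega)
  calc n < x + N := h
    _ ≤ (x / b * b + b) + (N / b * b + b) := by omega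
    _ = (x / b + (N / b + 2)) * b := by ring

/-- counting along residue classes -/
lemma count {b : ℕ} (hb : 1 ≤ b) (W : ℕ → Prop) (V : ℕ → ℕ → Prop)
    (hWV : ∀ n, W n → V (n % b) (n / b)) (x N : ℕ) (δ : ℝ)
    (hV : ∀ i < b, (((Finset.Ico (x / b) (x / b + (N / b + 2))).filter (V i)).card : ℝ) ≤
      δ * ((N / b + 2 : ℕ) : ℝ)) :
    (((Finset.Ico x (x + N)).filter W).card : ℝ) ≤ b * (δ * ((N / b + 2 : ℕ) : ℝ)) := by
  have h1 : ((Finset.Ico x (x + N)).filter W).card ≤
      ((Finset.range b).sigma fun i => (Finset.Ico (x / b) (x / b + (N / b + 2))).filter (V i)).card := by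
    refine Finset.card_le_card_of_injOn (fun n => (⟨n % b, n / b⟩ : Σ _ : ℕ, ℕ)) ?_ ?_
    · intro n hn
      have hn' := Finset.mem_filter.1 (Finset.mem_coe.1 hn)
      have hn2 := Finset.mem_Ico.1 hn'.1
      refine Finset.mem_coe.2 (Finset.mem_sigma.2 ⟨Finset.mem_range.2 (Nat.mod_lt _ (by omega)),
        Finset.mem_filter.2 ⟨Finset.mem_Ico.2 ⟨Nat.div_le_div_right hn2.1, div_lt hb hn2.2⟩,
          hWV n hn'.2⟩⟩)
    · intro n _ n' _ h
      have h' := Sigma.mk.inj_iff.1 h
      have e1 : n % b = n' % b := h'.1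
      have e2 : n / b = n' / b := eq_of_heq h'.2
      rw [← Nat.div_add_mod n b, ← Nat.div_add_mod n' b, e1, e2]
  have h2 : (((Finset.range b).sigma fun i =>
      (Finset.Ico (x / b) (x / b + (N / b + 2))).filter (V i)).card : ℝ) ≤
        b * (δ * ((N / b + 2 : ℕ) : ℝ)) := by
    rw [Finset.card_sigma, Nat.cast_sum]
    calc ∑ i ∈ Finset.range b, (((Finset.Ico (x / b) (x / b + (N / b + 2))).filter (V i)).card : ℝ)
        ≤ ∑ _i ∈ Finset.range b, δ * ((N / b + 2 : ℕ) : ℝ) :=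
          Finset.sum_le_sum fun i hi => hV i (Finset.mem_range.1 hi)
      _ = b * (δ * ((N / b + 2 : ℕ) : ℝ)) := by
          rw [Finset.sum_const, Finset.card_range, nsmul_eq_mul]
  exact (Nat.cast_le.2 h1).trans h2

end MAIN_

open MAIN_ in
theorem p_MAIN (h_STR : T_STR) (h_COH : T_COH) (h_MN1 : T_MN1) : T_MAIN := by
  intro p q hp hq hind F hFc hFi hqF U hU hUne δ hδ
  obtain ⟨b, hb, g, Q, P, hD⟩ := h_STR p q hp hq hind
  have key : ∀ i : ℕ, ∃ N0 : ℕ, ∀ x N : ℕ, N0 ≤ N →
      (((Finset.Ico x (x + N)).filter fun n => ∀ y ∈ im (p ^ i) F, (p ^ b) ^ n • y ∉ U).card : ℝ) ≤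
        (δ / 2) * N := by
    intro i
    have hpi : 0 < p ^ i := Nat.pow_pos (by omega)
    have hinv := im_inv (p ^ i) q hqF
    obtain ⟨d, hd, hd2⟩ := h_COH q (im (p ^ i) F) hq (im_closed _ hFc) (im_infinite hpi hFi) hinv
    refine h_MN1 (p ^ b) q g Q P hD (im (p ^ i) F) d ?_ hd hd2 U hU hUne (δ / 2) (by linarith)
    intro x hx
    rw [← hinv]
    exact ⟨x, hx, rfl⟩
  choose N0 hN0 using key
  refine ⟨b * ((Finset.range b).sup N0 + 2), ?_⟩
  intro x N hN
  have hNb : (Finset.range b).sup N0 + 2 ≤ N / b := by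
    rw [Nat.le_div_iff_mul_le (by omega)]
    rw [mul_comm]
    exact hN
  have hc := count hb (fun n => ∀ y ∈ F, p ^ n • y ∉ U)
    (fun i n => ∀ y ∈ im (p ^ i) F, (p ^ b) ^ n • y ∉ U) (by
      intro n hn y hy
      obtain ⟨z, hz, rfl⟩ := hy
      have e : (p ^ b) ^ (n / b) • (fun x : Ci => p ^ (n % b) • x) z = p ^ n • z := by
        show (p ^ b) ^ (n / b) • p ^ (n % b) • z = p ^ n • z
        rw [← mul_smul, ← pow_mul, ← pow_add, Nat.div_add_mod]
      rw [e]
      exact hn z hz) x N (δ / 2) (by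
      intro i hi
      refine hN0 i _ _ ?_
      have h3 : N0 i ≤ (Finset.range b).sup N0 := Finset.le_sup (f := N0) (Finset.mem_range.2 hi)
      omega)
  refine hc.trans ?_
  have hbR : (0 : ℝ) < b := by exact_mod_cast hb
  have h4 : ((N / b : ℕ) : ℝ) * b ≤ N := by
    have := Nat.div_mul_le_self N b
    exact_mod_cast this
  have h5 : (2 : ℝ) ≤ ((N / b : ℕ) : ℝ) := by
    have h6 : 2 ≤ N / b := by omega
    exact_mod_cast h6
  push_cast
  have h7 : (b : ℝ) * (δ / 2 * (((N / b : ℕ) : ℝ) + 2)) ≤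
      (b : ℝ) * (δ / 2 * (((N / b : ℕ) : ℝ) + ((N / b : ℕ) : ℝ))) := by
    gcongr
  calc (b : ℝ) * (δ / 2 * (((N / b : ℕ) : ℝ) + 2))
      ≤ (b : ℝ) * (δ / 2 * (((N / b : ℕ) : ℝ) + ((N / b : ℕ) : ℝ))) := h7
    _ = δ * (((N / b : ℕ) : ℝ) * b) := by ring
    _ ≤ δ * N := by gcongr

end

end Pool.Agent.LYD
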