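import Pool.Agent.LYD.Basic

set_option autoImplicit false

/-!
# LYD: T_MLT (helper9)
-/

open MeasureTheory Filter Topology
open Pool.Agent.LYN
open scoped Classical

namespace Pool.Agent.LYD

noncomputable section

namespace MLT_

theorem relW {p q g : ℕ} {Q P : ℕ → ℕ} (D : Dat p q g Q P) {i : ℕ} (hi : i < g) {d : ℕ → Ci}
    (hd : ∀ k, q • d (k + 1) = d k) (m n h : ℕ) :
    co Q g i ^ (i * h) • (p ^ (n + h) • d (i * (n + h) + m)) =
      P i ^ h • (p ^ n • d (i * n + m)) := by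
  have h1 : i * (n + h) + m = (i * n + m) + i * h := by ring
  have h2 : co Q g i ^ (i * h) * p ^ (n + h) = P i ^ h * p ^ n * q ^ (i * h) := by
    rw [pow_add, D.p_pow hi h]
    have h3 : q ^ (i * h) = Q i ^ (i * h) * co Q g i ^ (i * h) := by
      rw [← mul_pow, ← D.q_eq hi]
    rw [h3]
    ring
  rw [← mul_smul, h2, h1, mul_smul, coh_pow hd, mul_smul]

theorem ord_smul {x : Ci} {k M : ℕ} (h : addOrderOf x ∣ M) (hc : Nat.Coprime k M) :
    addOrderOf (k • x) = addOrderOf x :=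
  Nat.Coprime.addOrderOf_nsmul ((Nat.Coprime.coprime_dvd_right h hc).symm)

end MLT_

open MLT_ in
theorem p_MLT (h_LTE : T_LTE) (h_SPC : T_SPC) : T_MLT := by
  intro p q g Q P hD i hi
  have hcoW : Nat.Coprime (co Q g i) (Q i) := hD.co_cop hi
  obtain ⟨C, hC1, hC⟩ := h_LTE (Q i) (P i) (co Q g i ^ i) (hD.Q_pos hi) (hD.P_pos hi)
    (Nat.one_le_pow _ _ (hD.co_pos hi)) (hD.ne hi) (hD.copP i hi) (Nat.Coprime.pow_left i hcoW)
  refine ⟨C, hC1, fun d m hd hz => ?_⟩
  have hdvd : ∀ n, m ≤ n → addOrderOf (p ^ n • d (i * n + m)) ∣ Q i ^ m := fun n hn =>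
    addOrderOf_dvd_of_nsmul_eq_zero (hz n hn)
  have hord : ∀ n, m ≤ n → addOrderOf (p ^ n • d (i * n + m)) =
      addOrderOf (p ^ m • d (i * m + m)) := by
    intro n hn
    obtain ⟨h, rfl⟩ := Nat.exists_eq_add_of_le hn
    have h1 := relW hD hi hd m m h
    have h2 := ord_smul (k := co Q g i ^ (i * h)) (hdvd (m + h) hn)
      (Nat.Coprime.pow _ _ hcoW)
    have h3 := ord_smul (k := P i ^ h) (hdvd m le_rfl) (Nat.Coprime.pow _ _ (hD.copP i hi))
    rw [← h2, ← h3, h1]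
  have hQm : 0 < Q i ^ m := Nat.pos_of_ne_zero (by
    have := hD.Q_pos hi
    positivity)
  refine ⟨addOrderOf (p ^ m • d (i * m + m)), Nat.pos_of_dvd_of_pos (hdvd m le_rfl) hQm,
    hdvd m le_rfl, hord, fun x N hx t => ?_⟩
  refine h_SPC _ x N _ C (fun n hn => ?_) (fun n hn n' hn' hlt => ?_)
  · rw [Finset.mem_filter, Finset.mem_Ico] at hn
    exact hn.1
  · rw [Finset.mem_filter, Finset.mem_Ico] at hn hn'
    obtain ⟨h, rfl⟩ := Nat.exists_eq_add_of_le hlt.le
    have hh : 1 ≤ h := by omega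
    have hn0 : m ≤ n := by omega
    have h1 := relW hD hi hd m n h
    rw [hn.2, hn'.2] at h1
    have hot : addOrderOf t = addOrderOf (p ^ m • d (i * m + m)) := by
      rw [← hord n hn0, hn.2]
    have h2 : ((P i : ℤ) ^ h - ((co Q g i ^ i : ℕ) : ℤ) ^ h) • t = 0 := by
      rw [sub_smul, sub_eq_zero]
      have e1 : ((P i : ℤ) ^ h) • t = P i ^ h • t := by
        rw [← natCast_zsmul]
        push_cast
        rfl
      have e2 : (((co Q g i ^ i : ℕ) : ℤ) ^ h) • t = co Q g i ^ (i * h) • t := by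
        rw [← natCast_zsmul]
        push_cast
        rw [pow_mul]
      rw [e1, e2, h1]
    have h3 : (addOrderOf t : ℤ) ∣ 1 * ((P i : ℤ) ^ h - ((co Q g i ^ i : ℕ) : ℤ) ^ h) := by
      rw [one_mul]
      exact addOrderOf_dvd_iff_zsmul_eq_zero.2 h2
    have h4 := hC 1 (addOrderOf t) m h one_ne_zero hh (by
      rw [hot]
      exact hdvd m le_rfl) h3
    rw [hot] at h4
    simpa using h4

end

end Pool.Agent.LYD
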