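import Pool.Agent.LYD.Basic

set_option autoImplicit false

/-!
# LYD-MN1: the Banach density theorem for one decomposed pair
-/

open MeasureTheory Filter Topology
open Pool.Agent.LYN
open scoped Classical

namespace Pool.Agent.LYD

noncomputable section

namespace MN1_

/-- the open arc number `h` of length `1 / R` -/
def V (R h : ℕ) : Set Ci := (fun t : ℝ => (t : Ci)) '' Set.Ioo ((h : ℝ) / R) (((h : ℝ) + 1) / R)

lemma V_open (R h : ℕ) : IsOpen (V R h) :=
  QuotientAddGroup.isOpenMap_coe _ isOpen_Ioo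

lemma V_ne {R : ℕ} (hR : 1 ≤ R) (h : ℕ) : (V R h).Nonempty := by
  have hR' : (0 : ℝ) < R := by exact_mod_cast hR
  refine Set.Nonempty.image _ (Set.nonempty_Ioo.2 ?_)
  exact div_lt_div_of_pos_right (by linarith) hR'

/-- shift of the counting window -/
lemma shift (p n L : ℕ) (F U : Set Ci) :
    ((Finset.Ico n (n + L)).filter fun m => ∀ y ∈ F, p ^ m • y ∉ U).card =
      ((Finset.range L).filter fun j => ∀ x ∈ (fun y : Ci => p ^ n • y) '' F, p ^ j • x ∉ U).card := by
  symm
  refine Finset.card_bij (fun j _ => n + j) ?_ ?_ ?_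
  · intro j hj
    rw [Finset.mem_filter, Finset.mem_range] at hj
    rw [Finset.mem_filter, Finset.mem_Ico]
    refine ⟨⟨by omega, by omega⟩, fun y hy => ?_⟩
    have := hj.2 (p ^ n • y) ⟨y, hy, rfl⟩
    rwa [← mul_smul, ← pow_add, add_comm j n] at this
  · intro a _ b _ hab
    exact Nat.add_left_cancel hab
  · intro m hm
    rw [Finset.mem_filter, Finset.mem_Ico] at hm
    refine ⟨m - n, ?_, by omega⟩
    rw [Finset.mem_filter, Finset.mem_range]
    refine ⟨by omega, ?_⟩
    rintro _ ⟨y, hy, rfl⟩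
    have h1 := hm.2 y hy
    have h2 : p ^ (m - n) • p ^ n • y = p ^ m • y := by
      rw [← mul_smul, ← pow_add]
      congr 2
      omega
    simp only
    rwa [h2]

end MN1_

open MN1_ in
theorem p_MN1 (h_BMP : T_BMP) (h_CD : T_CD) (h_A : T_A) (h_DIF : T_DIF) (h_GRD : T_GRD) :
    T_MN1 := by
  intro p q g Q P D F d hF hd hdF U hU hUne δ hδ
  obtain ⟨s, c, hsc⟩ := h_BMP U hU hUne
  obtain ⟨M, Nm, hNm, hM⟩ := h_CD p q g Q P D U s c hsc (δ / 3) (by positivity)
  have hq := D.hq
  have hRpos : 1 ≤ q ^ M := Nat.one_le_pow _ _ (by omega)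
  obtain ⟨R, hR⟩ : ∃ R, R = q ^ M := ⟨_, rfl⟩
  rw [← hR] at hM hRpos
  have hRr : (0 : ℝ) < R := by exact_mod_cast hRpos
  have hA := fun h : ℕ => h_A p q g Q P D d hd (V R h) (V_open R h) (V_ne hRpos h)
    (δ / (3 * R)) (by positivity)
  choose N0 hN0 using hA
  refine ⟨max Nm ((Finset.range R).sup N0), fun x N hN => ?_⟩
  have hNNm : Nm ≤ N := (le_max_left _ _).trans hN
  have hNh : ∀ h < R, N0 h ≤ N := fun h hh =>
    ((Finset.le_sup (f := N0) (Finset.mem_range.2 hh)).trans (le_max_right _ _)).trans hN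
  obtain ⟨B, hBd⟩ : ∃ B : ℕ → Prop, ∀ n, B n ↔ ∃ h < R, ∀ k, p ^ n • d k ∉ V R h :=
    ⟨_, fun n => Iff.rfl⟩
  have key := h_GRD (fun n => ∀ y ∈ F, p ^ n • y ∉ U) B (δ / 3) Nm (by positivity) (by
      intro n hn
      rw [hBd] at hn
      push Not at hn
      have h1 : R ≤ 2 * (vis R ((fun y : Ci => p ^ n • y) '' F)).card ^ 2 := by
        refine h_DIF R _ hRpos fun h hh => ?_
        obtain ⟨k, t, ht, htk⟩ := hn h hh
        obtain ⟨a, ha, b, hb, hab⟩ := hdF k
        refine ⟨_, ⟨a, ha, rfl⟩, _, ⟨b, hb, rfl⟩, t, ht.1, ht.2, ?_⟩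
        simp only at htk ⊢
        rw [htk, hab, smul_sub]
      obtain ⟨L, hL1, hL2, hL3⟩ := hM _ (by
        rintro _ ⟨y, hy, rfl⟩
        exact ⟨q • y, hF y hy, by simp only; rw [smul_comm]⟩) h1
      refine ⟨L, hL1, hL2, ?_⟩
      rw [shift]
      exact hL3) x N
  have hB : (((Finset.Ico x (x + N)).filter B).card : ℝ) ≤
      δ / 3 * N := by
    have hsub : ((Finset.Ico x (x + N)).filter B) ⊆
        (Finset.range R).biUnion fun h =>
          (Finset.Ico x (x + N)).filter fun n => ∀ k, p ^ n • d k ∉ V R h := by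
      intro n hn
      rw [Finset.mem_filter, hBd] at hn
      obtain ⟨h1, h, hh, h2⟩ := hn
      rw [Finset.mem_biUnion]
      exact ⟨h, Finset.mem_range.2 hh, Finset.mem_filter.2 ⟨h1, h2⟩⟩
    calc (((Finset.Ico x (x + N)).filter B).card : ℝ)
        ≤ ((∑ h ∈ Finset.range R,
            ((Finset.Ico x (x + N)).filter fun n => ∀ k, p ^ n • d k ∉ V R h).card : ℕ) : ℝ) := by
          exact_mod_cast (Finset.card_le_card hsub).trans Finset.card_biUnion_le
      _ = ∑ h ∈ Finset.range R,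
            (((Finset.Ico x (x + N)).filter fun n => ∀ k, p ^ n • d k ∉ V R h).card : ℝ) := by
          push_cast
          rfl
      _ ≤ ∑ _h ∈ Finset.range R, δ / (3 * R) * N :=
          Finset.sum_le_sum fun h hh => hN0 h x N (hNh h (Finset.mem_range.1 hh))
      _ = δ / 3 * N := by
          rw [Finset.sum_const, Finset.card_range, nsmul_eq_mul]
          field_simp
  have hNm' : (Nm : ℝ) ≤ N := by exact_mod_cast hNNm
  refine key.trans ?_
  have h3 : δ / 3 * ((N : ℝ) + Nm) ≤ δ / 3 * (N + N) := by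
    refine mul_le_mul_of_nonneg_left ?_ (by positivity)
    linarith
  linarith

end

end Pool.Agent.LYD
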