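import Pool.Agent.LYD.Basic

set_option autoImplicit false

/-!
# LYD-MSF (helper17): measurability of the set of points whose cluster set misses `U`
-/

open MeasureTheory Filter Topology
open Pool.Agent.LYN
open scoped Classical

namespace Pool.Agent.LYD

namespace MSF_

/-- points at distance at least `1/(r+1)` from the complement of `U` -/
def K (U : Set Ci) (r : ℕ) : Set Ci := {y | ((r : ENNReal) + 1)⁻¹ ≤ Metric.infEDist y Uᶜ}

lemma K_closed (U : Set Ci) (r : ℕ) : IsClosed (K U r) :=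
  isClosed_le continuous_const Metric.continuous_infEDist

lemma K_sub (U : Set Ci) (r : ℕ) : K U r ⊆ U := by
  intro y hy
  by_contra h
  have h1 : Metric.infEDist y Uᶜ = 0 := Metric.infEDist_zero_of_mem h
  have h2 : ((r : ENNReal) + 1)⁻¹ ≤ 0 := h1 ▸ hy
  have h3 : ((r : ENNReal) + 1)⁻¹ = 0 := le_antisymm h2 bot_le
  rw [ENNReal.inv_eq_zero] at h3
  exact absurd h3 (by finiteness)

lemma exists_K (U : Set Ci) (hU : IsOpen U) (y : Ci) (hy : y ∈ U) :
    ∃ r : ℕ, K U r ∈ 𝓝 y := by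
  have h1 : Metric.infEDist y Uᶜ ≠ 0 := by
    intro h
    have h2 : y ∈ closure Uᶜ := Metric.mem_closure_iff_infEDist_zero.2 h
    rw [hU.isClosed_compl.closure_eq] at h2
    exact h2 hy
  obtain ⟨r, hr⟩ := ENNReal.exists_inv_nat_lt h1
  refine ⟨r, ?_⟩
  have h3 : {z : Ci | ((r : ENNReal) + 1)⁻¹ < Metric.infEDist z Uᶜ} ∈ 𝓝 y := by
    refine IsOpen.mem_nhds (isOpen_lt continuous_const Metric.continuous_infEDist) ?_
    refine lt_of_le_of_lt ?_ hr
    exact ENNReal.inv_le_inv.2 le_self_add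
  refine mem_of_superset h3 fun z hz => ?_
  rw [Set.mem_setOf_eq] at hz
  exact hz.le

lemma key (D : Filter ℕ) (q : ℕ) (U : Set Ci) (hU : IsOpen U) (x : Ci) :
    Phi D q x ∩ U = ∅ ↔ ∀ r : ℕ, ∀ᶠ j in D, q ^ j • x ∉ K U r := by
  constructor
  · intro h r
    by_contra hc
    have h1 : ∃ᶠ j in D, q ^ j • x ∈ K U r := by
      intro h2
      exact hc h2
    obtain ⟨a, ha, hcl⟩ := (K_closed U r).isCompact.exists_mapClusterPt_of_frequently h1
    have h2 : a ∈ Phi D q x ∩ U := ⟨hcl, K_sub U r ha⟩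
    rw [h] at h2
    exact h2
  · intro h
    rw [Set.eq_empty_iff_forall_notMem]
    rintro y ⟨hy, hyU⟩
    obtain ⟨r, hr⟩ := exists_K U hU y hyU
    have h1 : ∃ᶠ j in D, q ^ j • x ∈ K U r := (mapClusterPt_iff_frequently.1 hy) _ hr
    exact h1 (h r)

end MSF_

theorem p_MSF : T_MSF := by
  intro D q _ hK U hU
  have h : {x : Ci | Phi D q x ∩ U = ∅} = ⋂ r : ℕ, {x : Ci | ∀ᶠ j in D, q ^ j • x ∉ MSF_.K U r} := by
    ext x
    rw [Set.mem_iInter]
    exact MSF_.key D q U hU x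
  rw [h]
  exact MeasurableSet.iInter fun r => hK _ (MSF_.K_closed U r)

end Pool.Agent.LYD
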