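import Pool.Agent.LYD.Basic

set_option autoImplicit false

/-!
# LYD-NDV: divisors of `a q^j` made of the primes of `Q`
-/

open MeasureTheory Filter Topology
open Pool.Agent.LYN
open scoped Classical

namespace Pool.Agent.LYD

namespace NDV_

/-- a divisor of a power of `Q` divides the power of exponent itself -/
lemma dvd_self_pow {Q m G : ℕ} (hQ : 1 ≤ Q) (h : G ∣ Q ^ m) : G ∣ Q ^ G := by
  have hQ0 : Q ≠ 0 := by omega
  have hG0 : G ≠ 0 := by
    rintro rfl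
    exact pow_ne_zero m hQ0 (Nat.eq_zero_of_zero_dvd h)
  rw [← Nat.factorization_prime_le_iff_dvd hG0 (pow_ne_zero _ hQ0)]
  intro l hl
  rw [Nat.factorization_pow, Finsupp.smul_apply, smul_eq_mul]
  by_cases h1 : l ∣ G
  · have h2 : l ∣ Q := hl.dvd_of_dvd_pow (h1.trans h)
    have h3 : 1 ≤ Q.factorization l := hl.factorization_pos_of_dvd hQ0 h2
    have h4 : G.factorization l < G := Nat.factorization_lt l hG0
    nlinarith
  · rw [Nat.factorization_eq_zero_of_not_dvd h1]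
    exact Nat.zero_le _

end NDV_

theorem p_NDV : T_NDV := by
  intro Q W j D m a hQ ha hWQ hD h
  have hQ0 : Q ≠ 0 := by omega
  -- `D` divides `|a| Q^j`
  have h1 : D ∣ a.natAbs * Q ^ j := by
    have h2 : D ∣ (a * ((Q : ℤ) * W) ^ j).natAbs := Int.natCast_dvd.1 h
    have h3 : (a * ((Q : ℤ) * W) ^ j).natAbs = (a.natAbs * Q ^ j) * W ^ j := by
      rw [Int.natAbs_mul, Int.natAbs_pow, Int.natAbs_mul, Int.natAbs_natCast, Int.natAbs_natCast, mul_pow]
      ring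
    rw [h3] at h2
    have h4 : Nat.Coprime D (W ^ j) :=
      Nat.Coprime.coprime_dvd_left hD (Nat.Coprime.pow m j hWQ.symm)
    exact h4.dvd_of_dvd_mul_right h2
  have hD0 : 0 < D := by
    rcases Nat.eq_zero_or_pos D with h2 | h2
    · rw [h2] at hD
      exact absurd (Nat.eq_zero_of_zero_dvd hD) (pow_ne_zero m hQ0)
    · exact h2
  have hg : 0 < Nat.gcd D (Q ^ j) := Nat.gcd_pos_of_pos_left _ hD0
  obtain ⟨G, hG⟩ := Nat.gcd_dvd_left D (Q ^ j)
  have hG2 : D / Nat.gcd D (Q ^ j) = G := by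
    exact Nat.div_eq_of_eq_mul_right hg hG
  have hcop : Nat.Coprime G (Q ^ j / Nat.gcd D (Q ^ j)) := by
    rw [← hG2]
    exact Nat.coprime_div_gcd_div_gcd hg
  have hGa : G ∣ a.natAbs := by
    refine hcop.dvd_of_dvd_mul_right ?_
    have h5 : Nat.gcd D (Q ^ j) * G ∣ Nat.gcd D (Q ^ j) * (a.natAbs * (Q ^ j / Nat.gcd D (Q ^ j))) := by
      have h6 : Nat.gcd D (Q ^ j) * (a.natAbs * (Q ^ j / Nat.gcd D (Q ^ j))) = a.natAbs * Q ^ j := by
        rw [mul_left_comm, Nat.mul_div_cancel' (Nat.gcd_dvd_right D (Q ^ j))]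
      rw [h6, ← hG]
      exact h1
    exact Nat.dvd_of_mul_dvd_mul_left hg h5
  have hGle : G ≤ a.natAbs := Nat.le_of_dvd (Int.natAbs_pos.2 ha) hGa
  have hGD : G ∣ D := ⟨_, by rw [mul_comm]; exact hG⟩
  have hGQ : G ∣ Q ^ a.natAbs := (NDV_.dvd_self_pow hQ (hGD.trans hD)).trans (pow_dvd_pow Q hGle)
  calc D = Nat.gcd D (Q ^ j) * G := hG
    _ ∣ Q ^ j * Q ^ a.natAbs := mul_dvd_mul (Nat.gcd_dvd_right D (Q ^ j)) hGQ
    _ = Q ^ (j + a.natAbs) := (pow_add Q j _).symm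

end Pool.Agent.LYD
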