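import Pool.Agent.LYD.Basic

set_option autoImplicit false

/-!
# LYD-OMI: the limit set of an infinite orbit is infinite (helper49)
-/

open MeasureTheory Filter Topology
open Pool.Agent.LYN
open scoped Classical

namespace Pool.Agent.LYD

namespace OMI_

/-- multiplication by `q` expands small elements -/
lemma expand {q : ℕ} (hq : 1 ≤ q) {z : Ci} (hz : ‖z‖ < 1 / (2 * (q : ℝ))) :
    ‖q • z‖ = q * ‖z‖ := by
  have hq0 : (0 : ℝ) < q := by exact_mod_cast hq
  obtain ⟨t, rfl⟩ := QuotientAddGroup.mk_surjective z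
  change ‖((t : ℝ) : UnitAddCircle)‖ < _ at hz
  change ‖q • ((t : ℝ) : UnitAddCircle)‖ = q * ‖((t : ℝ) : UnitAddCircle)‖
  have h1 : ((t : ℝ) : UnitAddCircle) = ((t - round t : ℝ) : UnitAddCircle) := by
    rw [AddCircle.coe_sub]
    have : ((round t : ℝ) : UnitAddCircle) = 0 := by
      rw [AddCircle.coe_eq_zero_iff]
      exact ⟨round t, by simp⟩
    rw [this, sub_zero]
  have h2 : ‖((t : ℝ) : UnitAddCircle)‖ = |t - round t| := UnitAddCircle.norm_eq
  set s : ℝ := t - round t with hs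
  rw [h2] at hz
  have h3 : q • ((t : ℝ) : UnitAddCircle) = ((q * s : ℝ) : UnitAddCircle) := by
    rw [h1, ← AddCircle.coe_nsmul, nsmul_eq_mul]
  have h4 : |(q : ℝ) * s| ≤ |(1 : ℝ)| / 2 := by
    rw [abs_mul, abs_of_pos hq0, abs_one]
    have : (q : ℝ) * |s| < q * (1 / (2 * q)) := mul_lt_mul_of_pos_left hz hq0
    have h5 : (q : ℝ) * (1 / (2 * q)) = 1 / 2 := by field_simp
    linarith
  rw [h3, (AddCircle.norm_coe_eq_abs_iff 1 one_ne_zero).2 h4, h2, abs_mul, abs_of_pos hq0]

/-- if `q ^ j • y` is small for all large `j`, then `q ^ J • y = 0` for some `J` -/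
lemma eventually_zero {q : ℕ} (hq : 2 ≤ q) {y : Ci}
    (h : ∀ᶠ j : ℕ in atTop, ‖q ^ j • y‖ < 1 / (2 * (q : ℝ))) : ∃ J : ℕ, q ^ J • y = 0 := by
  obtain ⟨J, hJ⟩ := eventually_atTop.1 h
  refine ⟨J, ?_⟩
  have h1 : ∀ k : ℕ, ‖q ^ (J + k) • y‖ = (q : ℝ) ^ k * ‖q ^ J • y‖ := by
    intro k
    induction k with
    | zero => simp
    | succ k ih =>
      have h2 : q ^ (J + (k + 1)) • y = q • q ^ (J + k) • y := by
        rw [← mul_smul, ← add_assoc, pow_succ, mul_comm]
      rw [h2, expand (by omega) (hJ _ (by omega)), ih, pow_succ]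
      ring
  by_contra hne
  have hpos : 0 < ‖q ^ J • y‖ := norm_pos_iff.2 hne
  obtain ⟨k, hk⟩ := pow_unbounded_of_one_lt (1 / ‖q ^ J • y‖)
    (show (1 : ℝ) < q by exact_mod_cast (by omega : 1 < q))
  have h3 := hJ (J + k) (by omega)
  rw [h1 k] at h3
  rw [div_lt_iff₀ hpos] at hk
  have h4 : (1 : ℝ) / (2 * q) ≤ 1 := by
    have : (2 : ℝ) ≤ q := by exact_mod_cast hq
    rw [div_le_one (by positivity)]
    linarith
  linarith

end OMI_

open OMI_ in
theorem p_OMI (h_PHI : T_PHI) : T_OMI := by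
  intro q x hq hx hfin
  change (Phi atTop q x).Finite at hfin
  obtain ⟨_, _, _, himg, hV⟩ := h_PHI atTop q x inferInstance
  have himg' := himg (Filter.map_add_atTop_eq_nat 1)
  set E := Phi atTop q x with hE
  have hmap : ∀ e ∈ E, ∀ i : ℕ, q ^ i • e ∈ E := by
    intro e he i
    induction i with
    | zero => simpa using he
    | succ i ih =>
      rw [pow_succ, mul_comm, mul_smul, ← himg']
      exact ⟨_, ih, rfl⟩
  have hord : ∀ e ∈ E, IsOfFinAddOrder e := by
    intro e he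
    have : Finite E := hfin
    obtain ⟨i, i', hne, heq⟩ := Finite.exists_ne_map_eq_of_infinite
      (fun i : ℕ => (⟨q ^ i • e, hmap e he i⟩ : E))
    have heq' : q ^ i • e = q ^ i' • e := congrArg Subtype.val heq
    have key : ∀ a b : ℕ, a < b → q ^ a • e = q ^ b • e → IsOfFinAddOrder e := by
      intro a b hab h
      rw [isOfFinAddOrder_iff_nsmul_eq_zero]
      have hlt : q ^ a < q ^ b := Nat.pow_lt_pow_right (by omega) hab
      refine ⟨q ^ b - q ^ a, by omega, ?_⟩
      have h2 : (q ^ b - q ^ a) • e + q ^ a • e = q ^ b • e := by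
        rw [← add_nsmul, Nat.sub_add_cancel hlt.le]
      rw [← h] at h2
      simpa using h2
    rcases lt_or_gt_of_ne hne with h | h
    · exact key i i' h heq'
    · exact key i' i h heq'.symm
  let N : ℕ := ∏ e ∈ hfin.toFinset, addOrderOf e
  have hN : 0 < N := Finset.prod_pos fun e he =>
    (hord e (hfin.mem_toFinset.1 he)).addOrderOf_pos
  have hNe : ∀ e ∈ E, N • e = 0 := fun e he =>
    addOrderOf_dvd_iff_nsmul_eq_zero.1 (Finset.dvd_prod_of_mem _ (hfin.mem_toFinset.2 he))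
  have hopen : IsOpen {z : Ci | ‖N • z‖ < 1 / (2 * (q : ℝ))} :=
    isOpen_lt (continuous_norm.comp (continuous_const_smul N)) continuous_const
  have hq0 : (0 : ℝ) < q := by exact_mod_cast (by omega : 0 < q)
  have hev := hV _ hopen fun e he => by
    change ‖N • e‖ < _
    rw [hNe e he, norm_zero]
    positivity
  obtain ⟨J, hJ⟩ := eventually_zero hq (y := N • x) (hev.mono fun j hj => by
    have h1 : q ^ j • N • x = N • q ^ j • x := by
      rw [← mul_smul, ← mul_smul, mul_comm]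
    rw [h1]
    exact hj)
  apply hx
  rw [isOfFinAddOrder_iff_nsmul_eq_zero]
  refine ⟨q ^ J * N, by positivity, ?_⟩
  rw [mul_smul]
  exact hJ

end Pool.Agent.LYD
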