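import Pool.Agent.LYD.Basic
import Pool.Agent.LYN.Host1

set_option autoImplicit false

/-!
# LYD-ORT: orthogonality
-/

open Pool.Agent.LYN

namespace Pool.Agent.LYD

noncomputable section

private lemma ORT_conj_ee (x : ℝ) : (starRingEnd ℂ) (ee x) = ee (-x) := by
  unfold ee
  rw [← Complex.exp_conj]
  congr 1
  simp only [map_mul, Complex.conj_I, Complex.conj_ofReal, Complex.ofReal_neg]
  have : (starRingEnd ℂ) 2 = 2 := Complex.conj_ofReal 2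
  rw [this]
  ring

private lemma ORT_one (m : ℕ) (I : Finset ℕ) (α : ℕ → ℂ) (c : ℕ → ℤ) (σ : ℕ) :
    ((‖∑ n ∈ I, α n * ee ((c n : ℝ) * σ / m)‖ ^ 2 : ℝ) : ℂ) =
      ∑ n ∈ I, ∑ n' ∈ I, α n * (starRingEnd ℂ) (α n') *
        ee ((σ : ℝ) * (((c n - c n' : ℤ) : ℝ) / m)) := by
  have h1 : ((‖∑ n ∈ I, α n * ee ((c n : ℝ) * σ / m)‖ ^ 2 : ℝ) : ℂ) =
      (∑ n ∈ I, α n * ee ((c n : ℝ) * σ / m)) *
        (starRingEnd ℂ) (∑ n ∈ I, α n * ee ((c n : ℝ) * σ / m)) := by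
    rw [Complex.mul_conj, Complex.normSq_eq_norm_sq]
  rw [h1, map_sum, Finset.sum_mul_sum]
  refine Finset.sum_congr rfl fun n _ => Finset.sum_congr rfl fun n' _ => ?_
  rw [map_mul, ORT_conj_ee]
  have h2 : ee ((σ : ℝ) * (((c n - c n' : ℤ) : ℝ) / m)) =
      ee ((c n : ℝ) * σ / m) * ee (-((c n' : ℝ) * σ / m)) := by
    rw [← ee_add]
    congr 1
    push_cast
    ring
  rw [h2]
  ring

theorem p_ORT : T_ORT := by
  intro m I α c B hm hα hB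
  have hdbl : ((∑ σ ∈ Finset.range m, ‖∑ n ∈ I, α n * ee ((c n : ℝ) * σ / m)‖ ^ 2 : ℝ) : ℂ) =
      ∑ n ∈ I, ∑ n' ∈ I, α n * (starRingEnd ℂ) (α n') *
        ∑ σ ∈ Finset.range m, ee ((σ : ℝ) * (((c n - c n' : ℤ) : ℝ) / m)) := by
    rw [Complex.ofReal_sum, Finset.sum_congr rfl fun σ _ => ORT_one m I α c σ, Finset.sum_comm]
    refine Finset.sum_congr rfl fun n _ => ?_
    rw [Finset.sum_comm]
    refine Finset.sum_congr rfl fun n' _ => ?_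
    rw [Finset.mul_sum]
  have hnn : (0 : ℝ) ≤ ∑ σ ∈ Finset.range m, ‖∑ n ∈ I, α n * ee ((c n : ℝ) * σ / m)‖ ^ 2 :=
    Finset.sum_nonneg fun σ _ => sq_nonneg _
  have hnorm : ∑ σ ∈ Finset.range m, ‖∑ n ∈ I, α n * ee ((c n : ℝ) * σ / m)‖ ^ 2 =
      ‖((∑ σ ∈ Finset.range m, ‖∑ n ∈ I, α n * ee ((c n : ℝ) * σ / m)‖ ^ 2 : ℝ) : ℂ)‖ := by
    rw [Complex.norm_real, Real.norm_of_nonneg hnn]
  rw [hnorm, hdbl]
  calc ‖∑ n ∈ I, ∑ n' ∈ I, α n * (starRingEnd ℂ) (α n') *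
        ∑ σ ∈ Finset.range m, ee ((σ : ℝ) * (((c n - c n' : ℤ) : ℝ) / m))‖
      ≤ ∑ n ∈ I, ∑ n' ∈ I, ‖α n * (starRingEnd ℂ) (α n') *
        ∑ σ ∈ Finset.range m, ee ((σ : ℝ) * (((c n - c n' : ℤ) : ℝ) / m))‖ :=
        (norm_sum_le _ _).trans (Finset.sum_le_sum fun n _ => norm_sum_le _ _)
    _ ≤ ∑ n ∈ I, ∑ n' ∈ I, (if (m : ℤ) ∣ c n - c n' then (m : ℝ) else 0) := by
        refine Finset.sum_le_sum fun n hn => Finset.sum_le_sum fun n' hn' => ?_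
        rw [norm_mul, norm_mul, RCLike.norm_conj]
        have h1 := H_root m hm (c n - c n')
        have h2 : ‖α n‖ * ‖α n'‖ ≤ 1 := by
          calc ‖α n‖ * ‖α n'‖ ≤ 1 * 1 :=
                mul_le_mul (hα n hn) (hα n' hn') (norm_nonneg _) zero_le_one
            _ = 1 := one_mul 1
        calc ‖α n‖ * ‖α n'‖ * ‖∑ σ ∈ Finset.range m, ee ((σ : ℝ) * (((c n - c n' : ℤ) : ℝ) / m))‖
            ≤ 1 * ‖∑ σ ∈ Finset.range m, ee ((σ : ℝ) * (((c n - c n' : ℤ) : ℝ) / m))‖ :=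
              mul_le_mul_of_nonneg_right h2 (norm_nonneg _)
          _ ≤ _ := by rw [one_mul]; exact h1
    _ = ∑ n ∈ I, (m : ℝ) * ((I.filter fun n' => (m : ℤ) ∣ c n - c n').card : ℝ) := by
        refine Finset.sum_congr rfl fun n _ => ?_
        rw [← Finset.sum_filter, Finset.sum_const, nsmul_eq_mul, mul_comm]
    _ ≤ ∑ n ∈ I, (m : ℝ) * B := by
        refine Finset.sum_le_sum fun n hn => ?_
        refine mul_le_mul_of_nonneg_left ?_ (Nat.cast_nonneg m)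
        have := hB n hn
        exact_mod_cast (by convert this using 2)
    _ = (m : ℝ) * I.card * B := by
        rw [Finset.sum_const, nsmul_eq_mul]
        ring

end

end Pool.Agent.LYD
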