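import Pool.Agent.LYD.Basic

/-!
# LYD: PHI, cluster points of the orbit along a filter
-/

set_option autoImplicit false

open MeasureTheory Filter Topology
open Pool.Agent.LYN
open scoped Classical

namespace Pool.Agent.LYD

namespace PHI_

/-- cluster points of the image under a continuous map of a compact space -/
theorem image_map {ι X Y : Type*} [TopologicalSpace X] [CompactSpace X] [TopologicalSpace Y]
    [T2Space Y] (D : Filter ι) (u : ι → X) (f : X → Y) (hf : Continuous f) :
    f '' {y | MapClusterPt y D u} = {y | MapClusterPt y D (fun j => f (u j))} := by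
  ext y
  constructor
  · rintro ⟨z, hz, rfl⟩
    exact (show MapClusterPt z D u from hz).continuousAt_comp hf.continuousAt
  · intro hy
    obtain ⟨U, hU, hUy⟩ := mapClusterPt_iff_ultrafilter.1
      (show MapClusterPt y D (fun j => f (u j)) from hy)
    have hz : Tendsto u U (𝓝 (U.map u).lim) := (U.map u).le_nhds_lim
    refine ⟨(U.map u).lim, ?_, ?_⟩
    · exact mapClusterPt_iff_ultrafilter.2 ⟨U, hU, hz⟩
    · exact tendsto_nhds_unique ((hf.tendsto _).comp hz) hUy

end PHI_

theorem p_PHI : T_PHI := by
  intro D q x hD
  have himg : ∀ p : ℕ, (fun y : Ci => p • y) '' Phi D q x = Phi D q (p • x) := by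
    intro p
    have h := PHI_.image_map D (fun j : ℕ => q ^ j • x) (fun y : Ci => p • y)
      (continuous_const_smul p)
    unfold Phi
    rw [h]
    have e : (fun j : ℕ => p • q ^ j • x) = fun j : ℕ => q ^ j • p • x := by
      funext j
      rw [smul_comm]
    rw [e]
  refine ⟨?_, ?_, himg, ?_, ?_⟩
  · exact isClosed_setOfPred_clusterPt
  · exact exists_clusterPt_of_compactSpace _
  · intro hs
    rw [himg q]
    unfold Phi
    have e : (fun j : ℕ => q ^ j • q • x) = (fun j : ℕ => q ^ j • x) ∘ fun j : ℕ => j + 1 := by
      funext j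
      rw [Function.comp, ← mul_smul, pow_succ]
    rw [e]
    ext y
    change ClusterPt y (Filter.map ((fun j : ℕ => q ^ j • x) ∘ fun j : ℕ => j + 1) D) ↔
      ClusterPt y (Filter.map (fun j : ℕ => q ^ j • x) D)
    rw [← Filter.map_map, hs]
  · intro V hV hVs
    by_contra hne
    have hf : ∃ᶠ j in D, q ^ j • x ∈ Vᶜ := by
      rw [Filter.not_eventually] at hne
      exact hne
    obtain ⟨a, ha, hac⟩ := hV.isClosed_compl.isCompact.exists_mapClusterPt_of_frequently hf
    exact ha (hVs hac)

end Pool.Agent.LYD
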