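import Pool.Agent.LYD.Basic

set_option autoImplicit false

/-!
# LYD, target PHS: phases (helper80)
-/

open MeasureTheory Filter Topology
open Pool.Agent.LYN
open scoped Classical

namespace Pool.Agent.LYD

noncomputable section

theorem p_PHS : T_PHS := by
  intro p q g Q P D i hi m n hmn
  set W : ℕ := co Q g i with hW
  have hcop : IsCoprime ((W : ℤ) ^ (i * n + m)) ((Q i : ℤ) ^ m) :=
    (Nat.isCoprime_iff_coprime.2 (D.co_cop hi)).pow
  obtain ⟨u, v, huv⟩ := hcop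
  have hQpos : 1 ≤ Q i := D.Q_pos hi
  have hWpos : 1 ≤ W := D.co_pos hi
  have hc : (Q i : ℤ) ^ m ∣ ((P i : ℤ) ^ n * u) * (W : ℤ) ^ (i * n + m) - (P i : ℤ) ^ n :=
    ⟨-((P i : ℤ) ^ n * v), by linear_combination (P i : ℤ) ^ n * huv⟩
  refine ⟨(P i : ℤ) ^ n * u, hc, ?_⟩
  intro Δ hΔ
  -- `W ^ e` divides `P ^ n Δ`
  have h1 : W ^ (i * n + m) ∣ P i ^ n * Δ.natAbs := by
    rw [hW]
    unfold co
    refine D.prod_dvd ?_ _ _ ?_
    · intro l hl
      exact Finset.mem_range.1 (Finset.mem_of_mem_erase hl)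
    · intro l hl
      have hlg : l < g := Finset.mem_range.1 (Finset.mem_of_mem_erase hl)
      have hne : l ≠ i := Finset.ne_of_mem_erase hl
      rcases lt_or_gt_of_ne hne with h | h
      · have h2 := Int.natAbs_dvd_natAbs.2 (hΔ l h)
        rw [Int.natAbs_pow, Int.natAbs_natCast] at h2
        exact Dvd.dvd.mul_left h2 _
      · have h2 := D.Q_dvd_P hi hlg hne n
        have h3 : i * n + m ≤ l * n := by
          have : (i + 1) * n ≤ l * n := Nat.mul_le_mul_right n h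
          nlinarith
        exact Dvd.dvd.mul_right ((pow_dvd_pow _ h3).trans h2) _
  have h2 : (W : ℤ) ^ (i * n + m) ∣ (P i : ℤ) ^ n * Δ := by
    have h3 : ((W ^ (i * n + m) : ℕ) : ℤ) ∣ ((P i ^ n * Δ.natAbs : ℕ) : ℤ) :=
      Int.natCast_dvd_natCast.2 h1
    push_cast at h3
    rw [← Int.dvd_natAbs, Int.natAbs_mul]
    push_cast
    rw [abs_pow, Nat.abs_cast]
    exact h3
  obtain ⟨X, hX⟩ := h2
  have h4 : (Q i : ℤ) ^ m ∣ (((P i : ℤ) ^ n * u) * Δ - X) * (W : ℤ) ^ (i * n + m) := by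
    have h5 : (((P i : ℤ) ^ n * u) * Δ - X) * (W : ℤ) ^ (i * n + m) =
        (((P i : ℤ) ^ n * u) * (W : ℤ) ^ (i * n + m) - (P i : ℤ) ^ n) * Δ := by
      linear_combination hX
    rw [h5]
    exact Dvd.dvd.mul_right hc _
  have h6 : (Q i : ℤ) ^ m ∣ ((P i : ℤ) ^ n * u) * Δ - X :=
    (IsCoprime.symm ⟨u, v, huv⟩).dvd_of_dvd_mul_right h4
  obtain ⟨y, hy⟩ := h6
  refine ⟨-y, ?_⟩
  have hqR : (q : ℝ) = Q i * W := by
    have := D.q_eq hi
    rw [hW]
    exact_mod_cast this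
  have hpR : (p : ℝ) ^ n = (Q i : ℝ) ^ (i * n) * (P i : ℝ) ^ n := by
    exact_mod_cast D.p_pow hi n
  have hXR : (P i : ℝ) ^ n * Δ = (W : ℝ) ^ (i * n + m) * X := by exact_mod_cast hX
  have hyR : (((P i : ℤ) ^ n * u : ℤ) : ℝ) * Δ - X = (Q i : ℝ) ^ m * y := by exact_mod_cast hy
  have hQ0 : (Q i : ℝ) ≠ 0 := by
    have : (0 : ℝ) < Q i := by exact_mod_cast hQpos
    exact this.ne'
  have hW0 : (W : ℝ) ≠ 0 := by
    have : (0 : ℝ) < W := by exact_mod_cast hWpos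
    exact this.ne'
  have e1 : (p : ℝ) ^ n * Δ / (q : ℝ) ^ (i * n + m) = X / (Q i : ℝ) ^ m := by
    rw [hpR, hqR, mul_pow, pow_add (Q i : ℝ), mul_assoc ((Q i : ℝ) ^ (i * n)), hXR]
    field_simp
  rw [e1]
  have e2 : (X : ℝ) = (((P i : ℤ) ^ n * u : ℤ) : ℝ) * Δ - (Q i : ℝ) ^ m * y := by
    linear_combination -hyR
  rw [e2]
  push_cast
  field_simp
  ring

end

end Pool.Agent.LYD
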