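import Pool.Agent.LYD.Basic

set_option autoImplicit false

open MeasureTheory Filter Topology
open Pool.Agent.LYN
open scoped Classical

namespace Pool.Agent.LYD

noncomputable section

lemma PNT_inv (q : ℕ) (F : Set Ci) (hF : ∀ x ∈ F, q • x ∈ F) (v : ℕ) (x : Ci) (hx : x ∈ F) :
    q ^ v • x ∈ F := by
  induction v with
  | zero => simpa using hx
  | succ v ih =>
    have h : q ^ (v + 1) • x = q • q ^ v • x := by
      rw [← mul_smul, pow_succ, mul_comm]
    rw [h]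
    exact hF _ ih

lemma PNT_coe (n : ℕ) (y : ℝ) : n • (y : Ci) = ((n * y : ℝ) : Ci) := by
  rw [← nsmul_eq_mul]
  rfl

lemma PNT_dist (q M e r u : ℕ) (y : ℝ) (hq : 2 ≤ q) (he : e ≤ M) (hr : r ≤ e)
    (h1 : (u : ℝ) / ((q ^ M : ℕ) : ℝ) ≤ y) (h2 : y < ((u : ℝ) + 1) / ((q ^ M : ℕ) : ℝ)) :
    |(q : ℝ) ^ (M - e) * y - u / (q : ℝ) ^ e| ≤ 1 / (q : ℝ) ^ r := by
  have hq0 : (0 : ℝ) < q := by
    have : 0 < q := by omega
    exact_mod_cast this
  have hq1 : (1 : ℝ) ≤ q := by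
    have : 1 ≤ q := by omega
    exact_mod_cast this
  push_cast at h1 h2
  have hM : (q : ℝ) ^ M = (q : ℝ) ^ (M - e) * (q : ℝ) ^ e := by
    rw [← pow_add]
    congr 1
    omega
  have hA : (0 : ℝ) < (q : ℝ) ^ (M - e) := by positivity
  have hB : (0 : ℝ) < (q : ℝ) ^ e := by positivity
  have hC : (0 : ℝ) < (q : ℝ) ^ r := by positivity
  have h3 : (u : ℝ) / (q : ℝ) ^ e ≤ (q : ℝ) ^ (M - e) * y := by
    have := mul_le_mul_of_nonneg_left h1 hA.le
    refine le_trans (le_of_eq ?_) this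
    rw [hM]
    field_simp
  have h4 : (q : ℝ) ^ (M - e) * y < ((u : ℝ) + 1) / (q : ℝ) ^ e := by
    have := mul_lt_mul_of_pos_left h2 hA
    refine lt_of_lt_of_le this (le_of_eq ?_)
    rw [hM]
    field_simp
  rw [add_div] at h4
  have h5 : 1 / (q : ℝ) ^ e ≤ 1 / (q : ℝ) ^ r :=
    one_div_le_one_div_of_le hC (pow_le_pow_right₀ hq1 hr)
  rw [abs_le]
  constructor
  · have : 0 < 1 / (q : ℝ) ^ r := by positivity
    linarith
  · linarith

theorem p_PNT : T_PNT := by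
  intro p q i m N r M U s c F u w hp hq hT hF hu hM hw
  have hp1 : (1 : ℝ) ≤ p := by
    have : 1 ≤ p := by omega
    exact_mod_cast this
  obtain ⟨h0s, hc0, hU⟩ := hT
  unfold vis at hu
  rw [Finset.mem_filter] at hu
  obtain ⟨-, y, hy1, hy2, hyF⟩ := hu
  have hw01 : ∀ n, 0 ≤ w n ∧ w n ≤ 1 := by
    intro n
    rw [hw n]
    split_ifs <;> norm_num
  set e : ℕ → ℕ := fun n => r + (i * n + m) with he
  set E : ℤ → ℕ → ℂ := fun a n => ee ((a : ℝ) * ((p : ℝ) ^ n * ((q : ℝ) ^ (M - e n) * y))) with hE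
  set G : ℤ → ℕ → ℂ := fun a n => ee ((a : ℝ) * (p : ℝ) ^ n * u / (q : ℝ) ^ (e n)) with hG
  have hle : ∀ n ∈ Finset.Ico m N, e n ≤ M := by
    intro n hn
    rw [Finset.mem_Ico] at hn
    have h1 : i * n ≤ i * N := Nat.mul_le_mul_left _ hn.2.le
    simp only [he]
    omega
  have hpt : ∀ a n, E a n = (fourier a : C(UnitAddCircle, ℂ)) (p ^ n • q ^ (M - e n) • (y : Ci)) := by
    intro a n
    rw [PNT_coe, PNT_coe, fourier_coe]
    simp only [hE]
    push_cast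
    rfl
  have hkey : ∀ n, w n * (c 0).re ≤ - ∑ a ∈ s.erase 0, (c a * ((w n : ℂ) * E a n)).re := by
    intro n
    by_cases hcond : ∀ x ∈ F, p ^ n • x ∉ U
    · have h1 := hU _ (hcond _ (PNT_inv q F hF (M - e n) _ hyF))
      have hwn : w n = 1 := by rw [hw n, if_pos hcond]
      rw [← Finset.add_sum_erase s _ h0s, Complex.add_re, Complex.re_sum] at h1
      have h2 : (fourier 0 : C(UnitAddCircle, ℂ)) (p ^ n • q ^ (M - e n) • (y : Ci)) = 1 := by
        simp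
      rw [h2, mul_one] at h1
      rw [hwn]
      have h3 : ∑ a ∈ s.erase 0, (c a * (((1 : ℝ) : ℂ) * E a n)).re =
          ∑ a ∈ s.erase 0, (c a * (fourier a : C(UnitAddCircle, ℂ)) (p ^ n • q ^ (M - e n) • (y : Ci))).re := by
        refine Finset.sum_congr rfl fun a _ => ?_
        rw [hpt a n]
        simp
      rw [h3]
      linarith
    · have hwn : w n = 0 := by rw [hw n, if_neg hcond]
      rw [hwn]
      simp
  have h1 : (c 0).re * ∑ n ∈ Finset.Ico m N, w n ≤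
      - ∑ a ∈ s.erase 0, (c a * ∑ n ∈ Finset.Ico m N, (w n : ℂ) * E a n).re := by
    rw [Finset.mul_sum]
    calc ∑ n ∈ Finset.Ico m N, (c 0).re * w n
        ≤ ∑ n ∈ Finset.Ico m N, (- ∑ a ∈ s.erase 0, (c a * ((w n : ℂ) * E a n)).re) := by
          refine Finset.sum_le_sum fun n _ => ?_
          rw [mul_comm]
          exact hkey n
      _ = - ∑ a ∈ s.erase 0, (c a * ∑ n ∈ Finset.Ico m N, (w n : ℂ) * E a n).re := by
          rw [Finset.sum_neg_distrib, Finset.sum_comm]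
          congr 1
          refine Finset.sum_congr rfl fun a _ => ?_
          rw [Finset.mul_sum, Complex.re_sum]
  have h2 : - ∑ a ∈ s.erase 0, (c a * ∑ n ∈ Finset.Ico m N, (w n : ℂ) * E a n).re ≤
      ∑ a ∈ s.erase 0, ‖c a‖ * ‖∑ n ∈ Finset.Ico m N, (w n : ℂ) * E a n‖ := by
    rw [← Finset.sum_neg_distrib]
    refine Finset.sum_le_sum fun a _ => ?_
    rw [← norm_mul]
    refine (neg_le_abs _).trans ?_
    exact Complex.abs_re_le_norm _
  refine h1.trans (h2.trans ?_)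
  refine Finset.sum_le_sum fun a _ => ?_
  refine mul_le_mul_of_nonneg_left ?_ (norm_nonneg _)
  have h3 : ∑ n ∈ Finset.Ico m N, (w n : ℂ) * E a n =
      ∑ n ∈ Finset.Ico m N, (w n : ℂ) * G a n + ∑ n ∈ Finset.Ico m N, (w n : ℂ) * (E a n - G a n) := by
    rw [← Finset.sum_add_distrib]
    refine Finset.sum_congr rfl fun n _ => ?_
    ring
  rw [h3]
  refine (norm_add_le _ _).trans ?_
  refine add_le_add (le_of_eq rfl) ?_
  set K : ℝ := 2 * Real.pi * |(a : ℝ)| * (p : ℝ) ^ N / (q : ℝ) ^ r with hK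
  have hK0 : 0 ≤ K := by
    rw [hK]
    positivity
  have h4 : ∀ n ∈ Finset.Ico m N, ‖(w n : ℂ) * (E a n - G a n)‖ ≤ K := by
    intro n hn
    have hnle : n ≤ N := (Finset.mem_Ico.1 hn).2.le
    rw [norm_mul, Complex.norm_real, Real.norm_eq_abs, abs_of_nonneg (hw01 n).1]
    have h5 : ‖E a n - G a n‖ ≤ K := by
      refine (ee_lip _ _).trans ?_
      have h6 : (a : ℝ) * ((p : ℝ) ^ n * ((q : ℝ) ^ (M - e n) * y)) -
          (a : ℝ) * (p : ℝ) ^ n * u / (q : ℝ) ^ (e n) =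
          (a : ℝ) * (p : ℝ) ^ n * ((q : ℝ) ^ (M - e n) * y - u / (q : ℝ) ^ (e n)) := by
        ring
      rw [h6, abs_mul, abs_mul, abs_of_nonneg (by positivity : (0 : ℝ) ≤ (p : ℝ) ^ n)]
      have h7 := PNT_dist q M (e n) r u y hq (hle n hn) (by simp only [he]; omega) hy1 hy2
      have h8 : (p : ℝ) ^ n ≤ (p : ℝ) ^ N := pow_le_pow_right₀ hp1 hnle
      calc 2 * Real.pi * (|(a : ℝ)| * (p : ℝ) ^ n * |(q : ℝ) ^ (M - e n) * y - u / (q : ℝ) ^ (e n)|)
          ≤ 2 * Real.pi * (|(a : ℝ)| * (p : ℝ) ^ N * (1 / (q : ℝ) ^ r)) := by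
            gcongr
        _ = K := by
            rw [hK]
            ring
    calc w n * ‖E a n - G a n‖ ≤ 1 * K :=
          mul_le_mul (hw01 n).2 h5 (norm_nonneg _) zero_le_one
      _ = K := one_mul K
  refine (norm_sum_le _ _).trans ?_
  refine (Finset.sum_le_card_nsmul _ _ K h4).trans ?_
  rw [Nat.card_Ico, nsmul_eq_mul]
  refine mul_le_mul_of_nonneg_right ?_ hK0
  exact_mod_cast Nat.sub_le _ _

end

end Pool.Agent.LYD
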