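import Pool.Agent.LYD.Basic

set_option autoImplicit false

/-!
# LYD-REC: points of `G` return to `G` with positive upper frequency, almost surely
-/

open MeasureTheory Filter Topology
open Pool.Agent.LYN
open scoped Classical

namespace Pool.Agent.LYD

noncomputable section

namespace REC_

/-- the indicator of the `n`-th iterate -/
def ind1 (f : Ci → Ci) (G : Set Ci) (n : ℕ) (x : Ci) : ℝ :=
  if f^[n] x ∈ G then 1 else 0

lemma ind1_nonneg (f : Ci → Ci) (G : Set Ci) (n : ℕ) (x : Ci) : 0 ≤ ind1 f G n x := by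
  unfold ind1; split_ifs <;> norm_num

lemma ind1_le (f : Ci → Ci) (G : Set Ci) (n : ℕ) (x : Ci) : ind1 f G n x ≤ 1 := by
  unfold ind1; split_ifs <;> norm_num

/-- the number of visits as a sum -/
def cnt (f : Ci → Ci) (G : Set Ci) (N : ℕ) (x : Ci) : ℝ :=
  ∑ n ∈ Finset.range N, ind1 f G n x

lemma cnt_eq (f : Ci → Ci) (G : Set Ci) (N : ℕ) (x : Ci) :
    (((Finset.range N).filter fun n => f^[n] x ∈ G).card : ℝ) = cnt f G N x := by
  unfold cnt ind1
  rw [Finset.card_filter]
  push_cast
  rfl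

lemma cnt_nonneg (f : Ci → Ci) (G : Set Ci) (N : ℕ) (x : Ci) : 0 ≤ cnt f G N x :=
  Finset.sum_nonneg fun n _ => ind1_nonneg f G n x

lemma cnt_le (f : Ci → Ci) (G : Set Ci) (N : ℕ) (x : Ci) : cnt f G N x ≤ N := by
  calc cnt f G N x ≤ ∑ _n ∈ Finset.range N, (1 : ℝ) :=
        Finset.sum_le_sum fun n _ => ind1_le f G n x
    _ = N := by simp

lemma cnt_shift (f : Ci → Ci) (G : Set Ci) (N : ℕ) (x : Ci) :
    cnt f G N (f x) = cnt f G N x + (ind1 f G N x - ind1 f G 0 x) := by
  have h1 : cnt f G N (f x) = ∑ n ∈ Finset.range N, ind1 f G (n + 1) x := by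
    unfold cnt ind1
    rfl
  have h2 := Finset.sum_range_succ (fun n => ind1 f G n x) N
  have h3 := Finset.sum_range_succ' (fun n => ind1 f G n x) N
  rw [h1]
  unfold cnt
  linarith

lemma tendsto_diff (f : Ci → Ci) (G : Set Ci) (x : Ci) :
    Tendsto (fun N : ℕ => (ind1 f G N x - ind1 f G 0 x) / (N : ℝ)) atTop (𝓝 0) := by
  refine squeeze_zero_norm (a := fun N : ℕ => 1 / (N : ℝ)) ?_ tendsto_one_div_atTop_nhds_zero_nat
  intro N
  rw [norm_div, Real.norm_natCast]
  refine div_le_div_of_nonneg_right ?_ (Nat.cast_nonneg N)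
  rw [Real.norm_eq_abs, abs_le]
  have a1 := ind1_nonneg f G N x
  have a2 := ind1_le f G N x
  have a3 := ind1_nonneg f G 0 x
  have a4 := ind1_le f G 0 x
  constructor <;> linarith

/-- the set where the frequency of visits tends to zero -/
def H (f : Ci → Ci) (G : Set Ci) : Set Ci :=
  {x | Tendsto (fun N : ℕ => cnt f G N x / (N : ℝ)) atTop (𝓝 0)}

lemma mem_H (f : Ci → Ci) (G : Set Ci) (x : Ci) :
    x ∈ H f G ↔ Tendsto (fun N : ℕ => cnt f G N x / (N : ℝ)) atTop (𝓝 0) := Iff.rfl

lemma H_shift (f : Ci → Ci) (G : Set Ci) (x : Ci) : f x ∈ H f G ↔ x ∈ H f G := by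
  rw [mem_H, mem_H]
  have hd := tendsto_diff f G x
  constructor
  · intro h
    have h2 := h.sub hd
    rw [sub_zero] at h2
    refine h2.congr fun N => ?_
    rw [cnt_shift, ← sub_div]
    congr 1
    ring
  · intro h
    have h2 := h.add hd
    rw [add_zero] at h2
    refine h2.congr fun N => ?_
    rw [cnt_shift, ← add_div]

lemma H_iter (f : Ci → Ci) (G : Set Ci) (n : ℕ) (x : Ci) : f^[n] x ∈ H f G ↔ x ∈ H f G := by
  induction n with
  | zero => rfl
  | succ n ih => rw [Function.iterate_succ_apply', H_shift, ih]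

lemma ind1_meas {f : Ci → Ci} {G : Set Ci} (hf : Measurable f) (hG : MeasurableSet G) (n : ℕ) :
    Measurable (ind1 f G n) := by
  unfold ind1
  exact Measurable.ite ((hf.iterate n) hG) measurable_const measurable_const

lemma cnt_meas {f : Ci → Ci} {G : Set Ci} (hf : Measurable f) (hG : MeasurableSet G) (N : ℕ) :
    Measurable (cnt f G N) := by
  unfold cnt
  exact Finset.measurable_fun_sum _ fun n _ => ind1_meas hf hG n

lemma H_meas {f : Ci → Ci} {G : Set Ci} (hf : Measurable f) (hG : MeasurableSet G) :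
    MeasurableSet (H f G) := by
  unfold H
  exact measurableSet_tendsto (𝓝 (0 : ℝ)) fun N => (cnt_meas hf hG N).div_const _

lemma int_ind1 {μ : Measure Ci} {f : Ci → Ci} {G : Set Ci} [IsProbabilityMeasure μ]
    (hf : MeasurePreserving f μ μ) (hG : MeasurableSet G) (n : ℕ) :
    ∫ x in H f G, ind1 f G n x ∂μ = μ.real (G ∩ H f G) := by
  have hH := H_meas hf.measurable hG
  rw [← integral_indicator hH]
  have h1 : (H f G).indicator (ind1 f G n)
      = (f^[n] ⁻¹' (G ∩ H f G)).indicator (1 : Ci → ℝ) := by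
    funext x
    by_cases hx : x ∈ H f G
    · rw [Set.indicator_of_mem hx]
      unfold ind1
      by_cases hg : f^[n] x ∈ G
      · have : x ∈ f^[n] ⁻¹' (G ∩ H f G) := ⟨hg, (H_iter f G n x).2 hx⟩
        rw [if_pos hg, Set.indicator_of_mem this]
        rfl
      · have : x ∉ f^[n] ⁻¹' (G ∩ H f G) := fun h => hg h.1
        rw [if_neg hg, Set.indicator_of_notMem this]
    · have : x ∉ f^[n] ⁻¹' (G ∩ H f G) := fun h => hx ((H_iter f G n x).1 h.2)
      rw [Set.indicator_of_notMem hx, Set.indicator_of_notMem this]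
  rw [h1, integral_indicator_one ((hf.measurable.iterate n) (hG.inter hH))]
  unfold Measure.real
  rw [(hf.iterate n).measure_preimage (hG.inter hH).nullMeasurableSet]

lemma ind1_int {μ : Measure Ci} {f : Ci → Ci} {G : Set Ci} [IsProbabilityMeasure μ]
    (hf : Measurable f) (hG : MeasurableSet G) (n : ℕ) (s : Set Ci) :
    Integrable (ind1 f G n) (μ.restrict s) := by
  refine Integrable.mono' (g := fun _ => (1 : ℝ)) (integrable_const _)
    (ind1_meas hf hG n).aestronglyMeasurable (Filter.Eventually.of_forall fun x => ?_)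
  rw [Real.norm_eq_abs, abs_of_nonneg (ind1_nonneg f G n x)]
  exact ind1_le f G n x

lemma int_freq {μ : Measure Ci} {f : Ci → Ci} {G : Set Ci} [IsProbabilityMeasure μ]
    (hf : MeasurePreserving f μ μ) (hG : MeasurableSet G) (N : ℕ) (hN : 1 ≤ N) :
    ∫ x in H f G, cnt f G N x / (N : ℝ) ∂μ = μ.real (G ∩ H f G) := by
  rw [integral_div]
  unfold cnt
  rw [integral_finsetSum _ fun n _ => ind1_int hf.measurable hG n _]
  rw [Finset.sum_congr rfl fun n _ => int_ind1 hf hG n]
  rw [Finset.sum_const, Finset.card_range, nsmul_eq_mul]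
  have : (N : ℝ) ≠ 0 := by positivity
  field_simp

end REC_

open REC_ in
theorem p_REC : T_REC := by
  intro μ f G hμ hf hG
  have hH := H_meas hf.measurable hG
  have hlim : Tendsto (fun N : ℕ => ∫ x in H f G, cnt f G N x / (N : ℝ) ∂μ) atTop
      (𝓝 (∫ _x in H f G, (0 : ℝ) ∂μ)) := by
    refine tendsto_integral_of_dominated_convergence (fun _ => (1 : ℝ)) ?_ ?_ ?_ ?_
    · intro N
      exact ((cnt_meas hf.measurable hG N).div_const _).aestronglyMeasurable
    · exact integrable_const _
    · intro N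
      refine Filter.Eventually.of_forall fun x => ?_
      rw [Real.norm_eq_abs, abs_of_nonneg (div_nonneg (cnt_nonneg f G N x) (Nat.cast_nonneg N))]
      exact div_le_one_of_le₀ (cnt_le f G N x) (Nat.cast_nonneg N)
    · rw [ae_restrict_iff' hH]
      exact Filter.Eventually.of_forall fun x hx => hx
  have hconst : Tendsto (fun N : ℕ => ∫ x in H f G, cnt f G N x / (N : ℝ) ∂μ) atTop
      (𝓝 (μ.real (G ∩ H f G))) := by
    refine tendsto_const_nhds.congr' ?_
    filter_upwards [eventually_ge_atTop 1] with N hN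
    exact (int_freq hf hG N hN).symm
  have h0 : μ.real (G ∩ H f G) = 0 := by
    have := tendsto_nhds_unique hconst hlim
    rw [this, integral_zero]
  have h1 : μ (G ∩ H f G) = 0 := by
    rwa [Measure.real, ENNReal.toReal_eq_zero_iff, or_iff_left (measure_ne_top μ _)] at h0
  rw [ae_iff]
  refine measure_mono_null ?_ h1
  intro x hx
  rw [Set.mem_ofPred_eq] at hx
  push Not at hx
  refine ⟨hx.1, ?_⟩
  rw [mem_H]
  refine hx.2.congr fun N => ?_
  rw [cnt_eq]

end

end Pool.Agent.LYD
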