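import Pool.Agent.LYD.Basic

set_option autoImplicit false

/-!
# LYD-SEL: selection of the block for a coherent sequence of differences
-/

open MeasureTheory Filter Topology
open Pool.Agent.LYN
open scoped Classical

namespace Pool.Agent.LYD

noncomputable section

namespace SEL_

variable {p q g : ℕ} {Q P : ℕ → ℕ}

/-- the product of the factors from `i` on -/
def AA (Q : ℕ → ℕ) (g i : ℕ) : ℕ := ∏ l ∈ Finset.Ico i g, Q l

lemma AA_succ (Q : ℕ → ℕ) {g i : ℕ} (hi : i < g) : AA Q g i = Q i * AA Q g (i + 1) := by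
  unfold AA
  exact Finset.prod_eq_prod_Ico_succ_bot hi Q

lemma AA_zero (D : Dat p q g Q P) : AA Q g 0 = q := by
  rw [D.prod]
  unfold AA
  rw [Finset.range_eq_Ico]

lemma AA_top (Q : ℕ → ℕ) (g : ℕ) : AA Q g g = 1 := by
  unfold AA
  simp

lemma AA_dvd (D : Dat p q g Q P) (i : ℕ) : AA Q g i ∣ q := by
  conv_rhs => rw [D.prod]
  unfold AA
  refine Finset.prod_dvd_prod_of_subset _ _ _ ?_
  intro l hl
  rw [Finset.mem_Ico] at hl
  exact Finset.mem_range.2 hl.2

lemma AA_dvd_P (D : Dat p q g Q P) {i : ℕ} (hi : i < g) {m n : ℕ} (hmn : m ≤ n) :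
    AA Q g (i + 1) ^ (i * n + m) ∣ P i ^ n := by
  unfold AA
  refine D.prod_dvd (fun l hl => (Finset.mem_Ico.1 hl).2) _ _ ?_
  intro l hl
  rw [Finset.mem_Ico] at hl
  have h1 := D.Q_dvd_P hi hl.2 (by omega) n
  have h2 : i * n + m ≤ l * n := by
    calc i * n + m ≤ i * n + n := by omega
      _ = (i + 1) * n := by ring
      _ ≤ l * n := Nat.mul_le_mul_right n hl.1
  exact (pow_dvd_pow _ h2).trans h1

lemma smul_zero_of_dvd {a b : ℕ} {x : Ci} (h : a ∣ b) (h' : a • x = 0) : b • x = 0 := by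
  obtain ⟨c, rfl⟩ := h
  rw [mul_comm, mul_smul, h', smul_zero]

end SEL_

open SEL_ in
theorem p_SEL : T_SEL := by
  intro p q g Q P D d hd
  obtain ⟨h0, h1, hc⟩ := hd
  have hH0 : ∀ k, AA Q g 0 ^ k • d k = 0 := by
    intro k
    have h := coh_pow hc k 0
    rw [zero_add] at h
    rw [AA_zero D, h, h0]
  have hHg : ¬ ∀ k, AA Q g g ^ k • d k = 0 := by
    intro h
    have h2 := h 1
    rw [AA_top, one_pow, one_smul] at h2
    exact h1 h2
  obtain ⟨i, hi, hHi, hHs⟩ : ∃ i < g, (∀ k, AA Q g i ^ k • d k = 0) ∧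
      ¬ ∀ k, AA Q g (i + 1) ^ k • d k = 0 := by
    by_contra hcon
    push Not at hcon
    have hall : ∀ i, i ≤ g → ∀ k, AA Q g i ^ k • d k = 0 := by
      intro i
      induction i with
      | zero => exact fun _ => hH0
      | succ i ih => exact fun h => hcon i (by omega) (ih (by omega))
    exact hHg (hall g le_rfl)
  push Not at hHs
  obtain ⟨k0, hk0⟩ := hHs
  refine ⟨i, hi, k0, fun m n hmn => ?_⟩
  have hA : AA Q g i ^ (i * n + m) = Q i ^ (i * n + m) * AA Q g (i + 1) ^ (i * n + m) := by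
    rw [AA_succ Q hi, mul_pow]
  have hAP := AA_dvd_P D hi hmn
  constructor
  · rw [smul_smul]
    refine smul_zero_of_dvd ?_ (hHi (i * n + m))
    rw [hA, D.p_pow hi n, ← mul_assoc, ← pow_add, add_comm m]
    exact Nat.mul_dvd_mul dvd_rfl hAP
  · intro hkm hzero
    apply hk0
    rw [smul_smul] at hzero
    have hd1 : addOrderOf (d (i * n + m)) ∣
        Q i ^ (i * n + m - k0) * (Q i ^ k0 * AA Q g (i + 1) ^ (i * n + m)) := by
      have h := addOrderOf_dvd_iff_nsmul_eq_zero.2 (hHi (i * n + m))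
      rw [hA] at h
      have h2 : Q i ^ (i * n + m - k0) * (Q i ^ k0 * AA Q g (i + 1) ^ (i * n + m)) =
          Q i ^ (i * n + m) * AA Q g (i + 1) ^ (i * n + m) := by
        rw [← mul_assoc, ← pow_add]
        congr 2
        omega
      rw [h2]
      exact h
    have hd2 : addOrderOf (d (i * n + m)) ∣ Q i ^ (i * n + m - k0) * P i ^ n := by
      have h := addOrderOf_dvd_iff_nsmul_eq_zero.2 hzero
      have h2 : Q i ^ (i * n + m - k0) * P i ^ n = Q i ^ (m - k0) * p ^ n := by
        rw [D.p_pow hi n, ← mul_assoc, ← pow_add]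
        congr 2
        omega
      rw [h2]
      exact h
    have hg := Nat.dvd_gcd hd1 hd2
    rw [Nat.gcd_mul_left] at hg
    have hgd : Nat.gcd (Q i ^ k0 * AA Q g (i + 1) ^ (i * n + m)) (P i ^ n) ∣
        AA Q g (i + 1) ^ (i * n + m) := by
      have hcop : Nat.Coprime (Nat.gcd (Q i ^ k0 * AA Q g (i + 1) ^ (i * n + m)) (P i ^ n))
          (Q i ^ k0) :=
        Nat.Coprime.coprime_dvd_left (Nat.gcd_dvd_right _ _) (Nat.Coprime.pow _ _ (D.copP i hi))
      exact hcop.dvd_of_dvd_mul_left (Nat.gcd_dvd_left _ _)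
    have hE : addOrderOf (d (i * n + m)) ∣
        Q i ^ (i * n + m - k0) * AA Q g (i + 1) ^ (i * n + m) :=
      hg.trans (Nat.mul_dvd_mul dvd_rfl hgd)
    have hdk : d k0 = q ^ (i * n + m - k0) • d (i * n + m) := by
      have h := coh_pow hc (i * n + m - k0) k0
      have h2 : k0 + (i * n + m - k0) = i * n + m := by omega
      rw [h2] at h
      exact h.symm
    rw [hdk, smul_smul]
    refine addOrderOf_dvd_iff_nsmul_eq_zero.1 (hE.trans ?_)
    have h3 : Q i ^ (i * n + m - k0) * AA Q g (i + 1) ^ (i * n + m) =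
        AA Q g (i + 1) ^ k0 * AA Q g i ^ (i * n + m - k0) := by
      rw [AA_succ Q hi, mul_pow]
      have h4 : i * n + m = k0 + (i * n + m - k0) := by omega
      conv_lhs => rw [h4, pow_add]
      have h5 : k0 + (i * n + m - k0) - k0 = i * n + m - k0 := by omega
      rw [h5]
      ring
    rw [h3]
    exact Nat.mul_dvd_mul dvd_rfl (pow_dvd_pow_of_dvd (AA_dvd D i) _)

end

end Pool.Agent.LYD
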