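import Pool.Agent.LYD.Basic

/-!
# LYD-SPC: spaced sets
-/

set_option autoImplicit false

namespace Pool.Agent.LYD

namespace SPC_

theorem main (x D C : ℕ) (A : Finset ℕ) : (∀ n ∈ A, x ≤ n) →
    (∀ n ∈ A, ∀ n' ∈ A, n < n' → D ≤ C * (n' - n)) → ∀ y, x ≤ y → (∀ n ∈ A, n ≤ y) →
    D * A.card ≤ C * (y - x) + D := by
  induction A using Finset.induction_on_max with
  | empty => intro _ _ y _ _; simp
  | insert a s hs ih =>
    intro hx hsp y hxy hy
    have ha : a ∉ s := fun h => lt_irrefl a (hs a h)
    rw [Finset.card_insert_of_notMem ha]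
    have hax : x ≤ a := hx a (Finset.mem_insert_self _ _)
    have hay : a ≤ y := hy a (Finset.mem_insert_self _ _)
    rcases s.eq_empty_or_nonempty with h | h
    · subst h
      simp
    · have hb := s.max'_mem h
      set b := s.max' h with hbdef
      have h1 := ih (fun n hn => hx n (Finset.mem_insert_of_mem hn))
        (fun n hn n' hn' => hsp n (Finset.mem_insert_of_mem hn) n' (Finset.mem_insert_of_mem hn'))
        b (hx b (Finset.mem_insert_of_mem hb)) (fun n hn => s.le_max' n hn)
      have hba : b < a := hs b hb
      have h2 := hsp b (Finset.mem_insert_of_mem hb) a (Finset.mem_insert_self _ _) hba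
      have hbx : x ≤ b := hx b (Finset.mem_insert_of_mem hb)
      have h3 : C * (b - x) + C * (a - b) = C * (a - x) := by
        rw [← mul_add]
        congr 1
        omega
      have h4 : C * (a - x) ≤ C * (y - x) := Nat.mul_le_mul_left _ (by omega)
      have h5 : D * (s.card + 1) = D * s.card + D := by ring
      omega

end SPC_

/-- LYD-SPC. -/
theorem p_SPC : T_SPC := by
  intro A x N D C hA hsp
  rcases A.eq_empty_or_nonempty with h | h
  · subst h
    simp
  · obtain ⟨a, ha⟩ := h
    have h0 := hA a ha
    refine SPC_.main x D C A (fun n hn => (hA n hn).1) hsp (x + N) (by omega)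
      (fun n hn => (hA n hn).2.le) |>.trans ?_
    have : x + N - x = N := by omega
    rw [this]

end Pool.Agent.LYD
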