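import Pool.Agent.LYD.Basic

set_option autoImplicit false

/-!
# LYD-STR: the structure of a multiplicatively independent pair, after replacing `p` by a power
-/

open MeasureTheory Filter Topology
open Pool.Agent.LYN
open scoped Classical

namespace Pool.Agent.LYD

noncomputable section

namespace STR_

/-- the quotient of the valuations -/
def ix (p' q l : ℕ) : ℕ := p'.factorization l / q.factorization l

/-- the primes of `q` of index `i` -/
def pr (p' q i : ℕ) : Finset ℕ := q.primeFactors.filter fun l => ix p' q l = i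

/-- the factor of index `i` -/
def QQ (p' q i : ℕ) : ℕ := ∏ l ∈ pr p' q i, l ^ q.factorization l

lemma mem_pr {p' q i l : ℕ} : l ∈ pr p' q i ↔ l ∈ q.primeFactors ∧ ix p' q l = i := by
  unfold pr
  rw [Finset.mem_filter]

lemma prime_pr {p' q i l : ℕ} (h : l ∈ pr p' q i) : l.Prime :=
  Nat.prime_of_mem_primeFactors (mem_pr.1 h).1

lemma prod_QQ {p' q g : ℕ} (hq : q ≠ 0) (hg : ∀ l ∈ q.primeFactors, ix p' q l < g) :
    q = ∏ i ∈ Finset.range g, QQ p' q i := by
  unfold QQ pr
  rw [Finset.prod_fiberwise_of_maps_to (fun l hl => Finset.mem_range.2 (hg l hl))]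
  exact (Nat.prod_factorization_pow_eq_self hq).symm

lemma cop_QQ {p' q i j : ℕ} (hij : i ≠ j) : Nat.Coprime (QQ p' q i) (QQ p' q j) := by
  unfold QQ
  refine Nat.Coprime.prod_left fun l hl => Nat.Coprime.prod_right fun l' hl' => ?_
  refine Nat.Coprime.pow _ _ ((Nat.coprime_primes (prime_pr hl) (prime_pr hl')).2 ?_)
  intro h
  subst h
  exact hij ((mem_pr.1 hl).2.symm.trans (mem_pr.1 hl').2)

lemma QQ_pow {p' q i : ℕ} (hv : ∀ l ∈ q.primeFactors, q.factorization l ∣ p'.factorization l) :
    QQ p' q i ^ i = ∏ l ∈ pr p' q i, l ^ p'.factorization l := by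
  unfold QQ
  rw [← Finset.prod_pow]
  refine Finset.prod_congr rfl fun l hl => ?_
  rw [← pow_mul]
  congr 1
  have h := (mem_pr.1 hl)
  have h2 := Nat.div_mul_cancel (hv l h.1)
  have h3 := h.2
  unfold ix at h3
  rw [h3] at h2
  rw [← h2, mul_comm]

lemma QQ_dvd {p' q i : ℕ} (hv : ∀ l ∈ q.primeFactors, q.factorization l ∣ p'.factorization l) :
    QQ p' q i ^ i ∣ p' := by
  rw [QQ_pow hv]
  refine Finset.prod_dvd_of_isRelPrime ?_ fun l _ => Nat.ordProj_dvd p' l
  intro a ha b hb hab
  refine Nat.coprime_iff_isRelPrime.1 (Nat.Coprime.pow _ _ ?_)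
  exact (Nat.coprime_primes (prime_pr (by simpa using ha)) (prime_pr (by simpa using hb))).2 hab

lemma cop_P {p' q i : ℕ} (hp : p' ≠ 0)
    (hv : ∀ l ∈ q.primeFactors, q.factorization l ∣ p'.factorization l) (P : ℕ)
    (hP : p' = QQ p' q i ^ i * P) : Nat.Coprime P (QQ p' q i) := by
  unfold QQ
  refine Nat.Coprime.prod_right fun l hl => ?_
  refine Nat.Coprime.pow_right _ ?_
  rw [Nat.coprime_comm, (prime_pr hl).coprime_iff_not_dvd]
  intro hd
  have h1 : l ^ p'.factorization l ∣ QQ p' q i ^ i := by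
    rw [QQ_pow hv]
    exact Finset.dvd_prod_of_mem _ hl
  have h2 : l ^ (p'.factorization l + 1) ∣ p' := by
    have h3 : l ^ (p'.factorization l + 1) ∣ QQ p' q i ^ i * P := by
      rw [pow_succ]
      exact mul_dvd_mul h1 hd
    rw [← hP] at h3
    exact h3
  exact Nat.pow_succ_factorization_not_dvd hp (prime_pr hl) h2

end STR_

open STR_ in
theorem p_STR : T_STR := by
  intro p q hp hq hind
  have hq0 : q ≠ 0 := by omega
  have hb : 1 ≤ q.factorial := Nat.factorial_pos q
  have hb0 : q.factorial ≠ 0 := by omega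
  have hp' : p ^ q.factorial ≠ 0 := pow_ne_zero _ (by omega)
  have hv : ∀ l ∈ q.primeFactors,
      q.factorization l ∣ (p ^ q.factorial).factorization l := by
    intro l hl
    rw [Nat.factorization_pow, Finsupp.smul_apply, smul_eq_mul]
    refine Dvd.dvd.mul_right ?_ _
    refine Nat.dvd_factorial ?_ (Nat.factorization_lt l hq0).le
    have hl2 : l ∈ q.factorization.support := by
      rw [Nat.support_factorization]
      exact hl
    exact Nat.pos_of_ne_zero (Finsupp.mem_support_iff.1 hl2)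
  have hg : ∀ l ∈ q.primeFactors, ix (p ^ q.factorial) q l < p ^ q.factorial + 1 := by
    intro l _
    have h1 : ix (p ^ q.factorial) q l ≤ (p ^ q.factorial).factorization l := Nat.div_le_self _ _
    have h2 : (p ^ q.factorial).factorization l < p ^ q.factorial := Nat.factorization_lt l hp'
    omega
  refine ⟨q.factorial, hb, p ^ q.factorial + 1, QQ (p ^ q.factorial) q,
    fun i => p ^ q.factorial / QQ (p ^ q.factorial) q i ^ i, ?_⟩
  have hfac : ∀ i, p ^ q.factorial = QQ (p ^ q.factorial) q i ^ i *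
      (p ^ q.factorial / QQ (p ^ q.factorial) q i ^ i) := fun i =>
    (Nat.mul_div_cancel' (QQ_dvd hv)).symm
  refine ⟨?_, hq, ?_, prod_QQ hq0 hg, fun i _ j _ hij => cop_QQ hij, fun i _ => hfac i,
    fun i _ => cop_P hp' hv _ (hfac i)⟩
  · calc 2 ≤ p := hp
      _ ≤ p ^ q.factorial := Nat.le_self_pow hb0 p
  · intro m n h
    rw [← pow_mul] at h
    obtain ⟨h1, h2⟩ := hind _ _ h
    refine ⟨?_, h2⟩
    rcases Nat.mul_eq_zero.1 h1 with h3 | h3
    · exact absurd h3 hb0
    · exact h3

end

end Pool.Agent.LYD
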