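import Pool.Agent.LYD.Basic

set_option autoImplicit false

/-!
# LYD-SUM: summing the class bound over all classes of `rel`
-/

open MeasureTheory Filter Topology
open Pool.Agent.LYN
open scoped Classical

namespace Pool.Agent.LYD

noncomputable section

lemma SUM_dif_add (q r u v w : ℕ) : dif q r u w = dif q r u v + dif q r v w := by
  unfold dif
  ring

lemma SUM_dif_neg (q r u v : ℕ) : dif q r v u = - dif q r u v := by
  unfold dif
  ring

lemma SUM_refl (Q : ℕ → ℕ) (q r R i u : ℕ) : rel Q q r R i u u := by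
  refine ⟨rfl, fun l _ => ?_⟩
  unfold dif
  rw [sub_self]
  exact dvd_zero _

lemma SUM_symm {Q : ℕ → ℕ} {q r R i u v : ℕ} (h : rel Q q r R i u v) : rel Q q r R i v u := by
  refine ⟨h.1.symm, fun l hl => ?_⟩
  rw [SUM_dif_neg]
  exact (dvd_neg).2 (h.2 l hl)

lemma SUM_trans {Q : ℕ → ℕ} {q r R i u v w : ℕ} (h : rel Q q r R i u v)
    (h' : rel Q q r R i v w) : rel Q q r R i u w := by
  refine ⟨h'.1.trans h.1, fun l hl => ?_⟩
  rw [SUM_dif_add q r u v w]
  exact dvd_add (h.2 l hl) (h'.2 l hl)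

/-- the classes of two related elements are equal -/
lemma SUM_cls {Q : ℕ → ℕ} {q r R i u v : ℕ} (S : Finset ℕ) (h : rel Q q r R i u v) :
    S.filter (fun u' => rel Q q r R i v u') = S.filter (fun u' => rel Q q r R i u u') := by
  ext x
  simp only [Finset.mem_filter]
  constructor
  · rintro ⟨h1, h2⟩
    exact ⟨h1, SUM_trans h h2⟩
  · rintro ⟨h1, h2⟩
    exact ⟨h1, SUM_trans (SUM_symm h) h2⟩

lemma SUM_real {q : ℕ} (hq : 2 ≤ q) (r u : ℕ) :
    ((u % q ^ r : ℕ) : ℝ) / (q : ℝ) ^ r + ((u / q ^ r : ℕ) : ℤ) = (u : ℝ) / (q : ℝ) ^ r := by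
  have h0 : (q : ℝ) ^ r ≠ 0 := by
    have : (q : ℝ) ≠ 0 := by
      have : 0 < q := by omega
      exact_mod_cast this.ne'
    exact pow_ne_zero _ this
  have h1 : (u : ℝ) = (q : ℝ) ^ r * ((u / q ^ r : ℕ) : ℝ) + ((u % q ^ r : ℕ) : ℝ) := by
    have := Nat.div_add_mod u (q ^ r)
    exact_mod_cast this.symm
  rw [eq_div_iff h0, add_mul, div_mul_cancel₀ _ h0, Int.cast_natCast]
  linarith [mul_comm ((q : ℝ) ^ r) ((u / q ^ r : ℕ) : ℝ)]

theorem p_SUM (h_CLS : T_CLS) : T_SUM := by
  intro p q g Q P D i hi a ha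
  obtain ⟨C, hC, H⟩ := h_CLS p q g Q P D i hi a ha
  refine ⟨C, hC, ?_⟩
  intro m N R r hN hR S η hη w hw
  set cls : ℕ → Finset ℕ := fun u => S.filter fun u' => rel Q q r R i u u' with hcls
  set F : ℕ → ℝ := fun u => ‖∑ n ∈ Finset.Ico m N, (w n : ℂ) *
        ee ((a : ℝ) * (p : ℝ) ^ n * u / (q : ℝ) ^ (r + (i * n + m)))‖ ^ 2 with hF
  set T : Finset ℕ := S.filter (fun u =>
    ((S.filter fun u' => rel Q q r R i u u' ∧ (Q i : ℤ) ^ m ∣ dif q r u u').card : ℝ) ≤
        η * (S.filter fun u' => rel Q q r R i u u').card) with hT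
  have hTS : T ⊆ S := Finset.filter_subset _ _
  have e1 : ∑ u ∈ T, F u = ∑ c ∈ S.image cls, ∑ u ∈ T with cls u = c, F u := by
    refine (Finset.sum_fiberwise_of_maps_to ?_ F).symm
    intro x hx
    exact Finset.mem_image_of_mem _ (hTS hx)
  have e2 : (S.card : ℝ) = ∑ c ∈ S.image cls, ((S.filter fun u => cls u = c).card : ℝ) := by
    have := Finset.card_eq_sum_card_image cls S
    rw [this]
    push_cast
    rfl
  have key : ∀ c ∈ S.image cls, ∑ u ∈ T with cls u = c, F u ≤
      η * C * ((S.filter fun u => cls u = c).card : ℝ) * (N : ℝ) ^ 2 := by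
    intro c hc
    obtain ⟨u0, hu0, rfl⟩ := Finset.mem_image.1 hc
    -- the fibre is the class
    have fib : (S.filter fun u => cls u = cls u0) = cls u0 := by
      ext x
      simp only [hcls, Finset.mem_filter]
      constructor
      · rintro ⟨h1, h2⟩
        have : x ∈ S.filter (fun u' => rel Q q r R i x u') :=
          Finset.mem_filter.2 ⟨h1, SUM_refl _ _ _ _ _ _⟩
        rw [h2, Finset.mem_filter] at this
        exact this
      · rintro ⟨h1, h2⟩
        exact ⟨h1, SUM_cls S h2⟩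
    have inner : ∀ u, cls u = cls u0 → ((cls u0).filter fun u' => (Q i : ℤ) ^ m ∣
        ((u / q ^ r : ℕ) : ℤ) - ((u' / q ^ r : ℕ) : ℤ)) =
        S.filter fun u' => rel Q q r R i u u' ∧ (Q i : ℤ) ^ m ∣ dif q r u u' := by
      intro u hu
      rw [← hu]
      simp only [hcls, Finset.filter_filter]
      rfl
    rw [fib]
    have HH := H m N hN (cls u0) (fun u => ((u / q ^ r : ℕ) : ℤ))
      (((u0 % q ^ r : ℕ) : ℝ) / (q : ℝ) ^ r) η hη ?_ w hw
    · refine le_trans (le_of_eq ?_) HH
      refine Finset.sum_congr ?_ ?_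
      · ext u
        simp only [hT, Finset.mem_filter]
        constructor
        · rintro ⟨⟨h1, h2⟩, h3⟩
          have h4 : u ∈ cls u0 := by
            rw [← fib, Finset.mem_filter]
            exact ⟨h1, h3⟩
          refine ⟨h4, ?_⟩
          rw [inner u h3, ← h3]
          exact h2
        · rintro ⟨h1, h2⟩
          have h3 : cls u = cls u0 := by
            rw [← fib, Finset.mem_filter] at h1
            exact h1.2
          refine ⟨⟨(Finset.mem_filter.1 h1).1, ?_⟩, h3⟩
          rw [inner u h3, ← h3] at h2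
          exact h2
      · intro u hu
        have h1 : u ∈ cls u0 := (Finset.mem_filter.1 hu).1
        have h2 : u % q ^ r = u0 % q ^ r := (Finset.mem_filter.1 h1).2.1
        simp only [hF]
        congr 2
        refine Finset.sum_congr rfl fun n _ => ?_
        congr 2
        rw [← h2, SUM_real D.hq r u, pow_add, mul_div_assoc', div_div]
    · intro u hu u' hu' l hl
      have h1 : rel Q q r R i u u' := by
        have a1 := (Finset.mem_filter.1 hu).2
        have a2 := (Finset.mem_filter.1 hu').2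
        exact SUM_trans (SUM_symm a1) a2
      exact (pow_dvd_pow _ hR).trans (h1.2 l hl)
  calc ∑ u ∈ T, F u = ∑ c ∈ S.image cls, ∑ u ∈ T with cls u = c, F u := e1
    _ ≤ ∑ c ∈ S.image cls, η * C * ((S.filter fun u => cls u = c).card : ℝ) * (N : ℝ) ^ 2 :=
        Finset.sum_le_sum key
    _ = η * C * S.card * (N : ℝ) ^ 2 := by
        rw [e2, Finset.mul_sum, Finset.sum_mul]

end

end Pool.Agent.LYD
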