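import Pool.Agent.LYD.Basic

set_option autoImplicit false

/-!
# LYD-TEL (helper43)
-/

open MeasureTheory Filter Topology
open Pool.Agent.LYN
open scoped Classical

namespace Pool.Agent.LYD

noncomputable section

namespace TEL_

/-- the weight -/
def wt (q k L B : ℕ) (S : Finset ℕ) (θ : ℝ) (v : ℕ) : ℝ :=
  ∏ b' ∈ Finset.range (4 * B),
    (if θ * ncl q S (L + k * b') v < ncl q S (L + k * (b' + 1)) v then θ else 1 / (q : ℝ) ^ k)

theorem wt_nonneg (q k L B : ℕ) (S : Finset ℕ) (θ : ℝ) (hθ : 0 < θ) (v : ℕ) :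
    0 ≤ wt q k L B S θ v := by
  refine Finset.prod_nonneg fun b _ => ?_
  split_ifs
  · exact hθ.le
  · positivity

theorem ncl_mod (q : ℕ) (S : Finset ℕ) (r m u : ℕ) (h : r ≤ m) :
    ncl q S r (u % q ^ m) = ncl q S r u := by
  unfold ncl
  rw [Nat.mod_mod_of_dvd u (pow_dvd_pow q h)]

theorem wt_mod (q k L B : ℕ) (S : Finset ℕ) (θ : ℝ) (u : ℕ) :
    wt q k L B S θ (u % q ^ (L + k * (4 * B))) = wt q k L B S θ u := by
  refine Finset.prod_congr rfl fun b hb => ?_
  have hb' : b < 4 * B := Finset.mem_range.1 hb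
  rw [ncl_mod q S (L + k * b) _ u (by gcongr), ncl_mod q S (L + k * (b + 1)) _ u
    (by gcongr; omega)]

theorem fib (q J R v : ℕ) (S : Finset ℕ) (hR : 0 < R) (hS : ∀ u ∈ S, u < R * q ^ J) :
    (S.filter fun u => u % R = v).card ≤ q ^ J := by
  rw [← Finset.card_range (q ^ J)]
  refine Finset.card_le_card_of_injOn (fun u => u / R) ?_ ?_
  · intro u hu
    have hu' := Finset.mem_filter.1 (Finset.mem_coe.1 hu)
    exact Finset.mem_coe.2 (Finset.mem_range.2 (Nat.div_lt_of_lt_mul (hS u hu'.1)))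
  · intro u hu u' hu' h
    have h1 := (Finset.mem_filter.1 (Finset.mem_coe.1 hu)).2
    have h2 := (Finset.mem_filter.1 (Finset.mem_coe.1 hu')).2
    have h3 : u / R = u' / R := h
    rw [← Nat.div_add_mod u R, ← Nat.div_add_mod u' R, h1, h2, h3]

theorem wt_ge (q k L B : ℕ) (S : Finset ℕ) (θ : ℝ) (hq : 2 ≤ q) (hθ : 0 < θ) (hθ1 : θ ≤ 1) (u : ℕ)
    (h : ((Finset.range (4 * B)).filter fun b =>
      (ncl q S (L + k * (b + 1)) u : ℝ) ≤ θ * ncl q S (L + k * b) u).card < B) :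
    θ ^ (4 * B) * (1 / (q : ℝ) ^ k) ^ B ≤ wt q k L B S θ u := by
  have hq1 : (1 : ℝ) ≤ (q : ℝ) ^ k := one_le_pow₀ (by exact_mod_cast (by omega : 1 ≤ q))
  have hq2 : 1 / (q : ℝ) ^ k ≤ 1 := by
    rw [div_le_one (by positivity)]
    exact hq1
  unfold wt
  rw [Finset.prod_ite, Finset.prod_const, Finset.prod_const]
  refine mul_le_mul ?_ ?_ (by positivity) (by positivity)
  · refine pow_le_pow_of_le_one hθ.le hθ1 ?_
    refine (Finset.card_filter_le _ _).trans ?_
    rw [Finset.card_range]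
  · refine pow_le_pow_of_le_one (by positivity) hq2 ?_
    refine le_trans (le_of_eq ?_) h.le
    congr 1
    ext b
    simp only [Finset.mem_filter, not_lt]

end TEL_

theorem p_TEL (h_KAP : T_KAP) : T_TEL := by
  intro q k L J B S θ hq hθ hθ1 hS
  have hq0 : 0 < q := by omega
  have h1 := h_KAP q k L S θ hq hθ (4 * B)
  set R := q ^ (L + k * (4 * B)) with hRdef
  have hR : 0 < R := by positivity
  have hS' : ∀ u ∈ S, u < R * q ^ J := fun u hu => by
    rw [hRdef, ← pow_add]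
    exact hS u hu
  have h2 : ∑ u ∈ S, TEL_.wt q k L B S θ u ≤
      (q : ℝ) ^ J * ∑ v ∈ S.image (fun u => u % R), TEL_.wt q k L B S θ v := by
    have h3 : ∑ u ∈ S, TEL_.wt q k L B S θ u =
        ∑ u ∈ S, TEL_.wt q k L B S θ (u % R) :=
      Finset.sum_congr rfl fun u _ => (TEL_.wt_mod q k L B S θ u).symm
    rw [h3, ← Finset.sum_fiberwise_of_maps_to (g := fun u => u % R) (t := S.image fun u => u % R)
      (fun u hu => Finset.mem_image_of_mem _ hu), Finset.mul_sum]
    refine Finset.sum_le_sum fun v _ => ?_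
    have h4 : ∑ u ∈ S.filter (fun u => u % R = v), TEL_.wt q k L B S θ (u % R) =
        ((S.filter fun u => u % R = v).card : ℝ) * TEL_.wt q k L B S θ v := by
      rw [← nsmul_eq_mul]
      refine Finset.sum_eq_card_nsmul fun u hu => ?_
      rw [(Finset.mem_filter.1 hu).2]
    rw [h4]
    refine mul_le_mul_of_nonneg_right ?_ (TEL_.wt_nonneg q k L B S θ hθ v)
    exact_mod_cast TEL_.fib q J R v S hR hS'
  have h5 : ∑ u ∈ S, TEL_.wt q k L B S θ u ≤ 2 ^ (4 * B) * (q : ℝ) ^ (L + J) := by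
    refine h2.trans ?_
    calc (q : ℝ) ^ J * ∑ v ∈ S.image (fun u => u % R), TEL_.wt q k L B S θ v
        ≤ (q : ℝ) ^ J * (2 ^ (4 * B) * (q : ℝ) ^ L) := by
          refine mul_le_mul_of_nonneg_left ?_ (by positivity)
          exact h1
      _ = 2 ^ (4 * B) * (q : ℝ) ^ (L + J) := by rw [pow_add]; ring
  refine le_trans ?_ h5
  rw [← nsmul_eq_mul, ← Finset.sum_const]
  refine le_trans (Finset.sum_le_sum fun u hu => ?_) (Finset.sum_le_sum_of_subset_of_nonneg
    (Finset.filter_subset _ S) fun u _ _ => TEL_.wt_nonneg q k L B S θ hθ u)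
  exact TEL_.wt_ge q k L B S θ hq hθ hθ1 u (Finset.mem_filter.1 hu).2

end

end Pool.Agent.LYD
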