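import Pool.Agent.LYD.Final
import Pool.Agent.LYD.P_LTE
import Pool.Agent.LYD.P_SPC
import Pool.Agent.LYD.P_ORT
import Pool.Agent.LYD.P_NDV
import Pool.Agent.LYD.P_STR
import Pool.Agent.LYD.P_PHS
import Pool.Agent.LYD.P_CLS
import Pool.Agent.LYD.P_SUM
import Pool.Agent.LYD.P_CHN
import Pool.Agent.LYD.P_KAP
import Pool.Agent.LYD.P_TEL
import Pool.Agent.LYD.P_CNT
import Pool.Agent.LYD.P_DIF
import Pool.Agent.LYD.P_BMP
import Pool.Agent.LYD.P_PNT
import Pool.Agent.LYD.P_CD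
import Pool.Agent.LYD.P_SEL
import Pool.Agent.LYD.P_MLT
import Pool.Agent.LYD.P_A4
import Pool.Agent.LYD.P_A
import Pool.Agent.LYD.P_INJ
import Pool.Agent.LYD.P_COH
import Pool.Agent.LYD.P_GRD
import Pool.Agent.LYD.P_MN1
import Pool.Agent.LYD.P_MAIN
import Pool.Agent.LYD.P_REC
import Pool.Agent.LYD.P_PHI
import Pool.Agent.LYD.P_MSF
import Pool.Agent.LYD.P_DFL
import Pool.Agent.LYD.P_OMI
import Pool.Agent.LYD.P_KEY

set_option autoImplicit false

/-!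
# LYD: assembly
-/

open MeasureTheory Filter Topology
open scoped Classical

namespace Pool.Agent.LYD

theorem MAIN : T_MAIN := by
  have hCLS : T_CLS := p_CLS p_PHS p_ORT p_LTE p_SPC
  have hSUM : T_SUM := p_SUM hCLS
  have hTEL : T_TEL := p_TEL p_KAP
  have hCNT : T_CNT := p_CNT hTEL
  have hCD : T_CD := p_CD hSUM p_CHN hCNT p_PNT
  have hMLT : T_MLT := p_MLT p_LTE p_SPC
  have hA4 : T_A4 := p_A4 hMLT p_ORT p_NDV
  have hA : T_A := p_A p_SEL hA4 p_BMP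
  have hMN1 : T_MN1 := p_MN1 p_BMP hCD hA p_DIF p_GRD
  exact p_MAIN p_STR (p_COH p_INJ) hMN1

theorem KEY : T_KEY := p_KEY MAIN p_REC p_PHI p_MSF

end Pool.Agent.LYD
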