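import Pool.Agent.LYD.Targets

set_option autoImplicit false

/-!
# LYD: elementary facts on the decomposition `Dat`, coherent sequences and scales
-/

open MeasureTheory Filter Topology
open Pool.Agent.LYN
open scoped Classical

namespace Pool.Agent.LYD

noncomputable section

section DatFacts

variable {p q g : ℕ} {Q P : ℕ → ℕ}

lemma Dat.q_eq (D : Dat p q g Q P) {i : ℕ} (hi : i < g) : q = Q i * co Q g i := by
  have h := Finset.mul_prod_erase (Finset.range g) Q (Finset.mem_range.2 hi)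
  rw [D.prod]
  unfold co
  exact h.symm

lemma Dat.Q_dvd (D : Dat p q g Q P) {i : ℕ} (hi : i < g) : Q i ∣ q :=
  ⟨_, D.q_eq hi⟩

lemma Dat.Q_pos (D : Dat p q g Q P) {i : ℕ} (hi : i < g) : 1 ≤ Q i := by
  rcases Nat.eq_zero_or_pos (Q i) with h | h
  · have h2 := D.q_eq hi
    have h3 := D.hq
    rw [h, zero_mul] at h2
    omega
  · exact h

lemma Dat.co_pos (D : Dat p q g Q P) {i : ℕ} (hi : i < g) : 1 ≤ co Q g i := by
  rcases Nat.eq_zero_or_pos (co Q g i) with h | h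
  · have h2 := D.q_eq hi
    have h3 := D.hq
    rw [h, mul_zero] at h2
    omega
  · exact h

lemma Dat.P_pos (D : Dat p q g Q P) {i : ℕ} (hi : i < g) : 1 ≤ P i := by
  rcases Nat.eq_zero_or_pos (P i) with h | h
  · have h2 := D.fac i hi
    have h3 := D.hp
    rw [h, mul_zero] at h2
    omega
  · exact h

lemma Dat.Q_le (D : Dat p q g Q P) {i : ℕ} (hi : i < g) : Q i ≤ q := by
  have := D.hq
  exact Nat.le_of_dvd (by omega) (D.Q_dvd hi)

lemma Dat.Q_pow_le (D : Dat p q g Q P) {i : ℕ} (hi : i < g) (m : ℕ) : Q i ^ m ≤ q ^ m :=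
  Nat.pow_le_pow_left (D.Q_le hi) m

lemma Dat.co_cop (D : Dat p q g Q P) {i : ℕ} (hi : i < g) : Nat.Coprime (co Q g i) (Q i) := by
  unfold co
  refine Nat.Coprime.prod_left fun j hj => ?_
  rw [Finset.mem_erase, Finset.mem_range] at hj
  exact D.cop j hj.2 i hi hj.1

lemma Dat.g_pos (D : Dat p q g Q P) : 1 ≤ g := by
  rcases Nat.eq_zero_or_pos g with h | h
  · have h2 := D.prod
    have h3 := D.hq
    rw [h, Finset.range_zero, Finset.prod_empty] at h2
    omega
  · exact h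

lemma Dat.ne (D : Dat p q g Q P) {i : ℕ} (hi : i < g) : P i ≠ co Q g i ^ i := by
  intro h
  have h2 : p = q ^ i := by
    rw [D.fac i hi, h, ← mul_pow, ← D.q_eq hi]
  have h3 := D.ind 1 i (by rw [pow_one]; exact h2)
  omega

/-- `p ^ n = Q i ^ (i n) * P i ^ n` -/
lemma Dat.p_pow (D : Dat p q g Q P) {i : ℕ} (hi : i < g) (n : ℕ) :
    p ^ n = Q i ^ (i * n) * P i ^ n := by
  conv_lhs => rw [D.fac i hi]
  rw [mul_pow, ← pow_mul]

/-- the other factors divide the cofactor: `Q l ^ (l n) ∣ P i ^ n` for `l ≠ i` -/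
lemma Dat.Q_dvd_P (D : Dat p q g Q P) {i l : ℕ} (hi : i < g) (hl : l < g) (h : l ≠ i) (n : ℕ) :
    Q l ^ (l * n) ∣ P i ^ n := by
  have h1 : Q l ^ (l * n) ∣ Q i ^ (i * n) * P i ^ n := by
    rw [← D.p_pow hi n, D.p_pow hl n]
    exact Dvd.intro _ rfl
  exact (Nat.Coprime.pow _ _ (D.cop l hl i hi h)).dvd_of_dvd_mul_left h1

/-- a product of pairwise coprime powers divides if all of them do -/
lemma Dat.prod_dvd (D : Dat p q g Q P) {s : Finset ℕ} (hs : ∀ l ∈ s, l < g) (e Z : ℕ)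
    (h : ∀ l ∈ s, Q l ^ e ∣ Z) : (∏ l ∈ s, Q l) ^ e ∣ Z := by
  rw [← Finset.prod_pow]
  refine Finset.prod_dvd_of_isRelPrime ?_ h
  intro a ha b hb hab
  exact Nat.coprime_iff_isRelPrime.1
    (Nat.Coprime.pow _ _ (D.cop a (hs a (by simpa using ha)) b (hs b (by simpa using hb)) hab))

end DatFacts

lemma coh_pow {q : ℕ} {d : ℕ → Ci} (h : ∀ k, q • d (k + 1) = d k) (j k : ℕ) :
    q ^ j • d (k + j) = d k := by
  induction j with
  | zero => simp
  | succ j ih =>
    have : q ^ (j + 1) • d (k + (j + 1)) = q ^ j • q • d (k + j + 1) := by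
      rw [← mul_smul, pow_succ, add_assoc]
    rw [this, h, ih]

lemma sc_succ (g q k t : ℕ) : sc g q k (t + 1) = g * q ^ sc g q k t + sc g q k t := rfl

lemma sc_mono (g q k : ℕ) : Monotone (sc g q k) := by
  refine monotone_nat_of_le_succ fun t => ?_
  rw [sc_succ]
  exact Nat.le_add_left _ _

lemma le_sc (g q k t : ℕ) : k ≤ sc g q k t := sc_mono g q k (Nat.zero_le t)

lemma ncl_le (q : ℕ) (S : Finset ℕ) (r u : ℕ) : ncl q S r u ≤ S.card :=
  Finset.card_le_card (Finset.filter_subset _ _)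

lemma ncl_pos {q : ℕ} {S : Finset ℕ} {u : ℕ} (hu : u ∈ S) (r : ℕ) : 1 ≤ ncl q S r u := by
  refine Finset.card_pos.2 ⟨u, ?_⟩
  rw [Finset.mem_filter]
  exact ⟨hu, rfl⟩

end

end Pool.Agent.LYD
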