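import Pool.Agent.LYD.Basic

set_option autoImplicit false

/-!
# LYD: the theorems on orbits for invariant measures
-/

open MeasureTheory Filter Topology
open Pool.Agent.LYN
open scoped Classical

namespace Pool.Agent.LYD

noncomputable section

lemma meas_top (q : ℕ) (K : Set Ci) (hK : IsClosed K) :
    MeasurableSet {x : Ci | ∀ᶠ j : ℕ in atTop, q ^ j • x ∉ K} := by
  have h : {x : Ci | ∀ᶠ j : ℕ in atTop, q ^ j • x ∉ K} =
      ⋃ J : ℕ, ⋂ j : ℕ, ⋂ (_ : J ≤ j), {x : Ci | q ^ j • x ∈ K}ᶜ := by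
    ext x
    simp only [Set.mem_ofPred_eq, eventually_atTop, Set.mem_iUnion, Set.mem_iInter,
      Set.mem_compl_iff]
  rw [h]
  refine MeasurableSet.iUnion fun J => MeasurableSet.iInter fun j => MeasurableSet.iInter fun _ => ?_
  refine MeasurableSet.compl ?_
  have hc : Continuous fun x : Ci => q ^ j • x := continuous_const_smul _
  exact (hK.preimage hc).measurableSet

lemma countable_fin : {x : Ci | IsOfFinAddOrder x}.Countable := by
  have h : {x : Ci | IsOfFinAddOrder x} ⊆ ⋃ n : ℕ, {x : Ci | 0 < n ∧ n • x = 0} := by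
    intro x hx
    obtain ⟨n, hn, hx⟩ := isOfFinAddOrder_iff_nsmul_eq_zero.1 hx
    exact Set.mem_iUnion.2 ⟨n, hn, hx⟩
  refine Set.Countable.mono h (Set.countable_iUnion fun n => ?_)
  rcases Nat.eq_zero_or_pos n with rfl | hn
  · simp
  · have h2 : {x : Ci | 0 < n ∧ n • x = 0} ⊆
        (Set.range fun m : ℕ => ((((m : ℝ) / n * 1 : ℝ)) : Ci)) := by
      rintro x ⟨-, hx⟩
      obtain ⟨m, _, hm⟩ := (AddCircle.nsmul_eq_zero_iff hn).1 hx
      exact ⟨m, hm⟩
    exact (Set.countable_range _).mono h2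

lemma mp_of_map {p : ℕ} {μ : Measure Ci} (h : μ.map (fun x : Ci => p • x) = μ) :
    MeasurePreserving (fun x : Ci => p • x) μ μ :=
  ⟨(continuous_const_smul p).measurable, h⟩

/-- dense orbits -/
theorem dense_orbits (h_KEY : T_KEY) (h_OMI : T_OMI) (p : ℕ) (hp : 2 ≤ p) (μ : Measure Ci)
    (hμ : IsProbabilityMeasure μ) (hat : ∀ x, μ {x} = 0) (hmap : μ.map (fun x : Ci => p • x) = μ) :
    ∀ᵐ x ∂μ, ∀ q : ℕ, 2 ≤ q → Ind p q → Dense (Set.range fun j : ℕ => q ^ j • x) := by
  have h1 : ∀ᵐ x ∂μ, ¬ IsOfFinAddOrder x := by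
    have : NullSingletonClass μ := ⟨hat⟩
    have h2 : μ {x : Ci | IsOfFinAddOrder x} = 0 := countable_fin.measure_zero μ
    rw [ae_iff]
    simpa using h2
  rw [ae_all_iff]
  intro q
  by_cases hq : 2 ≤ q
  swap
  · exact Eventually.of_forall fun x h => absurd h hq
  by_cases hi : Ind p q
  swap
  · exact Eventually.of_forall fun x _ h => absurd h hi
  have h3 := h_KEY p q hp hq hi atTop inferInstance (map_add_atTop_eq_nat 1) (meas_top q) μ hμ
    (mp_of_map hmap)
  filter_upwards [h1, h3] with x hx1 hx3 _ _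
  rcases hx3 with hx3 | hx3
  · exact absurd hx3 (h_OMI q x hq hx1)
  · rw [dense_iff_inter_open]
    intro U hU hUn
    obtain ⟨y, hy, hyU⟩ := hx3 U hU hUn
    have h4 : ∃ᶠ j : ℕ in atTop, q ^ j • x ∈ U := hy.frequently (hU.mem_nhds hyU)
    obtain ⟨j, hj⟩ := h4.exists
    exact ⟨q ^ j • x, hj, ⟨j, rfl⟩⟩

/-- frequencies of visits along a sequence -/
theorem orbit_frequencies (h_KEY : T_KEY) (h_PHI : T_PHI) (h_DFL : T_DFL) (p : ℕ) (hp : 2 ≤ p)
    (μ : Measure Ci) (hμ : IsProbabilityMeasure μ) (hmap : μ.map (fun x : Ci => p • x) = μ)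
    (N : ℕ → ℕ) (hN : Tendsto N atTop atTop) :
    ∀ᵐ x ∂μ, ∀ q : ℕ, 2 ≤ q → Ind p q →
      (∀ U : Set Ci, IsOpen U → U.Nonempty → ¬ Tendsto (fun i =>
        (((Finset.range (N i)).filter fun j => q ^ j • x ∈ U).card : ℝ) / N i) atTop (𝓝 0)) ∨
      (∃ m : ℕ, 1 ≤ m ∧ ∀ ε : ℝ, 0 < ε → Tendsto (fun i =>
        (((Finset.range (N i)).filter fun j => ε ≤ ‖q ^ j • m • x‖).card : ℝ) / N i)
          atTop (𝓝 0)) := by
  obtain ⟨D, hD, hDZ, hsh, hms⟩ := h_DFL N hN
  rw [ae_all_iff]
  intro q
  by_cases hq : 2 ≤ q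
  swap
  · exact Eventually.of_forall fun x h => absurd h hq
  by_cases hi : Ind p q
  swap
  · exact Eventually.of_forall fun x _ h => absurd h hi
  have h3 := h_KEY p q hp hq hi D hD hsh (hms q) μ hμ (mp_of_map hmap)
  filter_upwards [h3] with x hx3 _ _
  rcases hx3 with hx3 | hx3
  · right
    obtain ⟨_, _, _, hinv, hV⟩ := h_PHI D q x hD
    have hinv := hinv hsh
    -- points of a finite invariant set have finite order
    have hfin : ∀ e ∈ Phi D q x, IsOfFinAddOrder e := by
      intro e he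
      have h5 : ∀ n : ℕ, q ^ n • e ∈ Phi D q x := by
        intro n
        induction n with
        | zero => simpa using he
        | succ n ih =>
          rw [← hinv]
          refine ⟨q ^ n • e, ih, ?_⟩
          dsimp only
          rw [← mul_smul, pow_succ']
      have h6 : ¬ Function.Injective fun n : ℕ => q ^ n • e := by
        intro hinj
        have := Set.infinite_range_of_injective hinj
        exact this (hx3.subset (by rintro _ ⟨n, rfl⟩; exact h5 n))
      simp only [Function.Injective, not_forall] at h6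
      obtain ⟨a, b, hab, hne⟩ := h6
      have key : ∀ a b : ℕ, a < b → q ^ a • e = q ^ b • e → IsOfFinAddOrder e := by
        intro a b hlt hab
        have h7 : q ^ a < q ^ b := Nat.pow_lt_pow_right (by omega) hlt
        rw [isOfFinAddOrder_iff_nsmul_eq_zero]
        refine ⟨q ^ b - q ^ a, by omega, ?_⟩
        have h8 : (q ^ b - q ^ a) • e + q ^ a • e = q ^ b • e := by
          rw [← add_smul, Nat.sub_add_cancel h7.le]
        rw [hab] at h8
        simpa using h8
      rcases lt_or_gt_of_ne hne with h | h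
      · exact key a b h hab
      · exact key b a h hab.symm
    set S : Finset Ci := hx3.toFinset with hS
    set m : ℕ := ∏ e ∈ S, addOrderOf e with hm
    have hm1 : 1 ≤ m := by
      refine Nat.succ_le_of_lt (Finset.prod_pos fun e he => ?_)
      exact (hfin e (by rw [hS, Set.Finite.mem_toFinset] at he; exact he)).addOrderOf_pos
    have hme : ∀ e ∈ Phi D q x, m • e = 0 := by
      intro e he
      have he' : e ∈ S := by rw [hS, Set.Finite.mem_toFinset]; exact he
      exact addOrderOf_dvd_iff_nsmul_eq_zero.1 (Finset.dvd_prod_of_mem addOrderOf he')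
    refine ⟨m, hm1, fun ε hε => ?_⟩
    have hm0 : (0 : ℝ) < m := by exact_mod_cast hm1
    set V : Set Ci := {y | ‖m • y‖ < ε} with hVdef
    have hVo : IsOpen V := by
      have : Continuous fun y : Ci => ‖m • y‖ := (continuous_const_smul m).norm
      exact isOpen_lt this continuous_const
    have h9 := hV V hVo (fun e he => by
      rw [hVdef, Set.mem_ofPred_eq, hme e he, norm_zero]
      exact hε)
    have h10 : DZ N {j | q ^ j • x ∈ V} := (hDZ _).1 h9
    unfold DZ at h10
    refine h10.congr fun i => ?_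
    congr 2
    refine congrArg Finset.card ?_
    ext j
    have h11 : m • q ^ j • x = q ^ j • m • x := smul_comm _ _ _
    simp [hVdef, h11]
  · left
    intro U hU hUn ht
    obtain ⟨y, hy, hyU⟩ := hx3 U hU hUn
    have h4 : ∃ᶠ j : ℕ in D, q ^ j • x ∈ U := hy.frequently (hU.mem_nhds hyU)
    refine h4 ?_
    have h5 : {j : ℕ | ¬ q ^ j • x ∈ U} ∈ D := by
      rw [hDZ]
      unfold DZ
      refine ht.congr fun i => ?_
      congr 2
      refine congrArg Finset.card ?_
      ext j
      simp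
    exact h5

end

end Pool.Agent.LYD
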