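import Pool.Agent.LYD.Basic

set_option autoImplicit false

/-!
# LYD, target CD: the counting theorem
-/

open MeasureTheory Filter Topology
open Pool.Agent.LYN
open scoped Classical

namespace Pool.Agent.LYD

noncomputable section

namespace CD_

lemma unif {ι : Type} (S : Finset ι) (R : ι → ℕ → Prop) (mono : ∀ x C C', C ≤ C' → R x C → R x C')
    (h : ∀ x ∈ S, ∃ C, R x C) : ∃ C, ∀ x ∈ S, R x C := by
  induction S using Finset.induction_on with
  | empty => exact ⟨0, by simp⟩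
  | insert a S ha ih =>
    obtain ⟨C1, h1⟩ := ih fun x hx => h x (Finset.mem_insert_of_mem hx)
    obtain ⟨C2, h2⟩ := h a (Finset.mem_insert_self _ _)
    refine ⟨max C1 C2, fun x hx => ?_⟩
    rcases Finset.mem_insert.1 hx with rfl | hx
    · exact mono _ _ _ (le_max_right _ _) h2
    · exact mono _ _ _ (le_max_left _ _) (h1 x hx)

/-- averaging over pairs, with the inequality of Cauchy and Schwarz -/
lemma avg {ι : Type} (T : Finset ι) (A : Finset ℤ) (E : ℤ → ι → ℝ) (cc : ℤ → ℝ) (K e W : ℝ)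
    (hT : T.Nonempty) (_hE : ∀ a x, 0 ≤ E a x) (hcc : ∀ a, 0 ≤ cc a) (hK : 0 ≤ K)
    (hsq : ∀ a ∈ A, ∑ x ∈ T, E a x ^ 2 ≤ T.card * K ^ 2)
    (hpt : ∀ x ∈ T, W ≤ ∑ a ∈ A, cc a * (E a x + e)) :
    W ≤ ∑ a ∈ A, cc a * (K + e) := by
  have hT0 : (0 : ℝ) < T.card := by exact_mod_cast hT.card_pos
  have h1 : ∀ a ∈ A, ∑ x ∈ T, E a x ≤ T.card * K := by
    intro a ha
    have h2 := sq_sum_le_card_mul_sum_sq (s := T) (f := E a)
    have h3 : (∑ x ∈ T, E a x) ^ 2 ≤ (T.card * K) ^ 2 := by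
      calc (∑ x ∈ T, E a x) ^ 2 ≤ T.card * ∑ x ∈ T, E a x ^ 2 := h2
        _ ≤ T.card * (T.card * K ^ 2) := by
            exact mul_le_mul_of_nonneg_left (hsq a ha) hT0.le
        _ = (T.card * K) ^ 2 := by ring
    exact abs_le_of_sq_le_sq' h3 (by positivity) |>.2
  have h4 : T.card * W ≤ T.card * ∑ a ∈ A, cc a * (K + e) := by
    calc (T.card : ℝ) * W = ∑ x ∈ T, W := by simp
      _ ≤ ∑ x ∈ T, ∑ a ∈ A, cc a * (E a x + e) := Finset.sum_le_sum hpt
      _ = ∑ a ∈ A, cc a * ((∑ x ∈ T, E a x) + T.card * e) := by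
          rw [Finset.sum_comm]
          refine Finset.sum_congr rfl fun a _ => ?_
          rw [← Finset.mul_sum, Finset.sum_add_distrib]
          simp
      _ ≤ ∑ a ∈ A, cc a * (T.card * K + T.card * e) := by
          refine Finset.sum_le_sum fun a ha => ?_
          refine mul_le_mul_of_nonneg_left ?_ (hcc a)
          linarith [h1 a ha]
      _ = T.card * ∑ a ∈ A, cc a * (K + e) := by
          rw [Finset.mul_sum]
          refine Finset.sum_congr rfl fun a _ => ?_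
          ring
  exact le_of_mul_le_mul_left h4 hT0

/-- choice of `k` -/
lemma exk (q : ℕ) (hq : 2 ≤ q) (Z δ : ℝ) (hδ : 0 < δ) :
    ∃ k : ℕ, Z ≤ (q : ℝ) ^ k ∧ ∀ m : ℕ, k ≤ m → (m : ℝ) ≤ δ * (q : ℝ) ^ m := by
  have hq1 : (1 : ℝ) < q := by exact_mod_cast (by omega : 1 < q)
  have h1 := (tendsto_pow_atTop_atTop_of_one_lt hq1).eventually_ge_atTop Z
  have h2 := (tendsto_pow_const_div_const_pow_of_one_lt 1 hq1).eventually_le_const hδ
  obtain ⟨k, hk⟩ := eventually_atTop.1 (h1.and h2)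
  refine ⟨k, (hk k le_rfl).1, fun m hm => ?_⟩
  have h3 := (hk m hm).2
  have h4 : (0 : ℝ) < (q : ℝ) ^ m := by positivity
  rw [div_le_iff₀ h4, pow_one] at h3
  exact h3

end CD_

theorem p_CD (hSUM : T_SUM) (hCHN : T_CHN) (hCNT : T_CNT) (hPNT : T_PNT) : T_CD := by
  intro p q g Q P D U s c hT δ hδ
  obtain ⟨h0s, hc0, hneg⟩ := hT
  have hT : Tst U s c := ⟨h0s, hc0, hneg⟩
  have hq := D.hq
  have hp := D.hp
  have hg := D.g_pos
  set μ0 := (c 0).re with hμ0
  set c1 := ∑ a ∈ s.erase 0, ‖c a‖ with hc1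
  have hc1n : 0 ≤ c1 := Finset.sum_nonneg fun _ _ => norm_nonneg _
  -- the constant
  obtain ⟨C, hC⟩ := CD_.unif (Finset.range g ×ˢ s.erase 0)
    (fun x C => ∀ m N R r : ℕ, Q x.1 ^ m ≤ N → x.1 * N + m ≤ R → ∀ (S : Finset ℕ) (η : ℝ), 0 ≤ η →
      ∀ w : ℕ → ℝ, (∀ n, 0 ≤ w n ∧ w n ≤ 1) →
      ∑ u ∈ S.filter (fun u => ((S.filter fun u' => rel Q q r R x.1 u u' ∧
          (Q x.1 : ℤ) ^ m ∣ dif q r u u').card : ℝ) ≤
          η * (S.filter fun u' => rel Q q r R x.1 u u').card),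
        ‖∑ n ∈ Finset.Ico m N, (w n : ℂ) *
          ee ((x.2 : ℝ) * (p : ℝ) ^ n * u / (q : ℝ) ^ (r + (x.1 * n + m)))‖ ^ 2 ≤
        η * C * S.card * (N : ℝ) ^ 2)
    (fun x C C' hCC h m N R r h1 h2 S η h3 w h4 => (h m N R r h1 h2 S η h3 w h4).trans (by
      have : (C : ℝ) ≤ C' := by exact_mod_cast hCC
      gcongr))
    (fun x hx => by
      rw [Finset.mem_product, Finset.mem_range, Finset.mem_erase] at hx
      obtain ⟨C, _, h⟩ := hSUM p q g Q P D x.1 hx.1 x.2 hx.2.1
      exact ⟨C, h⟩)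
  set C' : ℝ := C + 1 with hC'
  have hC'0 : 0 < C' := by positivity
  set κ : ℝ := μ0 * δ / (4 * (c1 + 1)) with hκ
  have hκ0 : 0 < κ := by positivity
  have hκc : c1 * κ ≤ μ0 * δ / 4 := by
    rw [hκ]
    have h1 : c1 * (μ0 * δ / (4 * (c1 + 1))) = (μ0 * δ / 4) * (c1 / (c1 + 1)) := by
      field_simp
    rw [h1]
    have h2 : c1 / (c1 + 1) ≤ 1 := by
      rw [div_le_one (by positivity)]
      linarith
    have h3 : 0 ≤ μ0 * δ / 4 := by positivity
    calc μ0 * δ / 4 * (c1 / (c1 + 1)) ≤ μ0 * δ / 4 * 1 := mul_le_mul_of_nonneg_left h2 h3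
      _ = μ0 * δ / 4 := mul_one _
  have hg0 : (0 : ℝ) < g := by exact_mod_cast (by omega : 0 < g)
  set η : ℝ := min 1 (κ ^ 2 / (8 * g * C')) with hη
  have hη0 : 0 < η := lt_min one_pos (by positivity)
  have hη1 : η ≤ 1 := min_le_left _ _
  have hη2 : 8 * g * η * C ≤ κ ^ 2 := by
    have h1 : η ≤ κ ^ 2 / (8 * g * C') := min_le_right _ _
    rw [le_div_iff₀ (by positivity)] at h1
    have h2 : 8 * g * η * C ≤ η * (8 * g * C') := by
      have : (C : ℝ) ≤ C' := by rw [hC']; linarith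
      have h3 : 0 ≤ 8 * (g : ℝ) * η := by positivity
      nlinarith
    linarith
  set θ : ℝ := η ^ g with hθ
  have hθ0 : 0 < θ := by positivity
  have hθ1 : θ ≤ 1 := pow_le_one₀ hη0.le hη1
  obtain ⟨k, hk1, hk2⟩ := CD_.exk q hq (2 * (2 / θ) ^ 4) (δ / 2) (by positivity)
  set J := sc g q k g with hJ
  set Nm := q ^ sc g q k (g - 1) with hNm
  have hNm1 : 1 ≤ Nm := Nat.one_le_pow _ _ (by omega)
  set A : ℝ := ∑ a ∈ s, |(a : ℝ)| with hA
  have hAa : ∀ a ∈ s, |(a : ℝ)| ≤ A := fun a ha =>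
    Finset.single_le_sum (f := fun a : ℤ => |(a : ℝ)|) (fun _ _ => abs_nonneg _) ha
  obtain ⟨L, hL, -⟩ := CD_.exk q hq (2 * Real.pi * A * (p : ℝ) ^ Nm / κ) 1 one_pos
  obtain ⟨B, hB1, hB⟩ := hCNT q k θ hq hθ0 hθ1 hk1 L J
  refine ⟨L + k * (4 * B) + J, Nm, hNm1, ?_⟩
  intro F hF hvis
  set M := L + k * (4 * B) + J with hM
  set S := vis (q ^ M) F with hS
  have hSM : ∀ u ∈ S, u < q ^ M := fun u hu => by
    rw [hS] at hu
    unfold vis at hu
    exact Finset.mem_range.1 (Finset.mem_filter.1 hu).1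
  have hcnt := hB S hSM hvis
  have hS0 : 0 < S.card := by
    rcases Nat.eq_zero_or_pos S.card with h | h
    · rw [h] at hvis
      have : 0 < q ^ M := by positivity
      omega
    · exact h
  -- the good pairs of index `i`
  set G : ℕ → ℕ → Finset ℕ := fun i b => S.filter fun u =>
    ((S.filter fun u' => rel Q q (L + k * b) (sc g q k (g - i)) i u u' ∧
      (Q i : ℤ) ^ sc g q k (g - 1 - i) ∣ dif q (L + k * b) u u').card : ℝ) ≤
    η * (S.filter fun u' => rel Q q (L + k * b) (sc g q k (g - i)) i u u').card with hG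
  have hcov : ∀ b ∈ Finset.range (4 * B),
      ((S.filter fun u => (ncl q S (L + k * (b + 1)) u : ℝ) ≤ θ * ncl q S (L + k * b) u).card : ℝ) ≤
        ∑ i ∈ Finset.range g, ((G i b).card : ℝ) := by
    intro b _
    have h1 : (S.filter fun u => (ncl q S (L + k * (b + 1)) u : ℝ) ≤ θ * ncl q S (L + k * b) u) ⊆
        (Finset.range g).biUnion fun i => G i b := by
      intro u hu
      rw [Finset.mem_filter] at hu
      obtain ⟨i, hi, hi2⟩ := hCHN p q g Q P D k (L + k * b) u η S hη0 hu.1 (by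
        have : L + k * b + k = L + k * (b + 1) := by ring
        rw [this]
        exact hu.2)
      rw [Finset.mem_biUnion]
      refine ⟨i, Finset.mem_range.2 hi, ?_⟩
      rw [hG]
      simp only [Finset.mem_filter]
      exact ⟨hu.1, hi2⟩
    have h2 := (Finset.card_le_card h1).trans Finset.card_biUnion_le
    exact_mod_cast h2
  have htot : (S.card : ℝ) * B / 2 ≤
      ∑ i ∈ Finset.range g, ∑ b ∈ Finset.range (4 * B), ((G i b).card : ℝ) := by
    rw [Finset.sum_comm]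
    exact hcnt.trans (Finset.sum_le_sum hcov)
  obtain ⟨i, hi, hi2⟩ : ∃ i ∈ Finset.range g, (S.card : ℝ) * B / (2 * g) ≤
      ∑ b ∈ Finset.range (4 * B), ((G i b).card : ℝ) := by
    refine Finset.exists_le_of_sum_le (Finset.nonempty_range_iff.2 (by omega)) ?_
    refine le_trans (le_of_eq ?_) htot
    rw [Finset.sum_const, Finset.card_range, nsmul_eq_mul]
    field_simp
  rw [Finset.mem_range] at hi
  set m := sc g q k (g - 1 - i) with hm
  set N := q ^ m with hN
  have hmk : k ≤ m := le_sc _ _ _ _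
  have hN1 : 1 ≤ N := Nat.one_le_pow _ _ (by omega)
  have hNNm : N ≤ Nm := Nat.pow_le_pow_right (by omega) (sc_mono g q k (by omega))
  have hR : sc g q k (g - i) = g * N + m := by
    have : g - i = (g - 1 - i) + 1 := by omega
    rw [this, sc_succ]
  have hRi : i * N + m ≤ sc g q k (g - i) := by
    rw [hR]
    have := Nat.mul_le_mul_right N hi.le
    omega
  have hRJ : sc g q k (g - i) ≤ J := sc_mono g q k (by omega)
  refine ⟨N, hN1, hNNm, ?_⟩
  -- the weights
  set w : ℕ → ℝ := fun n => if ∀ x ∈ F, p ^ n • x ∉ U then 1 else 0 with hw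
  have hw01 : ∀ n, 0 ≤ w n ∧ w n ≤ 1 := fun n => by
    rw [hw]
    dsimp only
    split_ifs <;> norm_num
  set W := ∑ n ∈ Finset.Ico m N, w n with hW
  have hN0 : (0 : ℝ) < N := by exact_mod_cast hN1
  -- the main inequality
  have hmain : μ0 * W ≤ ∑ a ∈ s.erase 0, ‖c a‖ * (κ * N + κ * N) := by
    set T : Finset (Σ _ : ℕ, ℕ) := (Finset.range (4 * B)).sigma (G i) with hTdef
    have hTcard : (T.card : ℝ) = ∑ b ∈ Finset.range (4 * B), ((G i b).card : ℝ) := by
      rw [hTdef, Finset.card_sigma]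
      push_cast
      rfl
    have hTpos : 0 < (T.card : ℝ) := by
      rw [hTcard]
      refine lt_of_lt_of_le ?_ hi2
      have : (0 : ℝ) < S.card := by exact_mod_cast hS0
      have : (0 : ℝ) < B := by exact_mod_cast hB1
      positivity
    have hTne : T.Nonempty := Finset.card_pos.1 (by exact_mod_cast hTpos)
    refine CD_.avg T (s.erase 0) (fun a x => ‖∑ n ∈ Finset.Ico m N, (w n : ℂ) *
      ee ((a : ℝ) * (p : ℝ) ^ n * x.2 / (q : ℝ) ^ (L + k * x.1 + (i * n + m)))‖)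
      (fun a => ‖c a‖) (κ * N) (κ * N) _ hTne (fun _ _ => norm_nonneg _) (fun _ => norm_nonneg _)
      (by positivity) ?_ ?_
    · intro a ha
      have h1 : ∀ b ∈ Finset.range (4 * B), ∑ u ∈ G i b, ‖∑ n ∈ Finset.Ico m N, (w n : ℂ) *
          ee ((a : ℝ) * (p : ℝ) ^ n * u / (q : ℝ) ^ (L + k * b + (i * n + m)))‖ ^ 2 ≤
          η * C * S.card * (N : ℝ) ^ 2 := fun b _ =>
        hC (i, a) (Finset.mem_product.2 ⟨Finset.mem_range.2 hi, ha⟩) m N (sc g q k (g - i))
          (L + k * b) (D.Q_pow_le hi m) hRi S η hη0.le w hw01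
      have h2 : ∑ x ∈ T, ‖∑ n ∈ Finset.Ico m N, (w n : ℂ) *
          ee ((a : ℝ) * (p : ℝ) ^ n * x.2 / (q : ℝ) ^ (L + k * x.1 + (i * n + m)))‖ ^ 2 ≤
          ∑ b ∈ Finset.range (4 * B), η * C * S.card * (N : ℝ) ^ 2 := by
        rw [hTdef, Finset.sum_sigma]
        exact Finset.sum_le_sum h1
      refine h2.trans ?_
      rw [Finset.sum_const, Finset.card_range, nsmul_eq_mul]
      push_cast
      have h3 : (S.card : ℝ) * B ≤ 2 * g * T.card := by
        rw [hTcard]
        rw [div_le_iff₀ (by positivity)] at hi2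
        linarith
      calc 4 * (B : ℝ) * (η * C * S.card * (N : ℝ) ^ 2)
          = (4 * η * C * (N : ℝ) ^ 2) * ((S.card : ℝ) * B) := by ring
        _ ≤ (4 * η * C * (N : ℝ) ^ 2) * (2 * g * T.card) := by
            exact mul_le_mul_of_nonneg_left h3 (by positivity)
        _ = T.card * ((8 * g * η * C) * (N : ℝ) ^ 2) := by ring
        _ ≤ T.card * (κ ^ 2 * (N : ℝ) ^ 2) := by
            refine mul_le_mul_of_nonneg_left ?_ hTpos.le
            exact mul_le_mul_of_nonneg_right hη2 (by positivity)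
        _ = T.card * (κ * N) ^ 2 := by ring
    · rintro ⟨b, u⟩ hx
      rw [hTdef, Finset.mem_sigma] at hx
      have hb : b < 4 * B := Finset.mem_range.1 hx.1
      have huS : u ∈ S := (Finset.mem_filter.1 hx.2).1
      have hrM : L + k * b + (i * N + m) ≤ M := by
        have h1 : k * b ≤ k * (4 * B) := Nat.mul_le_mul_left _ hb.le
        omega
      have h1 := hPNT p q i m N (L + k * b) M U s c F u w hp hq hT hF huS hrM (fun n => rfl)
      refine h1.trans (Finset.sum_le_sum fun a ha => ?_)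
      refine mul_le_mul_of_nonneg_left ?_ (norm_nonneg _)
      dsimp only
      refine add_le_add le_rfl ?_
      rw [mul_comm κ]
      refine mul_le_mul_of_nonneg_left ?_ hN0.le
      rw [div_le_iff₀ (by positivity)]
      have hpN : (p : ℝ) ^ N ≤ (p : ℝ) ^ Nm :=
        pow_le_pow_right₀ (by exact_mod_cast (by omega : 1 ≤ p)) hNNm
      have hqL : (q : ℝ) ^ L ≤ (q : ℝ) ^ (L + k * b) :=
        pow_le_pow_right₀ (by exact_mod_cast (by omega : 1 ≤ q)) (Nat.le_add_right _ _)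
      have h2 : 2 * Real.pi * A * (p : ℝ) ^ Nm ≤ κ * (q : ℝ) ^ L := by
        rw [div_le_iff₀ hκ0] at hL
        linarith
      have hA2 := hAa a (Finset.mem_of_mem_erase ha)
      calc 2 * Real.pi * |(a : ℝ)| * (p : ℝ) ^ N ≤ 2 * Real.pi * A * (p : ℝ) ^ Nm := by
            have := Real.pi_pos
            gcongr
        _ ≤ κ * (q : ℝ) ^ L := h2
        _ ≤ κ * (q : ℝ) ^ (L + k * b) := mul_le_mul_of_nonneg_left hqL hκ0.le
  have hWle : W ≤ δ / 2 * N := by
    have h1 : ∑ a ∈ s.erase 0, ‖c a‖ * (κ * N + κ * N) = c1 * κ * (2 * N) := by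
      rw [← Finset.sum_mul, hc1]
      ring
    rw [h1] at hmain
    have h2 : c1 * κ * (2 * N) ≤ μ0 * δ / 4 * (2 * N) :=
      mul_le_mul_of_nonneg_right hκc (by positivity)
    have h3 : μ0 * W ≤ μ0 * (δ / 2 * N) := by linarith
    exact le_of_mul_le_mul_left h3 hc0
  -- counting
  have hcount : (((Finset.range N).filter fun n => ∀ x ∈ F, p ^ n • x ∉ U).card : ℝ) ≤ m + W := by
    have h1 : (((Finset.range N).filter fun n => ∀ x ∈ F, p ^ n • x ∉ U).card : ℝ) =
        ∑ n ∈ Finset.range N, w n := by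
      rw [hw]
      simp only [Finset.sum_ite, Finset.sum_const_zero, add_zero, Finset.sum_const, nsmul_eq_mul,
        mul_one]
    rw [h1]
    rcases le_total m N with hmN | hmN
    · rw [← Finset.sum_range_add_sum_Ico w hmN]
      have h2 : ∑ n ∈ Finset.range m, w n ≤ m := by
        calc ∑ n ∈ Finset.range m, w n ≤ ∑ n ∈ Finset.range m, (1 : ℝ) :=
              Finset.sum_le_sum fun n _ => (hw01 n).2
          _ = m := by simp
      linarith
    · have h2 : ∑ n ∈ Finset.range N, w n ≤ N := by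
        calc ∑ n ∈ Finset.range N, w n ≤ ∑ n ∈ Finset.range N, (1 : ℝ) :=
              Finset.sum_le_sum fun n _ => (hw01 n).2
          _ = N := by simp
      have h3 : (N : ℝ) ≤ m := by exact_mod_cast hmN
      have h4 : 0 ≤ W := Finset.sum_nonneg fun n _ => (hw01 n).1
      linarith
  have hmN := hk2 m hmk
  have hNr : (N : ℝ) = (q : ℝ) ^ m := by
    rw [hN]
    push_cast
    rfl
  rw [← hNr] at hmN
  linarith

end

end Pool.Agent.LYD
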