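import Pool.Agent.LYN.Basic

set_option autoImplicit false

/-!
# LYD: dense orbits under multiplication by `q` for times-`p` invariant measures (MP_54a40f_an)

`p, q ≥ 2` multiplicatively independent. Main theorem (`T_MAIN`): for every infinite closed set `F` of the circle
with `q F = F` and every nonempty open `U`, the set of `n` such that `p^n F` misses `U` has upper Banach density
zero. Consequence (`T_KEY`): for every times-`p` invariant probability measure, almost every `x`: the set of cluster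
points of `q^j x` along a shift invariant filter is finite or dense. All targets with complete proofs in the
docstrings. `ee t = exp(2 π i t)`; library of small facts on `ee` and `fourier`: `Pool/Agent/LYN/Basic.lean`
(`ee_add`, `ee_int`, `ee_add_int`, `norm_ee`, `ee_lip`, `fourier_coe`, `fourier_norm`, `fourier_add_pt`,
`fourier_nsmul`, ...), and `Pool/Agent/LYN/Host1.lean` (`H_root`: sums of roots of unity).
-/

open MeasureTheory Filter Topology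
open Pool.Agent.LYN
open scoped Classical

namespace Pool.Agent.LYD

noncomputable section

/-- the circle -/
abbrev Ci : Type := UnitAddCircle

/-- multiplicatively independent -/
def Ind (p q : ℕ) : Prop := ∀ m n : ℕ, p ^ m = q ^ n → m = 0 ∧ n = 0

/-- `q` is a product of pairwise coprime numbers `Q 0, ..., Q (g-1)` (possibly equal to one) and `p = Q i ^ i * P i`
with `P i` coprime to `Q i`: every prime `l` dividing `Q i` satisfies `v_l(p) = i v_l(q)` -/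
structure Dat (p q g : ℕ) (Q P : ℕ → ℕ) : Prop where
  hp : 2 ≤ p
  hq : 2 ≤ q
  ind : Ind p q
  prod : q = ∏ i ∈ Finset.range g, Q i
  cop : ∀ i < g, ∀ j < g, i ≠ j → Nat.Coprime (Q i) (Q j)
  fac : ∀ i < g, p = Q i ^ i * P i
  copP : ∀ i < g, Nat.Coprime (P i) (Q i)

/-- the product of the other factors -/
def co (Q : ℕ → ℕ) (g i : ℕ) : ℕ := ∏ j ∈ (Finset.range g).erase i, Q j

/-- coherent sequences of differences -/
def Coh (q : ℕ) (d : ℕ → Ci) : Prop := d 0 = 0 ∧ d 1 ≠ 0 ∧ ∀ k, q • d (k + 1) = d k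

/-- test polynomial for `U`: positive mean, and real part at most zero outside `U` -/
def Tst (U : Set Ci) (s : Finset ℤ) (c : ℤ → ℂ) : Prop :=
  (0 : ℤ) ∈ s ∧ 0 < (c 0).re ∧
    ∀ x : Ci, x ∉ U → (∑ a ∈ s, c a * (fourier a : C(UnitAddCircle, ℂ)) x).re ≤ 0

/-- arcs from `u/R` (included) to `(u+1)/R` (excluded) visited by `F` -/
def vis (R : ℕ) (F : Set Ci) : Finset ℕ :=
  (Finset.range R).filter fun u => ∃ y : ℝ, (u : ℝ) / R ≤ y ∧ y < ((u : ℝ) + 1) / R ∧ (y : Ci) ∈ F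

/-- number of elements of `S` congruent to `u` modulo `q^r` -/
def ncl (q : ℕ) (S : Finset ℕ) (r u : ℕ) : ℕ := (S.filter fun u' => u' % q ^ r = u % q ^ r).card

/-- difference of the pasts before the last `r` digits -/
def dif (q r u u' : ℕ) : ℤ := ((u / q ^ r : ℕ) : ℤ) - ((u' / q ^ r : ℕ) : ℤ)

/-- same last `r` digits, and pasts congruent modulo `Q l ^ R` for `l < i` -/
def rel (Q : ℕ → ℕ) (q r R i u u' : ℕ) : Prop :=
  u' % q ^ r = u % q ^ r ∧ ∀ l < i, (Q l : ℤ) ^ R ∣ dif q r u u'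

/-- scales: `sc 0 = k`, `sc (t+1) = g q^(sc t) + sc t` -/
def sc (g q k : ℕ) : ℕ → ℕ
  | 0 => k
  | t + 1 => g * q ^ sc g q k t + sc g q k t

/-- cluster points of `q^j x` along the filter `D` -/
def Phi (D : Filter ℕ) (q : ℕ) (x : Ci) : Set Ci := {y | MapClusterPt y D fun j : ℕ => q ^ j • x}

/-- `A` is large: its complement has density zero along `N` -/
def DZ (N : ℕ → ℕ) (A : Set ℕ) : Prop :=
  Tendsto (fun i => (((Finset.range (N i)).filter fun j => j ∉ A).card : ℝ) / N i) atTop (𝓝 0)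

/-! ## Arithmetic -/

/-- LYD-LTE. Adapt `Pool/Agent/LYN/P_LTE.lean` (the case `y = 1`; same proof, with
`Int.emultiplicity_pow_sub_pow` and `Int.two_pow_sub_pow'` for general `x, y`). Let `f = totient (Q^2)`; then
`Q^2` divides `X - Y` with `X = x^f`, `Y = y^f`, and `X ≠ Y`; `C = |X - Y|`. `D` divides `a (X^h - Y^h)`, and for a
prime power `l^j ∣ D`, `j ≥ 1`: `l ∣ Q`, `l^2 ∣ X - Y`, `l ∤ X`, so `v_l(X^h - Y^h) = v_l(X - Y) + v_l(h)`; hence
`D ∣ a (X - Y) h` and `D ≤ |a| |X - Y| h`. -/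
def T_LTE : Prop := ∀ Q x y : ℕ, 1 ≤ Q → 1 ≤ x → 1 ≤ y → x ≠ y → Nat.Coprime x Q → Nat.Coprime y Q →
  ∃ C : ℕ, 1 ≤ C ∧ ∀ (a : ℤ) (D k h : ℕ), a ≠ 0 → 1 ≤ h → D ∣ Q ^ k →
    (D : ℤ) ∣ a * ((x : ℤ) ^ h - (y : ℤ) ^ h) → D ≤ C * a.natAbs * h

/-- LYD-SPC. Spaced sets. Induction on `A.card` (remove the maximum): show `D (|A| - 1) ≤ C (max A - x)`:
the new maximum `a'` satisfies `D ≤ C (a - a')`. -/
def T_SPC : Prop := ∀ (A : Finset ℕ) (x N D C : ℕ), (∀ n ∈ A, x ≤ n ∧ n < x + N) →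
  (∀ n ∈ A, ∀ n' ∈ A, n < n' → D ≤ C * (n' - n)) → D * A.card ≤ C * N + D

/-- LYD-ORT. Orthogonality. Expand the square: `∑_{n, n' ∈ I} α_n conj(α_n') ∑_{σ < m} ee((c_n - c_n') σ / m)`; the
inner sum is `m` if `m ∣ c_n - c_n'` and `0` otherwise (`H_root` in `Pool/Agent/LYN/Host1.lean`, or directly). The
norm of what remains is at most `m` times the number of pairs with `m ∣ c_n - c_n'`. -/
def T_ORT : Prop := ∀ (m : ℕ) (I : Finset ℕ) (α : ℕ → ℂ) (c : ℕ → ℤ) (B : ℕ), 1 ≤ m →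
  (∀ n ∈ I, ‖α n‖ ≤ 1) → (∀ n ∈ I, (I.filter fun n' => (m : ℤ) ∣ c n - c n').card ≤ B) →
  ∑ σ ∈ Finset.range m, ‖∑ n ∈ I, α n * ee ((c n : ℝ) * σ / m)‖ ^ 2 ≤ (m : ℝ) * I.card * B

/-- LYD-NDV. (1) If `G ∣ Q^m` then `G ∣ Q^G`: for each prime `l`, `v_l(G) < G` (`Nat.factorization_lt`) and
`v_l(Q) ≥ 1` when `v_l(G) ≥ 1`. (2) `D` is coprime to `W`, so `D ∣ |a| Q^j`; with `G = D / gcd(D, Q^j)`, `G ∣ |a|`
(`G` is coprime to `Q^j / gcd(D, Q^j)`), so `G ≤ |a|`, `G ∣ Q^m`, by (1) `G ∣ Q^G ∣ Q^|a|`, and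
`D = G gcd(D, Q^j) ∣ Q^|a| Q^j`. -/
def T_NDV : Prop := ∀ (Q W j D m : ℕ) (a : ℤ), 1 ≤ Q → a ≠ 0 → Nat.Coprime W Q → D ∣ Q ^ m →
  (D : ℤ) ∣ a * ((Q : ℤ) * W) ^ j → D ∣ Q ^ (j + a.natAbs)

/-- LYD-STR. Take `b = q!` and `p' = p^b`, `g = p' + 1`, `Q i` = product over the primes `l ∣ q` with
`v_l(p') = i v_l(q)` of `l^(v_l(q))`, `P i = p' / Q i ^ i`. For every prime `l ∣ q`: `1 ≤ v_l(q) ≤ q` divides `b`,
so `v_l(q)` divides `v_l(p') = b v_l(p)`, and `i = v_l(p') / v_l(q) ≤ v_l(p') < p' + 1` (`Nat.factorization_lt`): the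
primes of `q` are partitioned, the product of the `Q i` is `q`, the `Q i` are pairwise coprime, and
`v_l(Q i ^ i) = i v_l(q) = v_l(p')` for `l ∣ Q i`, so `Q i ^ i ∣ p'` and the quotient is coprime to `Q i`. -/
def T_STR : Prop := ∀ p q : ℕ, 2 ≤ p → 2 ≤ q → Ind p q →
  ∃ b : ℕ, 1 ≤ b ∧ ∃ (g : ℕ) (Q P : ℕ → ℕ), Dat (p ^ b) q g Q P

/-! ## Counting in classes -/

/-- LYD-PHS. `W := co Q g i` is coprime to `Q i` and `q = Q i * W`. Let `c` with `c W^(i n + m) ≡ (P i)^n` modulo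
`(Q i)^m` (Bezout). `W^(i n + m)` divides `(P i)^n Δ`: it is the product of the pairwise coprime `(Q l)^(i n + m)`,
`l ≠ i`; for `l < i` it divides `Δ`; for `l > i`, `(Q l)^(l n) ∣ p^n = (Q i)^(i n) (P i)^n` and `Q l` is coprime
to `Q i`, so `(Q l)^(l n) ∣ (P i)^n`, and `i n + m ≤ l n`. Write `(P i)^n Δ = W^(i n + m) X`. Then
`p^n Δ / q^(i n + m) = X / (Q i)^m`, and `(c Δ - X) W^(i n + m) = (c W^(i n + m) - (P i)^n) Δ` is divisible by
`(Q i)^m`, so `(Q i)^m ∣ c Δ - X`. -/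
def T_PHS : Prop := ∀ (p q g : ℕ) (Q P : ℕ → ℕ), Dat p q g Q P → ∀ i < g, ∀ m n : ℕ, m ≤ n →
  ∃ c : ℤ, ((Q i : ℤ) ^ m ∣ c * (co Q g i : ℤ) ^ (i * n + m) - (P i : ℤ) ^ n) ∧
    ∀ Δ : ℤ, (∀ l < i, (Q l : ℤ) ^ (i * n + m) ∣ Δ) →
      ∃ z : ℤ, (p : ℝ) ^ n * Δ / (q : ℝ) ^ (i * n + m) = (c : ℝ) * Δ / (Q i : ℝ) ^ m + z

/-- LYD-CLS (uses T_PHS, T_ORT, T_LTE, T_SPC). Let `C0` be the constant of T_LTE for `(Q i, P i, W^i)`,
`W = co Q g i` (they are different since otherwise `p = q^i`, see `Dat.ne` in Basic), and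
`C = C0 |a| + 1`. `S` empty is trivial; fix `u0 ∈ S`, `Δ_u = s u - s u0`, `c_n` from T_PHS (for `m ≤ n < N`), and
`β_n = ee(a p^n (t + s u0) / q^(i n + m))`. Then `ee(a p^n (t + s u) / q^(i n + m)) = β_n ee(a c_n Δ_u / (Q i)^m)`
which depends only on `σ(u) = Δ_u mod (Q i)^m`, `0 ≤ σ(u) < (Q i)^m`. For every `σ` at most `η |S|` elements `u` of
the filtered set have `σ(u) = σ` (if there is one, `u1`, all others satisfy `(Q i)^m ∣ s u1 - s u'`). So the sum is at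
most `η |S| ∑_{σ < (Q i)^m} |∑_n w_n β_n ee(a c_n σ / (Q i)^m)|^2 ≤ η |S| (Q i)^m N B` (T_ORT, with `c n` replaced by
`a c_n`, `I = Ico m N`) where `B` bounds the number of `n' ∈ I` with `(Q i)^m ∣ a (c_n - c_n')`. If `n' < n''` are two
of them, then `(Q i)^m ∣ a (c_n' - c_n'')`; multiply by `W^(i n'' + m)`:
`(Q i)^m ∣ a (P i)^n' (W^(i h) - (P i)^h)`, `h = n'' - n'`, `P i` is coprime to `Q i`, so T_LTE gives
`(Q i)^m ≤ C0 |a| h`; T_SPC: `(Q i)^m * number ≤ C0 |a| N + (Q i)^m ≤ C N`. So `B = C N / (Q i)^m` (integer part)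
works and `(Q i)^m N B ≤ C N^2`. -/
def T_CLS : Prop := ∀ (p q g : ℕ) (Q P : ℕ → ℕ), Dat p q g Q P → ∀ i < g, ∀ a : ℤ, a ≠ 0 →
  ∃ C : ℕ, 1 ≤ C ∧ ∀ m N : ℕ, Q i ^ m ≤ N → ∀ (S : Finset ℕ) (s : ℕ → ℤ) (t η : ℝ), 0 ≤ η →
    (∀ u ∈ S, ∀ u' ∈ S, ∀ l < i, (Q l : ℤ) ^ (i * N + m) ∣ s u - s u') →
    ∀ w : ℕ → ℝ, (∀ n, 0 ≤ w n ∧ w n ≤ 1) →
    ∑ u ∈ S.filter (fun u => ((S.filter fun u' => (Q i : ℤ) ^ m ∣ s u - s u').card : ℝ) ≤ η * S.card),
      ‖∑ n ∈ Finset.Ico m N, (w n : ℂ) *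
        ee ((a : ℝ) * (p : ℝ) ^ n * (t + s u) / (q : ℝ) ^ (i * n + m))‖ ^ 2 ≤ η * C * S.card * (N : ℝ) ^ 2

/-- LYD-SUM (uses T_CLS). `rel Q q r R i` restricted to `S` is an equivalence relation; on each class `S'` apply
T_CLS with `s u = u / q^r` (natural division), `t = (u % q^r) / q^r` (constant on the class), so that
`t + s u = u / q^r` (real division), and with `(Q l)^(i N + m) ∣ (Q l)^R ∣ s u - s u'`; for `u ∈ S'`,
`S.filter (rel .. u) = S'` and `S.filter (rel .. u u' ∧ ..)` is the inner filter of `S'`. Sum over the classes, for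
example over the quotient, or by strong induction on `S.card` removing one class; or write
`∑_u = ∑_{classes} ∑_{u in the class}` with `Finset.sum_fiberwise` for the map `u ↦ S.filter (rel .. u)` into
`Finset ℕ`. -/
def T_SUM : Prop := ∀ (p q g : ℕ) (Q P : ℕ → ℕ), Dat p q g Q P → ∀ i < g, ∀ a : ℤ, a ≠ 0 →
  ∃ C : ℕ, 1 ≤ C ∧ ∀ m N R r : ℕ, Q i ^ m ≤ N → i * N + m ≤ R → ∀ (S : Finset ℕ) (η : ℝ), 0 ≤ η →
    ∀ w : ℕ → ℝ, (∀ n, 0 ≤ w n ∧ w n ≤ 1) →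
    ∑ u ∈ S.filter (fun u => ((S.filter fun u' => rel Q q r R i u u' ∧ (Q i : ℤ) ^ m ∣ dif q r u u').card : ℝ) ≤
        η * (S.filter fun u' => rel Q q r R i u u').card),
      ‖∑ n ∈ Finset.Ico m N, (w n : ℂ) *
        ee ((a : ℝ) * (p : ℝ) ^ n * u / (q : ℝ) ^ (r + (i * n + m)))‖ ^ 2 ≤ η * C * S.card * (N : ℝ) ^ 2

/-- LYD-CHN. Let `C_i(u) = S.filter (rel Q q r (sc g q k (g - i)) i u)` and `E_i` the condition
`(Q i)^(sc g q k (g - 1 - i)) ∣ dif q r u u'`. `C_0(u)` has `ncl q S r u` elements. `sc` is monotone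
(`sc (t+1) ≥ sc t`), so `C_i(u) ∩ E_i ⊆ C_(i+1)(u)` for `i < g` (the exponent for `C_(i+1)` is
`sc (g - 1 - i) ≤ sc (g - i)`). `C_g(u)` is the set of `u'` with `u' ≡ u` modulo `q^r` and `(Q l)^k ∣ dif` for all
`l < g`, that is `q^k ∣ dif` (pairwise coprime, product `q`), that is `u' ≡ u` modulo `q^(r+k)` (for `u' ≡ u` modulo
`q^r`, `u - u' = q^r dif`): it has `ncl q S (r + k) u` elements. If `|C_i ∩ E_i| > η |C_i|` for all `i < g` then
`|C_g| > η^g |C_0|` (`g ≥ 1` because `q ≥ 2`, and `|C_0| ≥ 1`). -/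
def T_CHN : Prop := ∀ (p q g : ℕ) (Q P : ℕ → ℕ), Dat p q g Q P → ∀ (k r u : ℕ) (η : ℝ) (S : Finset ℕ),
  0 < η → u ∈ S → (ncl q S (r + k) u : ℝ) ≤ η ^ g * ncl q S r u →
  ∃ i < g, ((S.filter fun u' => rel Q q r (sc g q k (g - i)) i u u' ∧
      (Q i : ℤ) ^ sc g q k (g - 1 - i) ∣ dif q r u u').card : ℝ) ≤
    η * (S.filter fun u' => rel Q q r (sc g q k (g - i)) i u u').card

/-- LYD-KAP. `κ b v = θ` if `ncl (L + k (b+1)) v > θ ncl (L + k b) v` and `1/q^k` otherwise. Induction on `b`. For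
`b = 0` the set is contained in `range (q^L)`. Step: `S_b := S.image (· % q^(L + k b))`. For `b' < b` the value
`κ b' v` depends only on `v % q^(L + k b)` (as `q^(L + k (b'+1)) ∣ q^(L + k b)`), and `v ↦ v % q^(L + k b)` maps
`S_(b+1)` to `S_b`, so the sum over `S_(b+1)` is `∑_{f ∈ S_b} (∏_{b' < b} κ b' f) ∑_{v ∈ S_(b+1), v % q^(L+kb) = f} κ b v`
and the inner sum is at most `2`: there are at most `q^k` such `v` (they are `f + q^(L+kb) z`, `z < q^k`), which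
bounds the part with `κ = 1/q^k` by `1`; those with `κ = θ` satisfy
`ncl (L + k (b+1)) v > θ ncl (L + k b) f`, and `∑_v ncl (L + k (b+1)) v ≤ ncl (L + k b) f` (disjoint classes), so
their number times `θ` is at most `1`. -/
def T_KAP : Prop := ∀ (q k L : ℕ) (S : Finset ℕ) (θ : ℝ), 2 ≤ q → 0 < θ → ∀ b : ℕ,
  ∑ v ∈ S.image (fun u => u % q ^ (L + k * b)), ∏ b' ∈ Finset.range b,
    (if θ * ncl q S (L + k * b') v < ncl q S (L + k * (b' + 1)) v then θ else 1 / (q : ℝ) ^ k) ≤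
  2 ^ b * (q : ℝ) ^ L

/-- LYD-TEL (uses T_KAP). Apply T_KAP with `b = 4 B`. The map `u ↦ u % q^(L + k (4B))` on `S` has fibres of at most
`q^J` elements and the product depends only on the image, so `∑_{u ∈ S} ∏_{b < 4B} κ b u ≤ 2^(4B) q^(L + J)`. For `u`
with fewer than `B` good `b` the product is at least `θ^(4B) (1/q^k)^B` (`θ ≤ 1`, `1/q^k ≤ 1`); all products are
nonnegative. -/
def T_TEL : Prop := ∀ (q k L J B : ℕ) (S : Finset ℕ) (θ : ℝ), 2 ≤ q → 0 < θ → θ ≤ 1 →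
  (∀ u ∈ S, u < q ^ (L + k * (4 * B) + J)) →
  ((S.filter fun u => ((Finset.range (4 * B)).filter fun b =>
      (ncl q S (L + k * (b + 1)) u : ℝ) ≤ θ * ncl q S (L + k * b) u).card < B).card : ℝ) *
    (θ ^ (4 * B) * (1 / (q : ℝ) ^ k) ^ B) ≤ 2 ^ (4 * B) * (q : ℝ) ^ (L + J)

/-- LYD-CNT (uses T_TEL). Choose `B ≥ 1` with `8 q^(L+J) ≤ 4^B`. Let `X` be the number of `u ∈ S` with fewer than
`B` good `b < 4B`. T_TEL: `X ≤ (2/θ)^(4B) q^(kB + L + J)`, so with `q^(2kB) ≥ 4^B (2/θ)^(8B)`: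
`X^2 ≤ q^(4kB + 2L + 2J) / 4^B = q^M q^(L+J) / 4^B ≤ 2 |S|^2 / 8`, `X ≤ |S| / 2`. The double sum is
`∑_{u ∈ S} (number of good b) ≥ (|S| - X) B`. -/
def T_CNT : Prop := ∀ (q k : ℕ) (θ : ℝ), 2 ≤ q → 0 < θ → θ ≤ 1 → 2 * (2 / θ) ^ 4 ≤ (q : ℝ) ^ k →
  ∀ L J : ℕ, ∃ B : ℕ, 1 ≤ B ∧ ∀ S : Finset ℕ, (∀ u ∈ S, u < q ^ (L + k * (4 * B) + J)) →
    q ^ (L + k * (4 * B) + J) ≤ 2 * S.card ^ 2 →
    (S.card : ℝ) * B / 2 ≤ ∑ b ∈ Finset.range (4 * B),
      ((S.filter fun u => (ncl q S (L + k * (b + 1)) u : ℝ) ≤ θ * ncl q S (L + k * b) u).card : ℝ)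

/-- LYD-DIF. For `x ∈ F` choose a representative between 0 and 1 (for example `Pool.Agent.LYN.rp`, or
`AddCircle.equivIco`), in the arc `u` with `u ∈ vis R F`. For `h < R` take `x, y, t` as in the hypothesis, with
`u, v ∈ vis R F` for `x, y`: the difference of the representatives lies in `((u-v-1)/R, (u-v+1)/R)` and is congruent to
`t ∈ (h/R, (h+1)/R)` modulo 1, so `h ≡ u - v` or `h ≡ u - v - 1` modulo `R`. The map
`(u, v, e) ↦ (u - v - e) mod R` from `vis × vis × {0,1}` to `range R` is onto. -/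
def T_DIF : Prop := ∀ (R : ℕ) (F : Set Ci), 1 ≤ R →
  (∀ h < R, ∃ x ∈ F, ∃ y ∈ F, ∃ t : ℝ, (h : ℝ) / R < t ∧ t < ((h : ℝ) + 1) / R ∧ x - y = (t : Ci)) →
  R ≤ 2 * (vis R F).card ^ 2

/-! ## Test polynomials and the counting theorem -/

/-- LYD-BMP. Take a continuous `h : Ci → ℝ`, `0 ≤ h ≤ 1`, zero outside `U`, not identically zero, with mean
`2 β > 0` (Urysohn, or a distance function; the integral is positive since the Haar measure charges open sets).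
`h - β` as a complex function is approximated uniformly within `β / 2` by a finite combination of the `fourier a`
(`span_fourier_closure_eq_top`), say `∑_{a ∈ s} c a fourier a`, `0 ∈ s`. Outside `U` the real part is at most
`-β + β/2 < 0`, and `(c 0).re` is the integral of the real part, at least `2β - β - β/2 > 0`. -/
def T_BMP : Prop := ∀ U : Set Ci, IsOpen U → U.Nonempty → ∃ (s : Finset ℤ) (c : ℤ → ℂ), Tst U s c

/-- LYD-PNT. Let `y ∈ [u/q^M, (u+1)/q^M)` with `(y : Ci) ∈ F`. For `n ∈ Ico m N` let `v = M - r - (i n + m) ≥ 0`; then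
`q^v • y ∈ F`, so if `w n = 1`, `p^n q^v • y ∉ U` and `(∑_a c a ee(a p^n q^v y)).re ≤ 0`; multiply by `w n` and sum:
`(c 0).re ∑ w n ≤ ∑_{a ≠ 0} ‖c a‖ ‖∑_n w n ee(a p^n q^v y)‖`. And `q^v y - u / q^(r + i n + m) ∈ [0, q^v / q^M)`, with
`q^v / q^M = 1 / q^(r + i n + m) ≤ 1 / q^r`, so by `ee_lip` each term changes by at most `2 π |a| p^N / q^r`. -/
def T_PNT : Prop := ∀ (p q i m N r M : ℕ) (U : Set Ci) (s : Finset ℤ) (c : ℤ → ℂ) (F : Set Ci) (u : ℕ)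
  (w : ℕ → ℝ), 2 ≤ p → 2 ≤ q → Tst U s c → (∀ x ∈ F, q • x ∈ F) → u ∈ vis (q ^ M) F → r + (i * N + m) ≤ M →
  (∀ n, w n = if ∀ x ∈ F, p ^ n • x ∉ U then 1 else 0) →
  (c 0).re * ∑ n ∈ Finset.Ico m N, w n ≤
    ∑ a ∈ s.erase 0, ‖c a‖ * (‖∑ n ∈ Finset.Ico m N, (w n : ℂ) *
      ee ((a : ℝ) * (p : ℝ) ^ n * u / (q : ℝ) ^ (r + (i * n + m)))‖ +
        N * (2 * Real.pi * |(a : ℝ)| * (p : ℝ) ^ N / (q : ℝ) ^ r))

/-- LYD-CD (uses T_SUM, T_CHN, T_CNT, T_PNT; helper32 proves it). There is `M` such that a `q`-invariant set visiting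
at least `sqrt(q^M / 2)` arcs of length `q^-M` meets `U` under most `p^n`, `n < N`, for some bounded `N`. -/
def T_CD : Prop := ∀ (p q g : ℕ) (Q P : ℕ → ℕ), Dat p q g Q P → ∀ (U : Set Ci) (s : Finset ℤ) (c : ℤ → ℂ),
  Tst U s c → ∀ δ : ℝ, 0 < δ → ∃ M Nm : ℕ, 1 ≤ Nm ∧ ∀ F : Set Ci, (∀ x ∈ F, q • x ∈ F) →
    q ^ M ≤ 2 * (vis (q ^ M) F).card ^ 2 → ∃ N : ℕ, 1 ≤ N ∧ N ≤ Nm ∧
      (((Finset.range N).filter fun n => ∀ x ∈ F, p ^ n • x ∉ U).card : ℝ) ≤ δ * N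

/-! ## Differences -/

/-- LYD-SEL. `A i := ∏_{l ∈ Ico i g} Q l`, so `A 0 = q`, `A g = 1`, `A i = Q i * A (i+1)`. `H(i)`:
`(A i)^k • d k = 0` for all `k`. `H(0)` holds (`q^k • d k = d 0 = 0`), `H(g)` fails (`d 1 ≠ 0`); take `i < g` with `H(i)`
and not `H(i+1)`, and `k0` with `(A (i+1))^k0 • d k0 ≠ 0`. Let `m ≤ n`, `d' := d (i n + m)`. (1) `(A i)^(i n + m)`
divides `(Q i)^m p^n`: indeed `p^n = (Q i)^(i n) (P i)^n`, and `(A (i+1))^(i n + m)` divides `(P i)^n` because for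
`l > i`, `(Q l)^(l n) ∣ p^n`, `Q l` coprime to `Q i`, `l n ≥ i n + m`, and the `Q l` are pairwise coprime. So
`(Q i)^m • p^n • d' = 0`. (2) Suppose `k0 ≤ m` and `(Q i)^(m - k0) • p^n • d' = 0`. The order of `d'` divides
`(A i)^(i n + m) = (Q i)^(i n + m) (A (i+1))^(i n + m)` and `(Q i)^(i n + m - k0) (P i)^n`, hence their gcd
`(Q i)^(i n + m - k0) gcd((Q i)^k0 (A (i+1))^(i n + m), (P i)^n)`, which divides
`E = (Q i)^(i n + m - k0) (A (i+1))^(i n + m)` (`P i` coprime to `Q i`). Now `d k0 = q^(i n + m - k0) • d'`, and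
`(A (i+1))^k0 q^(i n + m - k0)` is a multiple of `(A (i+1))^k0 (Q i * A (i+1))^(i n + m - k0) = E`, so
`(A (i+1))^k0 • d k0 = 0`, a contradiction. -/
def T_SEL : Prop := ∀ (p q g : ℕ) (Q P : ℕ → ℕ), Dat p q g Q P → ∀ d : ℕ → Ci, Coh q d →
  ∃ i < g, ∃ k0 : ℕ, ∀ m n : ℕ, m ≤ n → Q i ^ m • p ^ n • d (i * n + m) = 0 ∧
    (k0 ≤ m → Q i ^ (m - k0) • p ^ n • d (i * n + m) ≠ 0)

/-- LYD-MLT (uses T_LTE, T_SPC). `e n := p^n • d (i n + m)`, `W := co Q g i`. Relation: `W^(i h) • e (n+h) = (P i)^h • e n`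
(both equal `p^n (P i)^h q^(i h) • d (i (n+h) + m)`, since `q^(i h) • d (i (n + h) + m) = d (i n + m)`,
`p^h = (Q i)^(i h) (P i)^h`, `q = Q i * W`). The order of `e n` (`n ≥ m`) divides `(Q i)^m`, so it is coprime to `W` and
`P i`, and the relation shows that all these orders are equal, to `D` say. If `e n = e (n+h) = t`, `n ≥ m`, `h ≥ 1`,
then `((P i)^h - (W^i)^h) • t = 0`, `D` divides `(P i)^h - (W^i)^h`, and T_LTE for `(Q i, P i, W^i)`, `a = 1`, gives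
`D ≤ C h`. Conclude with T_SPC. -/
def T_MLT : Prop := ∀ (p q g : ℕ) (Q P : ℕ → ℕ), Dat p q g Q P → ∀ i < g, ∃ C : ℕ, 1 ≤ C ∧
  ∀ (d : ℕ → Ci) (m : ℕ), (∀ k, q • d (k + 1) = d k) → (∀ n, m ≤ n → Q i ^ m • p ^ n • d (i * n + m) = 0) →
  ∃ D : ℕ, 1 ≤ D ∧ D ∣ Q i ^ m ∧ (∀ n, m ≤ n → addOrderOf (p ^ n • d (i * n + m)) = D) ∧
    ∀ x N : ℕ, m ≤ x → ∀ t : Ci,
      D * ((Finset.Ico x (x + N)).filter fun n => p ^ n • d (i * n + m) = t).card ≤ C * N + D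

/-- LYD-A4 (uses T_MLT, T_ORT, T_NDV). Same `C` as T_MLT, `D` from T_MLT, `e n = p^n • d (i n + m)`. Group the `n` by the
value `t = e n`: each value occurs at most `(C N + D) / D` times and satisfies `D • t = 0`, so `t = σ / D` with
`σ < D` (`AddCircle.nsmul_eq_zero_iff`). So the sum is at most
`((C N + D) / D) ∑_{σ < D} ‖∑_{j < K} ee(a q^j σ / D)‖^2 ≤ ((C N + D) / D) D K` by T_ORT with `B = 1`: if
`j < j' < K` and `D ∣ a q^j' - a q^j = a q^j (q^(j'-j) - 1)`, then, `D` being coprime to `q^(j'-j) - 1`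
(`D ∣ (Q i)^m`, `Q i ∣ q`), `D ∣ a q^j`, T_NDV gives `D ∣ (Q i)^(j + |a|)`, which divides `(Q i)^(m - k0)`, so
`(Q i)^(m - k0) • e m = 0`, a contradiction. -/
def T_A4 : Prop := ∀ (p q g : ℕ) (Q P : ℕ → ℕ), Dat p q g Q P → ∀ i < g, ∃ C : ℕ, 1 ≤ C ∧
  ∀ (d : ℕ → Ci) (m k0 : ℕ), (∀ k, q • d (k + 1) = d k) → k0 ≤ m →
  (∀ n, m ≤ n → Q i ^ m • p ^ n • d (i * n + m) = 0 ∧ Q i ^ (m - k0) • p ^ n • d (i * n + m) ≠ 0) →
  ∀ (a : ℤ) (K : ℕ), a ≠ 0 → K + a.natAbs + k0 ≤ m → ∀ x N : ℕ, m ≤ x →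
    ∑ n ∈ Finset.Ico x (x + N), ‖∑ j ∈ Finset.range K,
      (fourier a : C(UnitAddCircle, ℂ)) (q ^ j • p ^ n • d (i * n + m))‖ ^ 2 ≤
    ((C : ℝ) * N + (Q i : ℝ) ^ m) * K

/-- LYD-A (uses T_SEL, T_A4, T_BMP). `i, k0` from T_SEL, `C` from T_A4, `(s, c)` from T_BMP for `U`,
`c1 = ∑_{a ∈ s} ‖c a‖`, `A` with `|a| ≤ A` on `s`. Choose `K ≥ 1` with `(c1 / (c 0).re) sqrt((C + 1) / K) ≤ δ / 2`,
`m = K + A + k0`, `N0 ≥ (Q i)^m + 1` and `N0 ≥ 2 m / δ`. Let `w n = 1` if `∀ k, p^n • d k ∉ U`, else `0`. For `n ≥ m`,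
`j < K`: `q^j • p^n • d (i n + m) = p^n • d (i n + m - j)`, so `w n (∑_a c a fourier a (..)).re ≤ 0`. Summing over
`j < K` and `n ∈ Ico y (y + N)`, `y = max x m`:
`(c 0).re K ∑ w n ≤ ∑_{a ≠ 0} ‖c a‖ ∑_n ‖∑_j fourier a (..)‖ ≤ c1 sqrt(N) sqrt((C N + (Q i)^m) K) ≤ c1 N sqrt((C+1) K)`.
So `∑_{n ∈ Ico y (y+N)} w n ≤ (δ/2) N`, and the `n ∈ Ico x (x+N)` outside `Ico y (y + N)` are at most `m ≤ (δ/2) N`. -/
def T_A : Prop := ∀ (p q g : ℕ) (Q P : ℕ → ℕ), Dat p q g Q P → ∀ d : ℕ → Ci, Coh q d →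
  ∀ U : Set Ci, IsOpen U → U.Nonempty → ∀ δ : ℝ, 0 < δ → ∃ N0 : ℕ, ∀ x N : ℕ, N0 ≤ N →
    (((Finset.Ico x (x + N)).filter fun n => ∀ k, p ^ n • d k ∉ U).card : ℝ) ≤ δ * N

/-! ## The theorem on closed sets -/

/-- LYD-INJ. (1) There is `ε > 0` with: `x, y ∈ F`, `‖q • (x - y)‖ < ε` imply `‖x - y‖ < 1 / (2 q)` (the continuous
function `‖q • (x - y)‖` is positive on the compact set of pairs of `F` with `‖x - y‖ ≥ 1/(2q)`, by injectivity), and
then `‖q • (x - y)‖ = q ‖x - y‖` (norm of the circle: distance to the nearest integer). (2) `F` is covered by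
finitely many, say `r`, sets of diameter less than `ε` (compactness). If `F` had `r + 1` different points `x_0, ...,
x_r`, then for every `n` two of the points `q^n • x_j` are at distance `< ε`; going down from `n` to `0` with (1)
(all the points `q^k • x_j` are in `F`) gives `‖x_j - x_j'‖ ≤ ε / q^n`. Some pair `(j, j')` occurs for infinitely
many `n`, so `x_j = x_j'`, contradiction. -/
def T_INJ : Prop := ∀ (q : ℕ) (F : Set Ci), 2 ≤ q → IsClosed F → (∀ x ∈ F, q • x ∈ F) →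
  Set.InjOn (fun x : Ci => q • x) F → F.Finite

/-- LYD-COH (uses T_INJ). `F` is infinite, so by T_INJ there are `x ≠ y` in `F` with `q • x = q • y`. As
`(q • ·) '' F = F`, choose `x_1 = x, x_2, ...` and `y_1 = y, y_2, ...` in `F` with `q • x_(k+1) = x_k`,
`q • y_(k+1) = y_k`, and `x_0 = y_0 = q • x`; `d k = x_k - y_k`. -/
def T_COH : Prop := ∀ (q : ℕ) (F : Set Ci), 2 ≤ q → IsClosed F → F.Infinite →
  (fun x : Ci => q • x) '' F = F → ∃ d : ℕ → Ci, Coh q d ∧ ∀ k, ∃ x ∈ F, ∃ y ∈ F, d k = x - y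

/-- LYD-GRD. Greedy covering. Strong induction on `N` for all `x`. `N = 0` is trivial. If `B x`: one step. If not,
take `L`: if `L ≤ N`, `Ico x (x+N) = Ico x (x+L) ∪ Ico (x+L) (x+N)`, use the induction hypothesis for
`(x + L, N - L)`; if `L > N` the left side is at most the count on `Ico x (x+L)`, at most `δ L ≤ δ Nm`. -/
def T_GRD : Prop := ∀ (W B : ℕ → Prop) (δ : ℝ) (Nm : ℕ), 0 ≤ δ →
  (∀ n, ¬ B n → ∃ L : ℕ, 1 ≤ L ∧ L ≤ Nm ∧ (((Finset.Ico n (n + L)).filter W).card : ℝ) ≤ δ * L) →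
  ∀ x N : ℕ, (((Finset.Ico x (x + N)).filter W).card : ℝ) ≤
    ((Finset.Ico x (x + N)).filter B).card + δ * (N + Nm)

/-- LYD-MN1 (uses T_BMP, T_CD, T_A, T_DIF, T_GRD). `(s, c)` from T_BMP for `U`; `M, Nm` from T_CD with `δ/3`;
`R = q^M`. For `h < R` let `U_h` be the image of the open interval `(h/R, (h+1)/R)`, open and nonempty; T_A for `U_h`
and `δ/(3R)` gives `N0(h)`. `B n`: for some `h < R`, `∀ k, p^n • d k ∉ U_h`; for `N ≥ max_h N0(h)` the set `B` has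
at most `(δ/3) N` elements in `Ico x (x + N)`. If not `B n`, the set `F' = (p^n • ·) '' F` is `q`-invariant and
`F' - F'` contains the points `p^n • d k`, so T_DIF gives `R ≤ 2 |vis R F'|^2` and T_CD gives `1 ≤ L ≤ Nm` with
`#{j < L : ∀ y ∈ F', p^j • y ∉ U} ≤ (δ/3) L`, that is the hypothesis of T_GRD for
`W n := ∀ y ∈ F, p^n • y ∉ U`. T_GRD: the number is at most `(δ/3) N + (δ/3)(N + Nm) ≤ δ N` for `N ≥ Nm`. -/
def T_MN1 : Prop := ∀ (p q g : ℕ) (Q P : ℕ → ℕ), Dat p q g Q P → ∀ (F : Set Ci) (d : ℕ → Ci),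
  (∀ x ∈ F, q • x ∈ F) → Coh q d → (∀ k, ∃ x ∈ F, ∃ y ∈ F, d k = x - y) →
  ∀ U : Set Ci, IsOpen U → U.Nonempty → ∀ δ : ℝ, 0 < δ → ∃ N0 : ℕ, ∀ x N : ℕ, N0 ≤ N →
    (((Finset.Ico x (x + N)).filter fun n => ∀ y ∈ F, p ^ n • y ∉ U).card : ℝ) ≤ δ * N

/-- LYD-MAIN (uses T_STR, T_COH, T_MN1). `b` and `Dat (p^b) q g Q P` from T_STR. For `i < b` the set
`F_i = (p^i • ·) '' F` is closed (compact), infinite (the fibres of `x ↦ p^i • x` are finite) and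
`(q • ·) '' F_i = F_i`; T_COH and T_MN1 for `(p^b, q, F_i, δ/2)` give `N0(i)`. A number `n ∈ Ico x (x+N)` is
`b n' + i`, `i < b`, `p^n • y = (p^b)^n' • p^i • y`, and for fixed `i` the `n'` lie in an interval
`Ico z (z + N / b + 1)`; for `N / b ≥ max N0(i)` the total is at most `b (δ/2) (N/b + 1) ≤ (δ/2)(N + b) ≤ δ N` for
`N ≥ b`. -/
def T_MAIN : Prop := ∀ p q : ℕ, 2 ≤ p → 2 ≤ q → Ind p q → ∀ F : Set Ci, IsClosed F → F.Infinite →
  (fun x : Ci => q • x) '' F = F → ∀ U : Set Ci, IsOpen U → U.Nonempty → ∀ δ : ℝ, 0 < δ →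
  ∃ N0 : ℕ, ∀ x N : ℕ, N0 ≤ N →
    (((Finset.Ico x (x + N)).filter fun n => ∀ y ∈ F, p ^ n • y ∉ U).card : ℝ) ≤ δ * N

/-! ## Measures -/

/-- LYD-REC. `A_N(x) = #{n < N : f^n x ∈ G} / N`, measurable, between 0 and 1. `H = {x : A_N(x) → 0}` is measurable
and `f⁻¹ H = H` (`|A_N(f x) - A_N(x)| ≤ 1/N`). For every `n`, `μ({x : f^n x ∈ G} ∩ H) = μ(f^(-n)(G ∩ H)) = μ(G ∩ H)`,
so `μ(G ∩ H) = ∫_H A_N dμ → 0` by dominated convergence. So `μ(G ∩ H) = 0`. -/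
def T_REC : Prop := ∀ (μ : Measure Ci) (f : Ci → Ci) (G : Set Ci), IsProbabilityMeasure μ →
  MeasurePreserving f μ μ → MeasurableSet G →
  ∀ᵐ x ∂μ, x ∈ G → ¬ Tendsto (fun N : ℕ =>
    (((Finset.range N).filter fun n => f^[n] x ∈ G).card : ℝ) / N) atTop (𝓝 0)

/-- LYD-PHI. General fact: for a continuous `f` on a compact Hausdorff space and `u : ℕ → X`, the cluster points of
`f ∘ u` along `D` are the images of the cluster points of `u` (`mapClusterPt_iff_ultrafilter`: an ultrafilter below `D`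
along which `f ∘ u` tends to `y`; `u` tends to some `z` along it by compactness, `f z = y`). Closed: the set of cluster
points of a filter is closed. Nonempty: compactness. The second image: `q • q^j • x = q^(j+1) • x`, and
`Filter.map (· + 1) D = D`. Last: if not, then with `V` open containing `Phi D q x` and
`∃ᶠ j in D, q^j • x ∉ V`, the compact set `Vᶜ` contains a cluster point along `D` (compactness:
`IsCompact.exists_mapClusterPt_of_frequently`). -/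
def T_PHI : Prop := ∀ (D : Filter ℕ) (q : ℕ) (x : Ci), D.NeBot →
  IsClosed (Phi D q x) ∧ (Phi D q x).Nonempty ∧
  (∀ p : ℕ, (fun y : Ci => p • y) '' Phi D q x = Phi D q (p • x)) ∧
  (Filter.map (fun j : ℕ => j + 1) D = D → (fun y : Ci => q • y) '' Phi D q x = Phi D q x) ∧
  (∀ V : Set Ci, IsOpen V → Phi D q x ⊆ V → ∀ᶠ j in D, q ^ j • x ∈ V)

/-- LYD-MSF. `Phi D q x ∩ U = ∅` iff for every closed `K ⊆ U`, `∀ᶠ j in D, q^j • x ∉ K` (if there is a cluster point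
`y ∈ U` take for `K` a closed neighbourhood of `y` in `U`; if `∃ᶠ j in D, q^j • x ∈ K`, `K` compact contains a cluster
point). `U` is the union of the closed sets `K_r = {y : infDist y Uᶜ ≥ 1/(r+1)}`, `r : ℕ` (all of the circle if
`U = univ`), and each closed `K ⊆ U` is contained in one of them (compactness), so the condition is equivalent to the
countable conjunction over `r`. -/
def T_MSF : Prop := ∀ (D : Filter ℕ) (q : ℕ), D.NeBot →
  (∀ K : Set Ci, IsClosed K → MeasurableSet {x : Ci | ∀ᶠ j in D, q ^ j • x ∉ K}) →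
  ∀ U : Set Ci, IsOpen U → MeasurableSet {x : Ci | Phi D q x ∩ U = ∅}

/-- LYD-DFL. There is a filter with `A ∈ D ↔ DZ N A`: the axioms (`univ`; supersets by comparison; intersections by
the sum of the two counts). It is proper: for `A = ∅` the quotient is `1` when `N i ≥ 1`. Shift:
`{j : j + 1 ∈ A}` has the same property as `A`, the counts differ by at most one and `1 / N i → 0`. Measurability:
`∀ᶠ j in D, q^j • x ∉ K` says that `(1/N i) #{j < N i : q^j • x ∈ K}` tends to `0`, and these are measurable functions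
of `x` (finite sums of indicators of closed sets); `measurableSet_tendsto`. -/
def T_DFL : Prop := ∀ N : ℕ → ℕ, Tendsto N atTop atTop →
  ∃ D : Filter ℕ, D.NeBot ∧ (∀ A : Set ℕ, A ∈ D ↔ DZ N A) ∧ Filter.map (fun j : ℕ => j + 1) D = D ∧
    ∀ (q : ℕ) (K : Set Ci), IsClosed K → MeasurableSet {x : Ci | ∀ᶠ j in D, q ^ j • x ∉ K}

/-- LYD-OMI (may use T_PHI). Suppose `E = Phi atTop q x` is finite; `(q • ·) '' E = E`. Let `η > 0` be smaller than
`1/(2q)` and such that different points of `E` are at distance more than `(q+1) η`. For all `j ≥ J` there is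
`e_j ∈ E` with `‖q^j • x - e_j‖ < η` (T_PHI, last part). `‖q^(j+1) • x - q • e_j‖ ≤ q η`, so
`‖q • e_j - e_(j+1)‖ < (q+1) η` and `e_(j+1) = q • e_j`. So `z_j = q^j • x - e_j` satisfies `z_(j+1) = q • z_j` and
`‖z_j‖ < 1/(2q)`, hence `‖z_(j+1)‖ = q ‖z_j‖` for `j ≥ J`, and `z_J = 0` because the norms are bounded. So
`q^J • x = e_J ∈ E`; the points `q^i • e_J` are all in the finite set `E`, so `q^i • e_J = q^i' • e_J` for some
`i < i'`, and `x` has finite order. -/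
def T_OMI : Prop := ∀ (q : ℕ) (x : Ci), 2 ≤ q → ¬ IsOfFinAddOrder x → (Phi atTop q x).Infinite

/-- LYD-KEY (uses T_MAIN, T_REC, T_PHI, T_MSF). For `U` in a countable basis of nonempty open sets let
`G = {x : Phi D q x ∩ U = ∅}`, measurable by T_MSF. By T_REC (with `f x = p • x`, `f^[n] x = p^n • x`), for almost
every `x ∈ G` the frequency of `n` with `p^n • x ∈ G` does not tend to `0`. If `Phi D q x` is infinite, then it is
closed, `q`-invariant (T_PHI), `Phi D q (p^n • x) = (p^n • ·) '' Phi D q x`, and T_MAIN says that this frequency tends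
to `0`. So almost surely `x ∈ G` implies that `Phi D q x` is finite. -/
def T_KEY : Prop := ∀ p q : ℕ, 2 ≤ p → 2 ≤ q → Ind p q → ∀ D : Filter ℕ, D.NeBot →
  Filter.map (fun j : ℕ => j + 1) D = D →
  (∀ K : Set Ci, IsClosed K → MeasurableSet {x : Ci | ∀ᶠ j in D, q ^ j • x ∉ K}) →
  ∀ μ : Measure Ci, IsProbabilityMeasure μ → MeasurePreserving (fun x : Ci => p • x) μ μ →
  ∀ᵐ x ∂μ, (Phi D q x).Finite ∨ ∀ U : Set Ci, IsOpen U → U.Nonempty → (Phi D q x ∩ U).Nonempty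

end

end Pool.Agent.LYD
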